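import Mathlib

set_option autoImplicit false

/-!
# Functions of two variables with few coincidences meet few points near a small set

Core inequality: `#{(a, b) ∈ A × B : F(a, b) is within W of E} ^ 2 ≤ |E| |B| (2 W + 1) Z`, where `Z` is the number of the
`(a, a', b)` with `|F(a, b) - F(a', b)| ≤ 2 W`.
-/

namespace Pool.Agent.U449.BV

open Finset

lemma card_int_near (E : Finset ℤ) (x W : ℝ) (hW : 0 ≤ W) :
    ((E.filter fun m : ℤ => |(m : ℝ) - x| ≤ W).card : ℝ) ≤ 2 * W + 1 := by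
  have hsub : E.filter (fun m : ℤ => |(m : ℝ) - x| ≤ W) ⊆ Icc ⌈x - W⌉ ⌊x + W⌋ := by
    intro m hm
    rw [mem_filter, abs_le] at hm
    rw [mem_Icc]
    exact ⟨Int.ceil_le.2 (by linarith [hm.2.1]), Int.le_floor.2 (by linarith [hm.2.2])⟩
  have h1 : ((E.filter fun m : ℤ => |(m : ℝ) - x| ≤ W).card : ℝ) ≤ ((Icc ⌈x - W⌉ ⌊x + W⌋).card : ℝ) := by
    exact_mod_cast card_le_card hsub
  refine h1.trans ?_
  rw [Int.card_Icc]
  have h2 : ((⌊x + W⌋ + 1 - ⌈x - W⌉).toNat : ℝ) ≤ max ((⌊x + W⌋ + 1 - ⌈x - W⌉ : ℤ) : ℝ) 0 := by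
    rcases le_total 0 (⌊x + W⌋ + 1 - ⌈x - W⌉) with h | h
    · refine le_trans (le_of_eq ?_) (le_max_left _ _)
      exact_mod_cast congrArg (fun z : ℤ => (z : ℝ)) (Int.toNat_of_nonneg h)
    · rw [Int.toNat_of_nonpos h]
      simp
  refine h2.trans (max_le ?_ (by linarith))
  push_cast
  have h3 := Int.floor_le (x + W)
  have h4 := Int.le_ceil (x - W)
  linarith

/-- the core inequality -/
theorem core {α β : Type*} (A : Finset α) (B : Finset β) (F : α → β → ℝ) (E : Finset ℤ) (W : ℝ) (hW : 0 ≤ W) (Z : ℝ)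
    (hZ : (((A ×ˢ A) ×ˢ B).filter (fun z => |F z.1.1 z.2 - F z.1.2 z.2| ≤ 2 * W)).card ≤ Z) :
    (((A ×ˢ B).filter (fun z => ∃ m ∈ E, |(m : ℝ) - F z.1 z.2| ≤ W)).card : ℝ) ^ 2 ≤
      E.card * B.card * ((2 * W + 1) * Z) := by
  classical
  -- the number of the incidences
  set r : ℤ → β → ℝ := fun m b => ((A.filter fun a => |(m : ℝ) - F a b| ≤ W).card : ℝ) with hr
  have h1 : (((A ×ˢ B).filter (fun z => ∃ m ∈ E, |(m : ℝ) - F z.1 z.2| ≤ W)).card : ℝ) ≤
      ∑ z ∈ E ×ˢ B, r z.1 z.2 := by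
    have e1 : ∑ z ∈ E ×ˢ B, r z.1 z.2 =
        ((E ×ˢ (A ×ˢ B)).filter (fun z => |(z.1 : ℝ) - F z.2.1 z.2.2| ≤ W)).card := by
      rw [card_filter]
      push_cast
      rw [sum_product, sum_product]
      refine sum_congr rfl fun m _ => ?_
      rw [sum_product_right]
      refine sum_congr rfl fun b _ => ?_
      rw [hr]
      simp only [card_filter]
      push_cast
      rfl
    rw [e1]
    have hsub : (A ×ˢ B).filter (fun z => ∃ m ∈ E, |(m : ℝ) - F z.1 z.2| ≤ W) ⊆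
        ((E ×ˢ (A ×ˢ B)).filter (fun z => |(z.1 : ℝ) - F z.2.1 z.2.2| ≤ W)).image Prod.snd := by
      intro z hz
      rw [mem_filter] at hz
      obtain ⟨hz1, m, hm, hmz⟩ := hz
      rw [mem_image]
      exact ⟨(m, z), mem_filter.2 ⟨mem_product.2 ⟨hm, hz1⟩, hmz⟩, rfl⟩
    exact_mod_cast (card_le_card hsub).trans card_image_le
  have h2 : (∑ z ∈ E ×ˢ B, r z.1 z.2) ^ 2 ≤ ((E ×ˢ B).card : ℝ) * ∑ z ∈ E ×ˢ B, r z.1 z.2 ^ 2 :=
    sq_sum_le_card_mul_sum_sq
  have h3 : ∑ z ∈ E ×ˢ B, r z.1 z.2 ^ 2 ≤ (2 * W + 1) * Z := by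
    have e1 : ∑ z ∈ E ×ˢ B, r z.1 z.2 ^ 2 = ∑ b ∈ B, ∑ a ∈ A, ∑ a' ∈ A,
        ((E.filter fun m : ℤ => |(m : ℝ) - F a b| ≤ W ∧ |(m : ℝ) - F a' b| ≤ W).card : ℝ) := by
      rw [sum_product_right]
      refine sum_congr rfl fun b _ => ?_
      have e2 : ∀ m : ℤ, r m b ^ 2 = ∑ a ∈ A, ∑ a' ∈ A,
          (if |(m : ℝ) - F a b| ≤ W ∧ |(m : ℝ) - F a' b| ≤ W then (1 : ℝ) else 0) := by
        intro m
        rw [hr]
        simp only [card_filter]
        push_cast
        rw [sq, sum_mul_sum]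
        refine sum_congr rfl fun a _ => sum_congr rfl fun a' _ => ?_
        by_cases c1 : |(m : ℝ) - F a b| ≤ W <;> by_cases c2 : |(m : ℝ) - F a' b| ≤ W <;> simp [c1, c2]
      simp_rw [e2]
      rw [sum_comm]
      refine sum_congr rfl fun a _ => ?_
      rw [sum_comm]
      refine sum_congr rfl fun a' _ => ?_
      rw [card_filter]
      push_cast
      rfl
    rw [e1]
    have h4 : ∀ b ∈ B, ∀ a ∈ A, ∀ a' ∈ A,
        ((E.filter fun m : ℤ => |(m : ℝ) - F a b| ≤ W ∧ |(m : ℝ) - F a' b| ≤ W).card : ℝ) ≤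
        (2 * W + 1) * (if |F a b - F a' b| ≤ 2 * W then (1 : ℝ) else 0) := by
      intro b _ a _ a' _
      by_cases hc : |F a b - F a' b| ≤ 2 * W
      · rw [if_pos hc, mul_one]
        refine le_trans ?_ (card_int_near E (F a b) W hW)
        exact_mod_cast card_le_card (fun m hm => by
          rw [mem_filter] at hm ⊢
          exact ⟨hm.1, hm.2.1⟩)
      · rw [if_neg hc, mul_zero]
        have : E.filter (fun m : ℤ => |(m : ℝ) - F a b| ≤ W ∧ |(m : ℝ) - F a' b| ≤ W) = ∅ := by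
          rw [filter_eq_empty_iff]
          rintro m _ ⟨g1, g2⟩
          apply hc
          have : F a b - F a' b = (m - F a' b) - (m - F a b) := by ring
          rw [this]
          refine (abs_sub _ _).trans ?_
          linarith
        rw [this]
        simp
    refine (sum_le_sum fun b hb => sum_le_sum fun a ha => sum_le_sum fun a' ha' => h4 b hb a ha a' ha').trans ?_
    simp_rw [← mul_sum]
    apply mul_le_mul_of_nonneg_left _ (by linarith)
    refine le_trans (le_of_eq ?_) hZ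
    rw [card_filter]
    push_cast
    rw [sum_product_right]
    refine sum_congr rfl fun b _ => ?_
    rw [sum_product]
  have h5 : (0 : ℝ) ≤ (((A ×ˢ B).filter (fun z => ∃ m ∈ E, |(m : ℝ) - F z.1 z.2| ≤ W)).card : ℝ) := Nat.cast_nonneg _
  calc _ ≤ (∑ z ∈ E ×ˢ B, r z.1 z.2) ^ 2 := pow_le_pow_left₀ h5 h1 2
    _ ≤ _ := h2
    _ ≤ ((E ×ˢ B).card : ℝ) * ((2 * W + 1) * Z) := mul_le_mul_of_nonneg_left h3 (Nat.cast_nonneg _)
    _ = _ := by rw [card_product]; push_cast; ring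

/-- Coincidences are rare: for every `a ∈ A`, all the `a' ∈ A` but at most `d` (`a' = a` is one of these) have the
following property: for every `W ≥ 0` the inequality `|F a b - F a' b| ≤ W` holds for at most `d (2 W + 1)` of the
`b ∈ B`. -/
def Rare {α β : Type} (d : ℕ) (A : Finset α) (B : Finset β) (F : α → β → ℝ) : Prop :=
  ∀ a ∈ A, {a' : α | a' ∈ A ∧ ¬ ∀ W : ℝ, 0 ≤ W →
    ({b : β | b ∈ B ∧ |F a b - F a' b| ≤ W}.ncard : ℝ) ≤ d * (2 * W + 1)}.ncard ≤ d

lemma triples {α β : Type} {d : ℕ} {W : ℝ} (hW : 0 ≤ W) {A : Finset α} {B : Finset β} {F : α → β → ℝ}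
    (h : Rare d A B F) :
    ((((A ×ˢ A) ×ˢ B).filter (fun z => |F z.1.1 z.2 - F z.1.2 z.2| ≤ W)).card : ℝ) ≤
      d * (A.card * B.card) + A.card ^ 2 * (d * (2 * W + 1)) := by
  classical
  have e0 : ((((A ×ˢ A) ×ˢ B).filter (fun z => |F z.1.1 z.2 - F z.1.2 z.2| ≤ W)).card : ℝ) =
      ∑ a ∈ A, ∑ a' ∈ A, ((B.filter fun b => |F a b - F a' b| ≤ W).card : ℝ) := by
    rw [card_filter]
    push_cast
    rw [sum_product, sum_product]
    refine sum_congr rfl fun a _ => sum_congr rfl fun a' _ => ?_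
    rw [card_filter]
    push_cast
    rfl
  rw [e0]
  have h1 : ∀ a ∈ A, ∑ a' ∈ A, ((B.filter fun b => |F a b - F a' b| ≤ W).card : ℝ) ≤
      d * B.card + A.card * (d * (2 * W + 1)) := by
    intro a ha
    have h2 : ((A.filter fun a' => (d : ℝ) * (2 * W + 1) < ((B.filter fun b => |F a b - F a' b| ≤ W).card : ℝ)).card : ℝ) ≤ d := by
      refine le_trans ?_ (Nat.cast_le.2 (h a ha))
      rw [← Set.ncard_coe_finset]
      apply Nat.cast_le.2
      apply Set.ncard_le_ncard _ (A.finite_toSet.subset fun a' ha' => ha'.1)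
      intro a' ha'
      rw [mem_coe, mem_filter] at ha'
      refine ⟨ha'.1, fun hc => absurd (hc W hW) (not_le.2 ?_)⟩
      refine ha'.2.trans_le (le_of_eq ?_)
      rw [← Set.ncard_coe_finset, coe_filter]
    rw [← sum_filter_add_sum_filter_not A (fun a' => (d : ℝ) * (2 * W + 1) < ((B.filter fun b => |F a b - F a' b| ≤ W).card : ℝ))]
    apply add_le_add
    · refine (sum_le_card_nsmul _ _ (B.card : ℝ) fun a' _ => ?_).trans ?_
      · exact_mod_cast card_filter_le _ _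
      · rw [nsmul_eq_mul]
        exact mul_le_mul_of_nonneg_right h2 (Nat.cast_nonneg _)
    · refine (sum_le_card_nsmul _ _ ((d : ℝ) * (2 * W + 1)) fun a' ha' => ?_).trans ?_
      · rw [mem_filter, not_lt] at ha'
        exact ha'.2
      · rw [nsmul_eq_mul]
        apply mul_le_mul_of_nonneg_right _ (by positivity)
        exact_mod_cast card_filter_le _ _
  refine (sum_le_card_nsmul _ _ _ h1).trans (le_of_eq ?_)
  rw [nsmul_eq_mul]
  ring

end Pool.Agent.U449.BV
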