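import Pool.Agent.U449.BV.A

set_option autoImplicit false

/-!
# The values of a function of two variables with few coincidences keep away from small sets
-/

namespace Pool.Agent.U449.BV

open Finset

/-- one window -/
theorem window {T α β : Type} (h : T → ℝ) (S : Set T) {X W : ℝ} (hW : 1 ≤ W) (hWX : W ≤ X) (n : ℝ)
    (hS : {t | t ∈ S ∧ h t ≤ 2 * X}.Finite ∧ ({t | t ∈ S ∧ h t ≤ 2 * X}.ncard : ℝ) ≤ n) {d : ℕ} {A : Finset α}
    {B : Finset β} {F : α → β → ℝ} (hF : ∀ a ∈ A, ∀ b ∈ B, |F a b| ≤ X) (hR : Rare d A B F) :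
    ({z : α × β | z.1 ∈ A ∧ z.2 ∈ B ∧ ∃ t ∈ S, |h t - F z.1 z.2| ≤ W}.ncard : ℝ) ^ 2 ≤
      n * B.card * (4 * (d * (A.card * B.card) + A.card ^ 2 * (d * (6 * W + 1)))) := by
  classical
  have hW0 : 0 < W := by linarith
  set E : Finset ℤ := hS.1.toFinset.image (fun t => round (h t / W)) with hE
  have hEc : (E.card : ℝ) ≤ n := by
    refine le_trans ?_ hS.2
    rw [Set.ncard_eq_toFinset_card _ hS.1]
    exact_mod_cast card_image_le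
  have hZ := triples (W := 3 * W) (by linarith) hR
  have hc := core A B (fun a b => F a b / W) E (3 / 2) (by norm_num)
    (d * (A.card * B.card) + A.card ^ 2 * (d * (2 * (3 * W) + 1))) (by
      refine le_trans (le_of_eq ?_) hZ
      congr 2
      apply filter_congr
      intro z _
      have : F z.1.1 z.2 / W - F z.1.2 z.2 / W = (F z.1.1 z.2 - F z.1.2 z.2) / W := by ring
      rw [this, abs_div, abs_of_pos hW0, div_le_iff₀ hW0]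
      norm_num)
  have hsub : {z : α × β | z.1 ∈ A ∧ z.2 ∈ B ∧ ∃ t ∈ S, |h t - F z.1 z.2| ≤ W} ⊆
      (((A ×ˢ B).filter (fun z => ∃ m ∈ E, |(m : ℝ) - F z.1 z.2 / W| ≤ 3 / 2) : Finset (α × β)) : Set (α × β)) := by
    rintro z ⟨hz1, hz2, t, ht, htz⟩
    rw [mem_coe, mem_filter, mem_product]
    refine ⟨⟨hz1, hz2⟩, round (h t / W), ?_, ?_⟩
    · rw [hE, mem_image]
      refine ⟨t, ?_, rfl⟩
      rw [Set.Finite.mem_toFinset]
      refine ⟨ht, ?_⟩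
      have h1 := hF _ hz1 _ hz2
      rw [abs_le] at h1 htz
      linarith [h1.2, htz.2]
    · have h1 : |(round (h t / W) : ℝ) - h t / W| ≤ 1 / 2 := by
        rw [abs_sub_comm]
        exact abs_sub_round _
      have h2 : |h t / W - F z.1 z.2 / W| ≤ 1 := by
        have : h t / W - F z.1 z.2 / W = (h t - F z.1 z.2) / W := by ring
        rw [this, abs_div, abs_of_pos hW0, div_le_one hW0]
        exact htz
      have h3 : (round (h t / W) : ℝ) - F z.1 z.2 / W =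
          ((round (h t / W) : ℝ) - h t / W) + (h t / W - F z.1 z.2 / W) := by ring
      rw [h3]
      refine (abs_add_le _ _).trans ?_
      linarith
  have h1 : ({z : α × β | z.1 ∈ A ∧ z.2 ∈ B ∧ ∃ t ∈ S, |h t - F z.1 z.2| ≤ W}.ncard : ℝ) ≤
      (((A ×ˢ B).filter (fun z => ∃ m ∈ E, |(m : ℝ) - F z.1 z.2 / W| ≤ 3 / 2)).card : ℝ) := by
    rw [← Set.ncard_coe_finset]
    exact_mod_cast Set.ncard_le_ncard hsub (finite_toSet _)
  refine (pow_le_pow_left₀ (Nat.cast_nonneg _) h1 2).trans (hc.trans ?_)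
  have e1 : (2 * (3 / 2 : ℝ) + 1) * (d * (A.card * B.card) + A.card ^ 2 * (d * (2 * (3 * W) + 1))) =
      4 * (d * (A.card * B.card) + A.card ^ 2 * (d * (6 * W + 1))) := by ring
  rw [e1]
  gcongr

/-- the values keep away from small sets, uniformly in the small set -/
theorem unif {s κ δ : ℝ} (hs : 0 ≤ s) (hκ : 0 ≤ κ) (hδ : δ ≤ 1) (h1 : s + κ < δ) :
    ∃ ρ : ℝ, 0 < ρ ∧ ∀ (C : ℝ) (d : ℕ), ∃ X₀ : ℝ, ∀ X : ℝ, X₀ ≤ X → ∀ (T : Type) (h : T → ℝ) (S : Set T),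
      (∀ Y : ℝ, 1 ≤ Y → {t | t ∈ S ∧ h t ≤ Y}.Finite ∧ ({t | t ∈ S ∧ h t ≤ Y}.ncard : ℝ) ≤ C * Y ^ s) →
      ∀ (α β : Type) (A : Finset α) (B : Finset β) (F : α → β → ℝ), X ^ δ ≤ A.card → X ^ δ ≤ B.card →
      (∀ a ∈ A, ∀ b ∈ B, |F a b| ≤ X) → Rare d A B F →
      ({z : α × β | z.1 ∈ A ∧ z.2 ∈ B ∧ ∃ t ∈ S, |h t - F z.1 z.2| ≤ X ^ κ}.ncard : ℝ) ≤
        X ^ (-ρ) * (A.card * B.card) := by
  obtain ⟨ρ, hρ⟩ : ∃ ρ, ρ = (δ - s - κ) / 4 := ⟨_, rfl⟩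
  have hρ0 : 0 < ρ := by rw [hρ]; linarith
  refine ⟨ρ, hρ0, fun C d => ?_⟩
  obtain ⟨K, hK⟩ : ∃ K : ℝ, K = 32 * (|C| * 2 ^ s) * d := ⟨_, rfl⟩
  obtain ⟨X₁, hX₁⟩ := Filter.eventually_atTop.mp
    ((tendsto_rpow_atTop (show 0 < 2 * ρ by linarith)).eventually_ge_atTop K)
  refine ⟨max X₁ 1, fun X hX T h S hS α β A B F hA hB hF hR => ?_⟩
  have hX1 : 1 ≤ X := (le_max_right _ _).trans hX
  have hX0 : 0 < X := by linarith
  have hW1 : 1 ≤ X ^ κ := Real.one_le_rpow hX1 hκ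
  have hκ1 : κ ≤ 1 := by linarith
  have hWX : X ^ κ ≤ X := by
    calc X ^ κ ≤ X ^ (1 : ℝ) := Real.rpow_le_rpow_of_exponent_le hX1 hκ1
      _ = X := Real.rpow_one X
  obtain ⟨W, hW⟩ : ∃ W, W = X ^ κ := ⟨_, rfl⟩
  rw [← hW] at hW1 hWX ⊢
  obtain ⟨g1, g2⟩ := hS (2 * X) (by linarith)
  have h2 := window h S (X := X) (W := W) hW1 hWX (|C| * (2 * X) ^ s) ⟨g1, g2.trans
    (mul_le_mul_of_nonneg_right (le_abs_self C) (by positivity))⟩ hF hR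
  obtain ⟨a, ha⟩ : ∃ a : ℝ, a = A.card := ⟨_, rfl⟩
  obtain ⟨b, hb⟩ : ∃ b : ℝ, b = B.card := ⟨_, rfl⟩
  rw [← ha, ← hb] at h2 ⊢
  rw [← ha] at hA
  rw [← hb] at hB
  have hXδ : 0 < X ^ δ := by positivity
  have ha0 : 0 < a := by linarith
  have hb0 : 0 < b := by linarith
  obtain ⟨c, hc⟩ : ∃ c : ℝ, c = ({z : α × β | z.1 ∈ A ∧ z.2 ∈ B ∧ ∃ t ∈ S, |h t - F z.1 z.2| ≤ W}.ncard : ℝ) :=
    ⟨_, rfl⟩
  rw [← hc] at h2 ⊢
  have hc0 : 0 ≤ c := by rw [hc]; positivity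
  -- `b + a (6 W + 1) ≤ a b * 8 W / X ^ δ`
  have h3 : b + a * (6 * W + 1) ≤ a * b * (8 * (W / X ^ δ)) := by
    have e1 : b ≤ a * b * (1 / X ^ δ) := by
      rw [mul_one_div, le_div_iff₀ hXδ]
      nlinarith
    have e2 : a ≤ a * b * (1 / X ^ δ) := by
      rw [mul_one_div, le_div_iff₀ hXδ]
      nlinarith
    have e3 : 0 ≤ a * b * (1 / X ^ δ) := by positivity
    calc b + a * (6 * W + 1) ≤ a * b * (1 / X ^ δ) + a * b * (1 / X ^ δ) * (6 * W + 1) :=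
          add_le_add e1 (mul_le_mul_of_nonneg_right e2 (by linarith))
      _ = a * b * (1 / X ^ δ) * (6 * W + 2) := by ring
      _ ≤ a * b * (1 / X ^ δ) * (8 * W) := mul_le_mul_of_nonneg_left (by linarith) e3
      _ = _ := by ring
  have h4 : c ^ 2 ≤ K * X ^ (-(4 * ρ)) * (a * b) ^ 2 := by
    have e1 : (|C| * (2 * X) ^ s) * b * (4 * (d * (a * b) + a ^ 2 * (d * (6 * W + 1)))) =
        4 * (|C| * (2 * X) ^ s) * d * (a * b) * (b + a * (6 * W + 1)) := by ring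
    rw [e1] at h2
    refine h2.trans ?_
    have e2 : 0 ≤ 4 * (|C| * (2 * X) ^ s) * d * (a * b) := by positivity
    refine (mul_le_mul_of_nonneg_left h3 e2).trans (le_of_eq ?_)
    have e3 : X ^ (-(4 * ρ)) = X ^ s * (W / X ^ δ) := by
      rw [hW, ← Real.rpow_sub hX0, ← Real.rpow_add hX0, hρ]
      congr 1
      ring
    rw [e3, Real.mul_rpow (by norm_num) hX0.le, hK]
    ring
  have h5 : K * X ^ (-(4 * ρ)) ≤ (X ^ (-ρ)) ^ 2 := by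
    have e1 : (X ^ (-ρ)) ^ 2 = X ^ (2 * ρ) * X ^ (-(4 * ρ)) := by
      rw [← Real.rpow_natCast, ← Real.rpow_mul hX0.le, ← Real.rpow_add hX0]
      congr 1
      push_cast
      ring
    rw [e1]
    exact mul_le_mul_of_nonneg_right (hX₁ X ((le_max_left _ _).trans hX)) (by positivity)
  have h6 : c ^ 2 ≤ (X ^ (-ρ) * (a * b)) ^ 2 := by
    rw [mul_pow]
    exact h4.trans (mul_le_mul_of_nonneg_right h5 (by positivity))
  exact (pow_le_pow_iff_left₀ hc0 (by positivity) (by norm_num)).1 h6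

/-- **The values of functions of two variables.** `OnProducts e κ P` is the following statement. Let `e < δ ≤ 1` and `d` be
fixed. There is `ρ > 0` such that for all large `X`: let `A` and `B` be ARBITRARY finite sets of at least `X ^ δ` elements,
and let `F` be ANY function of two variables with real values `|F a b| ≤ X` on `A × B` for which coincidences are rare
(`Rare d A B F`). Then for all the pairs `(a, b)` in `A × B`, apart from a proportion of at most `X ^ (-ρ)`, the number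
`x = F a b` has the property `P (X ^ κ) x` (where `X ^ κ` is the length of the window). -/
def OnProducts (e κ : ℝ) (P : ℝ → ℝ → Prop) : Prop :=
  ∀ δ : ℝ, e < δ → δ ≤ 1 → ∀ d : ℕ, ∃ ρ : ℝ, 0 < ρ ∧ ∃ X₀ : ℝ, ∀ X : ℝ, X₀ ≤ X →
    ∀ (α β : Type) (A : Finset α) (B : Finset β) (F : α → β → ℝ), X ^ δ ≤ A.card → X ^ δ ≤ B.card →
      (∀ a ∈ A, ∀ b ∈ B, |F a b| ≤ X) → Rare d A B F →
      ({z : α × β | z.1 ∈ A ∧ z.2 ∈ B ∧ ¬ P (X ^ κ) (F z.1 z.2)}.ncard : ℝ) ≤ X ^ (-ρ) * (A.card * B.card)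

theorem OnProducts.mono {e κ : ℝ} {P P' : ℝ → ℝ → Prop} (h : OnProducts e κ P) (hP : ∀ W x, 0 ≤ W → P W x → P' W x) :
    OnProducts e κ P' := by
  intro δ hδ hδ1 d
  obtain ⟨ρ, hρ, X₀, hX₀⟩ := h δ hδ hδ1 d
  refine ⟨ρ, hρ, max X₀ 1, fun X hX α β A B F hA hB hF hR => ?_⟩
  have hX1 : 1 ≤ X := (le_max_right _ _).trans hX
  refine le_trans ?_ (hX₀ X ((le_max_left _ _).trans hX) α β A B F hA hB hF hR)
  have hfin : {z : α × β | z.1 ∈ A ∧ z.2 ∈ B ∧ ¬ P (X ^ κ) (F z.1 z.2)}.Finite := by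
    apply (A ×ˢ B).finite_toSet.subset
    rintro z ⟨h1, h2, -⟩
    rw [mem_coe, mem_product]
    exact ⟨h1, h2⟩
  apply Nat.cast_le.2
  apply Set.ncard_le_ncard _ hfin
  rintro z ⟨h1, h2, h3⟩
  exact ⟨h1, h2, fun hc => h3 (hP _ _ (Real.rpow_nonneg (by linarith) _) hc)⟩

/-- admissible objects `t` of size `h t` near the values are good -/
theorem on_products {T : Type} (Adm Good : T → Prop) (h : T → ℝ) {s κ : ℝ} (hs : 0 ≤ s) (hκ : 0 ≤ κ)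
    (hS : ∀ ε : ℝ, 0 < ε → ∃ C : ℝ, ∀ X : ℝ, 1 ≤ X →
      {t | (Adm t ∧ ¬ Good t) ∧ h t ≤ X}.Finite ∧ ({t | (Adm t ∧ ¬ Good t) ∧ h t ≤ X}.ncard : ℝ) ≤ C * X ^ (s + ε)) :
    OnProducts (s + κ) κ (fun W x => ∀ t, Adm t → |h t - x| ≤ W → Good t) := by
  intro δ hδ hδ1 d
  obtain ⟨C, hC⟩ := hS ((δ - s - κ) / 2) (by linarith)
  obtain ⟨ρ, hρ, H⟩ := unif (s := s + (δ - s - κ) / 2) (κ := κ) (δ := δ) (by linarith) hκ hδ1 (by linarith)
  obtain ⟨X₀, hX₀⟩ := H C d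
  refine ⟨ρ, hρ, X₀, fun X hX α β A B F hA hB hF hR => ?_⟩
  refine le_trans (le_of_eq ?_) (hX₀ X hX T h {t | Adm t ∧ ¬ Good t} hC α β A B F hA hB hF hR)
  congr 2
  ext z
  simp only [Set.mem_ofPred_eq]
  push Not
  refine and_congr_right fun _ => and_congr_right fun _ => ⟨?_, ?_⟩
  · rintro ⟨t, h1, h2, h3⟩
    exact ⟨t, ⟨h1, h3⟩, h2⟩
  · rintro ⟨t, ⟨h1, h3⟩, h2⟩
    exact ⟨t, h1, h2, h3⟩

open Classical in
/-- sets of natural numbers -/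
theorem on_products_nat (P : Set ℕ) {s κ : ℝ} (hs : 0 ≤ s) (hκ : 0 ≤ κ)
    (hP : ∀ ε : ℝ, 0 < ε → ∃ C : ℝ, ∀ X : ℕ, 1 ≤ X →
      (((Ioc 0 X).filter (fun t => t ∈ P)).card : ℝ) ≤ C * (X : ℝ) ^ (s + ε)) :
    OnProducts (s + κ) κ (fun W x => ∀ n : ℕ, |(n : ℝ) - x| ≤ W → 1 ≤ n ∧ n ∉ P) := by
  refine (on_products (fun _ : ℕ => True) (fun n => 1 ≤ n ∧ n ∉ P) (fun n => (n : ℝ)) hs hκ ?_).mono
    (fun W x _ h n hn => h n trivial hn)
  intro ε hε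
  obtain ⟨C, hC⟩ := hP ε hε
  refine ⟨|C| + 1, fun X hX => ?_⟩
  have hX1 : 1 ≤ ⌊X⌋₊ := Nat.le_floor (by exact_mod_cast hX)
  have hsub : {t : ℕ | (True ∧ ¬ (1 ≤ t ∧ t ∉ P)) ∧ (t : ℝ) ≤ X} ⊆
      (((Ioc 0 ⌊X⌋₊).filter (fun t => t ∈ P) ∪ {0} : Finset ℕ) : Set ℕ) := by
    rintro t ⟨⟨-, ht⟩, htX⟩
    rw [mem_coe, mem_union, mem_filter, mem_Ioc, mem_singleton]
    rcases Nat.eq_zero_or_pos t with h0 | h0
    · right; exact h0
    · left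
      refine ⟨⟨h0, Nat.le_floor htX⟩, ?_⟩
      by_contra h
      exact ht ⟨h0, h⟩
  refine ⟨(finite_toSet _).subset hsub, ?_⟩
  have h2 := Set.ncard_le_ncard hsub (finite_toSet _)
  rw [Set.ncard_coe_finset] at h2
  have h3 : ((Ioc 0 ⌊X⌋₊).filter (fun t => t ∈ P) ∪ {0} : Finset ℕ).card ≤
      ((Ioc 0 ⌊X⌋₊).filter (fun t => t ∈ P)).card + 1 := (card_union_le _ _).trans (by simp)
  have h4 : (({t : ℕ | (True ∧ ¬ (1 ≤ t ∧ t ∉ P)) ∧ (t : ℝ) ≤ X}.ncard : ℕ) : ℝ) ≤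
      (((Ioc 0 ⌊X⌋₊).filter (fun t => t ∈ P)).card : ℝ) + 1 := by exact_mod_cast h2.trans h3
  have h5 : (1 : ℝ) ≤ X ^ (s + ε) := Real.one_le_rpow hX (by linarith)
  have h6 : ((⌊X⌋₊ : ℕ) : ℝ) ^ (s + ε) ≤ X ^ (s + ε) :=
    Real.rpow_le_rpow (Nat.cast_nonneg _) (Nat.floor_le (by linarith)) (by linarith)
  calc _ ≤ (((Ioc 0 ⌊X⌋₊).filter (fun t => t ∈ P)).card : ℝ) + 1 := h4
    _ ≤ C * ((⌊X⌋₊ : ℕ) : ℝ) ^ (s + ε) + 1 := by linarith [hC _ hX1]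
    _ ≤ |C| * X ^ (s + ε) + 1 * X ^ (s + ε) := by
      have h7 : C * ((⌊X⌋₊ : ℕ) : ℝ) ^ (s + ε) ≤ |C| * X ^ (s + ε) :=
        (mul_le_mul_of_nonneg_right (le_abs_self _) (by positivity)).trans
          (mul_le_mul_of_nonneg_left h6 (abs_nonneg _))
      linarith
    _ = (|C| + 1) * X ^ (s + ε) := by ring

end Pool.Agent.U449.BV
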