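import Pool.Agent.U449.BV.B

set_option autoImplicit false

/-!
# Polynomials with a mixed monomial, changed by arbitrary functions of one variable each, have few coincidences
-/

namespace Pool.Agent.U449.BV

open Finset

lemma fin2_ext {m m' : Fin 2 →₀ ℕ} (h0 : m 0 = m' 0) (h1 : m 1 = m' 1) : m = m' := by
  ext i
  fin_cases i
  · exact h0
  · exact h1

/-- the polynomial `Q(a, y)` -/
noncomputable def sl (Q : MvPolynomial (Fin 2) ℤ) (a : ℤ) : Polynomial ℤ :=
  ∑ m ∈ Q.support, Polynomial.monomial (m 1) (Q.coeff m * a ^ (m 0))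

/-- the coefficient of `y ^ j` in `Q(x, y)` -/
noncomputable def cf (Q : MvPolynomial (Fin 2) ℤ) (j : ℕ) : Polynomial ℤ :=
  ∑ m ∈ Q.support with m 1 = j, Polynomial.monomial (m 0) (Q.coeff m)

lemma sl_eval (Q : MvPolynomial (Fin 2) ℤ) (a b : ℤ) : (sl Q a).eval b = MvPolynomial.eval ![a, b] Q := by
  rw [MvPolynomial.eval_eq', sl, Polynomial.eval_finsetSum]
  refine sum_congr rfl fun m _ => ?_
  rw [Polynomial.eval_monomial, Fin.prod_univ_two]
  simp only [Matrix.cons_val_zero, Matrix.cons_val_one]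
  ring

lemma sl_coeff (Q : MvPolynomial (Fin 2) ℤ) (a : ℤ) (j : ℕ) : (sl Q a).coeff j = (cf Q j).eval a := by
  rw [sl, cf, Polynomial.finsetSum_coeff, Polynomial.eval_finsetSum, sum_filter]
  refine sum_congr rfl fun m _ => ?_
  rw [Polynomial.coeff_monomial, Polynomial.eval_monomial]

lemma le_deg {Q : MvPolynomial (Fin 2) ℤ} {d : ℕ} (hd : Q.totalDegree ≤ d) {m : Fin 2 →₀ ℕ} (hm : m ∈ Q.support)
    (i : Fin 2) : m i ≤ d := by
  refine le_trans ?_ ((MvPolynomial.le_totalDegree hm).trans hd)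
  rw [Finsupp.sum_fintype _ _ (fun _ => rfl), Fin.sum_univ_two]
  fin_cases i
  · exact Nat.le_add_right _ _
  · exact Nat.le_add_left _ _

lemma sl_deg {Q : MvPolynomial (Fin 2) ℤ} {d : ℕ} (hd : Q.totalDegree ≤ d) (a : ℤ) : (sl Q a).natDegree ≤ d := by
  rw [sl]
  refine Polynomial.natDegree_sum_le_of_forall_le _ _ fun m hm => ?_
  exact (Polynomial.natDegree_monomial_le _).trans (le_deg hd hm 1)

lemma cf_deg {Q : MvPolynomial (Fin 2) ℤ} {d : ℕ} (hd : Q.totalDegree ≤ d) (j : ℕ) : (cf Q j).natDegree ≤ d := by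
  rw [cf]
  refine Polynomial.natDegree_sum_le_of_forall_le _ _ fun m hm => ?_
  exact (Polynomial.natDegree_monomial_le _).trans (le_deg hd (mem_filter.1 hm).1 0)

lemma cf_coeff {Q : MvPolynomial (Fin 2) ℤ} {m : Fin 2 →₀ ℕ} (hm : m ∈ Q.support) :
    (cf Q (m 1)).coeff (m 0) = Q.coeff m := by
  rw [cf, Polynomial.finsetSum_coeff]
  rw [sum_eq_single m]
  · rw [Polynomial.coeff_monomial, if_pos rfl]
  · intro m' hm' hne
    rw [Polynomial.coeff_monomial, if_neg]
    intro h
    exact hne (fin2_ext h (mem_filter.1 hm').2)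
  · intro h
    exact (h (mem_filter.2 ⟨hm, rfl⟩)).elim

/-- an integer polynomial which is not constant is at few integers near a given number -/
lemma near_poly (R : Polynomial ℤ) {d : ℕ} (hd : R.natDegree ≤ d) (hR : 0 < R.natDegree) (B : Finset ℤ) (x W : ℝ)
    (hW : 0 ≤ W) : ((B.filter fun b : ℤ => |((R.eval b : ℤ) : ℝ) + x| ≤ W).card : ℝ) ≤ d * (2 * W + 1) := by
  classical
  set V : Finset ℤ := (B.filter fun b : ℤ => |((R.eval b : ℤ) : ℝ) + x| ≤ W).image (fun b => R.eval b) with hV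
  have h1 : (V.card : ℝ) ≤ 2 * W + 1 := by
    refine le_trans ?_ (card_int_near V (-x) W hW)
    refine Nat.cast_le.2 (card_le_card fun v hv => ?_)
    refine mem_filter.2 ⟨hv, ?_⟩
    rw [hV, mem_image] at hv
    obtain ⟨b, hb, rfl⟩ := hv
    have := (mem_filter.1 hb).2
    rwa [sub_neg_eq_add]
  have h2 : (B.filter fun b : ℤ => |((R.eval b : ℤ) : ℝ) + x| ≤ W).card ≤ d * V.card := by
    apply card_le_mul_card_image
    intro v _
    have hne : R - Polynomial.C v ≠ 0 := by
      intro h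
      have h3 : R = Polynomial.C v := sub_eq_zero.1 h
      rw [h3, Polynomial.natDegree_C] at hR
      exact lt_irrefl _ hR
    have h4 : ((B.filter fun b : ℤ => |((R.eval b : ℤ) : ℝ) + x| ≤ W).filter fun b => R.eval b = v) ⊆
        (R - Polynomial.C v).roots.toFinset := by
      intro b hb
      rw [Multiset.mem_toFinset, Polynomial.mem_roots hne, Polynomial.IsRoot, Polynomial.eval_sub, Polynomial.eval_C,
        (mem_filter.1 hb).2, sub_self]
    refine (card_le_card h4).trans ((Multiset.toFinset_card_le _).trans ((Polynomial.card_roots' _).trans ?_))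
    refine (Polynomial.natDegree_sub_le _ _).trans ?_
    rw [Polynomial.natDegree_C, max_eq_left (Nat.zero_le _)]
    exact hd
  have h3 : (0 : ℝ) ≤ d := Nat.cast_nonneg d
  calc _ ≤ ((d * V.card : ℕ) : ℝ) := Nat.cast_le.2 h2
    _ = d * (V.card : ℝ) := by push_cast; ring
    _ ≤ _ := mul_le_mul_of_nonneg_left h1 h3

/-- **Coincidences are rare for the polynomials with a mixed monomial**, changed by arbitrary real functions of one variable
each, at the integers. -/
theorem rare_poly {d : ℕ} {Q : MvPolynomial (Fin 2) ℤ} (hd : Q.totalDegree ≤ d)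
    (hQ : ∃ m ∈ Q.support, m 0 ≠ 0 ∧ m 1 ≠ 0) (g h : ℤ → ℝ) (A B : Finset ℤ) :
    Rare d A B (fun a b => ((MvPolynomial.eval ![a, b] Q : ℤ) : ℝ) + g a + h b) := by
  classical
  obtain ⟨m, hm, hm0, hm1⟩ := hQ
  intro a ha
  have hne : cf Q (m 1) - Polynomial.C ((cf Q (m 1)).eval a) ≠ 0 := by
    intro hc
    have h3 := congrArg (fun P => Polynomial.coeff P (m 0)) hc
    simp only [Polynomial.coeff_sub, Polynomial.coeff_zero, Polynomial.coeff_C, if_neg hm0, sub_zero] at h3
    rw [cf_coeff hm] at h3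
    exact (MvPolynomial.mem_support_iff.1 hm) h3
  have hsub : {a' : ℤ | a' ∈ A ∧ ¬ ∀ W : ℝ, 0 ≤ W →
      ({b : ℤ | b ∈ B ∧ |(((MvPolynomial.eval ![a, b] Q : ℤ) : ℝ) + g a + h b) -
        (((MvPolynomial.eval ![a', b] Q : ℤ) : ℝ) + g a' + h b)| ≤ W}.ncard : ℝ) ≤ d * (2 * W + 1)} ⊆
      ((cf Q (m 1) - Polynomial.C ((cf Q (m 1)).eval a)).roots.toFinset : Set ℤ) := by
    rintro a' ⟨_, h1⟩
    rw [mem_coe, Multiset.mem_toFinset, Polynomial.mem_roots hne, Polynomial.IsRoot, Polynomial.eval_sub,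
      Polynomial.eval_C, sub_eq_zero]
    by_contra h2
    apply h1
    intro W hW
    have h3 : 0 < (sl Q a - sl Q a').natDegree := by
      rw [Nat.pos_iff_ne_zero]
      intro h0
      have h4 : (sl Q a - sl Q a').coeff (m 1) = 0 :=
        Polynomial.coeff_eq_zero_of_natDegree_lt (by rw [h0]; exact Nat.pos_of_ne_zero hm1)
      rw [Polynomial.coeff_sub, sl_coeff, sl_coeff, sub_eq_zero] at h4
      exact h2 h4.symm
    have h4 : (sl Q a - sl Q a').natDegree ≤ d :=
      (Polynomial.natDegree_sub_le _ _).trans (max_le (sl_deg hd a) (sl_deg hd a'))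
    refine le_trans (le_of_eq ?_) (near_poly (sl Q a - sl Q a') h4 h3 B (g a - g a') W hW)
    rw [← Set.ncard_coe_finset, coe_filter]
    congr 2
    ext b
    refine and_congr_right fun _ => ?_
    rw [Polynomial.eval_sub, sl_eval, sl_eval]
    push_cast
    have : ((MvPolynomial.eval ![a, b] Q : ℤ) : ℝ) + g a + h b - (((MvPolynomial.eval ![a', b] Q : ℤ) : ℝ) + g a' + h b) =
        ((MvPolynomial.eval ![a, b] Q : ℤ) : ℝ) - ((MvPolynomial.eval ![a', b] Q : ℤ) : ℝ) + (g a - g a') := by ring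
    rw [this]
  refine (Set.ncard_le_ncard hsub (finite_toSet _)).trans ?_
  rw [Set.ncard_coe_finset]
  refine (Multiset.toFinset_card_le _).trans ((Polynomial.card_roots' _).trans ?_)
  refine (Polynomial.natDegree_sub_le _ _).trans ?_
  rw [Polynomial.natDegree_C, max_eq_left (Nat.zero_le _)]
  exact cf_deg hd _

end Pool.Agent.U449.BV
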