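import Pool.Agent.U449.BV.C

set_option autoImplicit false

/-!
# Variants of the interface
-/

namespace Pool.Agent.U449.BV

open Finset

/-- sets of objects `t` of size `h t` -/
theorem on_products_set {T : Type} (S : Set T) (h : T → ℝ) {s κ : ℝ} (hs : 0 ≤ s) (hκ : 0 ≤ κ)
    (hS : ∀ ε : ℝ, 0 < ε → ∃ C : ℝ, ∀ X : ℝ, 1 ≤ X →
      {t | t ∈ S ∧ h t ≤ X}.Finite ∧ ({t | t ∈ S ∧ h t ≤ X}.ncard : ℝ) ≤ C * X ^ (s + ε)) :
    OnProducts (s + κ) κ (fun W x => ∀ t, |h t - x| ≤ W → t ∉ S) := by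
  refine (on_products (fun _ : T => True) (fun t => t ∉ S) h hs hκ ?_).mono (fun W x _ h' t ht => h' t trivial ht)
  intro ε hε
  obtain ⟨C, hC⟩ := hS ε hε
  refine ⟨C, fun X hX => ?_⟩
  simpa only [true_and, not_not] using hC X hX

/-- the exponent may be increased -/
theorem OnProducts.mono_exp {e e' κ : ℝ} {P : ℝ → ℝ → Prop} (h : OnProducts e κ P) (he : e ≤ e') : OnProducts e' κ P :=
  fun δ hδ hδ1 d => h δ (lt_of_le_of_lt he hδ) hδ1 d

/-- polynomials with a mixed monomial, in the form of a statement -/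
theorem polys (d : ℕ) (f : MvPolynomial (Fin 2) ℤ) (hd : f.totalDegree ≤ d) (hf : ∃ m ∈ f.support, m 0 ≠ 0 ∧ m 1 ≠ 0)
    (g h : ℤ → ℝ) (A B : Finset ℤ) : Rare d A B (fun a b => ((MvPolynomial.eval ![a, b] f : ℤ) : ℝ) + g a + h b) :=
  rare_poly hd hf g h A B

end Pool.Agent.U449.BV
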