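import Pool.Agent.U449.BV.D

set_option autoImplicit false

/-!
# Residues modulo a prime of polynomials with a mixed monomial, changed by arbitrary functions of one variable each
-/

namespace Pool.Agent.U449.BV

open Finset

section

variable {R : Type} [CommRing R] [IsDomain R]

/-- the polynomial `Q(a, y)` -/
noncomputable def slR (Q : MvPolynomial (Fin 2) R) (a : R) : Polynomial R :=
  ∑ m ∈ Q.support, Polynomial.monomial (m 1) (Q.coeff m * a ^ (m 0))

/-- the coefficient of `y ^ j` in `Q(x, y)` -/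
noncomputable def cfR (Q : MvPolynomial (Fin 2) R) (j : ℕ) : Polynomial R :=
  ∑ m ∈ Q.support with m 1 = j, Polynomial.monomial (m 0) (Q.coeff m)

lemma slR_eval (Q : MvPolynomial (Fin 2) R) (a b : R) : (slR Q a).eval b = MvPolynomial.eval ![a, b] Q := by
  rw [MvPolynomial.eval_eq', slR, Polynomial.eval_finsetSum]
  refine sum_congr rfl fun m _ => ?_
  rw [Polynomial.eval_monomial, Fin.prod_univ_two]
  simp only [Matrix.cons_val_zero, Matrix.cons_val_one]
  ring

lemma slR_coeff (Q : MvPolynomial (Fin 2) R) (a : R) (j : ℕ) : (slR Q a).coeff j = (cfR Q j).eval a := by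
  rw [slR, cfR, Polynomial.finsetSum_coeff, Polynomial.eval_finsetSum, sum_filter]
  refine sum_congr rfl fun m _ => ?_
  rw [Polynomial.coeff_monomial, Polynomial.eval_monomial]

lemma leR_deg {Q : MvPolynomial (Fin 2) R} {d : ℕ} (hd : Q.totalDegree ≤ d) {m : Fin 2 →₀ ℕ} (hm : m ∈ Q.support)
    (i : Fin 2) : m i ≤ d := by
  refine le_trans ?_ ((MvPolynomial.le_totalDegree hm).trans hd)
  rw [Finsupp.sum_fintype _ _ (fun _ => rfl), Fin.sum_univ_two]
  fin_cases i
  · exact Nat.le_add_right _ _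
  · exact Nat.le_add_left _ _

lemma slR_deg {Q : MvPolynomial (Fin 2) R} {d : ℕ} (hd : Q.totalDegree ≤ d) (a : R) : (slR Q a).natDegree ≤ d := by
  rw [slR]
  refine Polynomial.natDegree_sum_le_of_forall_le _ _ fun m hm => ?_
  exact (Polynomial.natDegree_monomial_le _).trans (leR_deg hd hm 1)

lemma cfR_deg {Q : MvPolynomial (Fin 2) R} {d : ℕ} (hd : Q.totalDegree ≤ d) (j : ℕ) : (cfR Q j).natDegree ≤ d := by
  rw [cfR]
  refine Polynomial.natDegree_sum_le_of_forall_le _ _ fun m hm => ?_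
  exact (Polynomial.natDegree_monomial_le _).trans (leR_deg hd (mem_filter.1 hm).1 0)

lemma cfR_coeff {Q : MvPolynomial (Fin 2) R} {m : Fin 2 →₀ ℕ} (hm : m ∈ Q.support) :
    (cfR Q (m 1)).coeff (m 0) = Q.coeff m := by
  rw [cfR, Polynomial.finsetSum_coeff]
  rw [sum_eq_single m]
  · rw [Polynomial.coeff_monomial, if_pos rfl]
  · intro m' hm' hne
    rw [Polynomial.coeff_monomial, if_neg]
    intro h
    exact hne (fin2_ext h (mem_filter.1 hm').2)
  · intro h
    exact (h (mem_filter.2 ⟨hm, rfl⟩)).elim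

/-- the number of the elements of `B` at which a nonconstant polynomial takes a value in a set -/
lemma few_values (P : Polynomial R) {d : ℕ} (hd : P.natDegree ≤ d) (hP : 0 < P.natDegree) (B V : Finset R) :
    ({b : R | b ∈ B ∧ P.eval b ∈ V}.ncard) ≤ d * V.card := by
  classical
  have e : {b : R | b ∈ B ∧ P.eval b ∈ V} = ((B.filter fun b => P.eval b ∈ V : Finset R) : Set R) := by
    ext b
    simp
  rw [e, Set.ncard_coe_finset]
  have h2 : (B.filter fun b => P.eval b ∈ V).card ≤ d * ((B.filter fun b => P.eval b ∈ V).image (fun b => P.eval b)).card := by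
    apply card_le_mul_card_image
    intro v _
    have hne : P - Polynomial.C v ≠ 0 := by
      intro h
      have h3 : P = Polynomial.C v := sub_eq_zero.1 h
      rw [h3, Polynomial.natDegree_C] at hP
      exact lt_irrefl _ hP
    have h4 : ((B.filter fun b => P.eval b ∈ V).filter fun b => P.eval b = v) ⊆
        (P - Polynomial.C v).roots.toFinset := by
      intro b hb
      rw [Multiset.mem_toFinset, Polynomial.mem_roots hne, Polynomial.IsRoot, Polynomial.eval_sub, Polynomial.eval_C,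
        (mem_filter.1 hb).2, sub_self]
    refine (card_le_card h4).trans ((Multiset.toFinset_card_le _).trans ((Polynomial.card_roots' _).trans ?_))
    refine (Polynomial.natDegree_sub_le _ _).trans ?_
    rw [Polynomial.natDegree_C, max_eq_left (Nat.zero_le _)]
    exact hd
  refine h2.trans (Nat.mul_le_mul_left _ (card_le_card ?_))
  intro v hv
  rw [mem_image] at hv
  obtain ⟨b, hb, rfl⟩ := hv
  exact (mem_filter.1 hb).2

end

/-- the general criterion: `F` comes from a polynomial with a mixed monomial -/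
theorem rare_of {R : Type} [CommRing R] [IsDomain R] {d : ℕ} {Q : MvPolynomial (Fin 2) R} (hd : Q.totalDegree ≤ d)
    (hQ : ∃ m ∈ Q.support, m 0 ≠ 0 ∧ m 1 ≠ 0) (g : R → R) (A B : Finset R) (F : R → R → ℝ)
    (hF : ∀ a a' b : R, ∀ W : ℝ, 0 ≤ W → |F a b - F a' b| ≤ W → ∃ v : ℤ, |(v : ℝ)| ≤ W ∧
      MvPolynomial.eval ![a, b] Q + g a - (MvPolynomial.eval ![a', b] Q + g a') = v) :
    Rare d A B F := by
  classical
  obtain ⟨m, hm, hm0, hm1⟩ := hQ
  intro a ha
  have hne : cfR Q (m 1) - Polynomial.C ((cfR Q (m 1)).eval a) ≠ 0 := by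
    intro hc
    have h3 := congrArg (fun P => Polynomial.coeff P (m 0)) hc
    simp only [Polynomial.coeff_sub, Polynomial.coeff_zero, Polynomial.coeff_C, if_neg hm0, sub_zero] at h3
    rw [cfR_coeff hm] at h3
    exact (MvPolynomial.mem_support_iff.1 hm) h3
  have hsub : {a' : R | a' ∈ A ∧ ¬ ∀ W : ℝ, 0 ≤ W →
      ({b : R | b ∈ B ∧ |F a b - F a' b| ≤ W}.ncard : ℝ) ≤ d * (2 * W + 1)} ⊆
      ((cfR Q (m 1) - Polynomial.C ((cfR Q (m 1)).eval a)).roots.toFinset : Set R) := by
    rintro a' ⟨_, h1⟩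
    rw [mem_coe, Multiset.mem_toFinset, Polynomial.mem_roots hne, Polynomial.IsRoot, Polynomial.eval_sub,
      Polynomial.eval_C, sub_eq_zero]
    by_contra h2
    apply h1
    intro W hW
    have h3 : 0 < (slR Q a - slR Q a').natDegree := by
      rw [Nat.pos_iff_ne_zero]
      intro h0
      have h4 : (slR Q a - slR Q a').coeff (m 1) = 0 :=
        Polynomial.coeff_eq_zero_of_natDegree_lt (by rw [h0]; exact Nat.pos_of_ne_zero hm1)
      rw [Polynomial.coeff_sub, slR_coeff, slR_coeff, sub_eq_zero] at h4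
      exact h2 h4.symm
    have h4 : (slR Q a - slR Q a').natDegree ≤ d :=
      (Polynomial.natDegree_sub_le _ _).trans (max_le (slR_deg hd a) (slR_deg hd a'))
    -- the possible values
    set V : Finset R := (Icc (-⌊W⌋) ⌊W⌋).image (fun v : ℤ => (v : R) - (g a - g a')) with hV
    have hVc : (V.card : ℝ) ≤ 2 * W + 1 := by
      have h5 : V.card ≤ (Icc (-⌊W⌋) ⌊W⌋).card := card_image_le
      have h6 : ((Icc (-⌊W⌋) ⌊W⌋).card : ℝ) ≤ 2 * W + 1 := by
        have h7 : (0 : ℤ) ≤ ⌊W⌋ := Int.floor_nonneg.2 hW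
        have h8 : ((Icc (-⌊W⌋) ⌊W⌋).card : ℤ) = 2 * ⌊W⌋ + 1 := by
          rw [Int.card_Icc, Int.toNat_of_nonneg (by omega)]
          ring
        have h9 : ((Icc (-⌊W⌋) ⌊W⌋).card : ℝ) = 2 * (⌊W⌋ : ℝ) + 1 := by exact_mod_cast congrArg (fun z : ℤ => (z : ℝ)) h8
        rw [h9]
        linarith [Int.floor_le W]
      exact (Nat.cast_le.2 h5).trans h6
    have h5 := few_values (slR Q a - slR Q a') h4 h3 B V
    have h6 : {b : R | b ∈ B ∧ |F a b - F a' b| ≤ W} ⊆ {b : R | b ∈ B ∧ (slR Q a - slR Q a').eval b ∈ V} := by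
      rintro b ⟨hb, hbW⟩
      obtain ⟨v, hv, hv2⟩ := hF a a' b W hW hbW
      refine ⟨hb, ?_⟩
      rw [hV, mem_image]
      rw [abs_le] at hv
      refine ⟨v, mem_Icc.2 ⟨?_, Int.le_floor.2 hv.2⟩, ?_⟩
      · have : ⌊W⌋ ≥ -v := by
          apply Int.le_floor.2
          push_cast
          linarith [hv.1]
        omega
      · rw [Polynomial.eval_sub, slR_eval, slR_eval, ← hv2]
        ring
    have hfin : {b : R | b ∈ B ∧ (slR Q a - slR Q a').eval b ∈ V}.Finite := B.finite_toSet.subset fun b hb => hb.1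
    calc ({b : R | b ∈ B ∧ |F a b - F a' b| ≤ W}.ncard : ℝ) ≤ ((d * V.card : ℕ) : ℝ) :=
          Nat.cast_le.2 ((Set.ncard_le_ncard h6 hfin).trans h5)
      _ = d * (V.card : ℝ) := by push_cast; ring
      _ ≤ _ := mul_le_mul_of_nonneg_left hVc (Nat.cast_nonneg _)
  refine (Set.ncard_le_ncard hsub (finite_toSet _)).trans ?_
  rw [Set.ncard_coe_finset]
  refine (Multiset.toFinset_card_le _).trans ((Polynomial.card_roots' _).trans ?_)
  refine (Polynomial.natDegree_sub_le _ _).trans ?_
  rw [Polynomial.natDegree_C, max_eq_left (Nat.zero_le _)]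
  exact cfR_deg hd _

/-- **Residues.** Coincidences are rare for the least residues modulo a prime `p` of `f(a, b) + g(a) + h(b)`, where `f` is a
polynomial over the field of `p` elements with a mixed monomial and `g`, `h` are arbitrary functions. -/
theorem residues (p : ℕ) [Fact p.Prime] (d : ℕ) (f : MvPolynomial (Fin 2) (ZMod p)) (hd : f.totalDegree ≤ d)
    (hf : ∃ m ∈ f.support, m 0 ≠ 0 ∧ m 1 ≠ 0) (g h : ZMod p → ZMod p) (A B : Finset (ZMod p)) :
    Rare d A B (fun a b => (((MvPolynomial.eval ![a, b] f + g a + h b).val : ℕ) : ℝ)) := by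
  refine rare_of hd hf g A B _ fun a a' b W _ hb => ?_
  refine ⟨(((MvPolynomial.eval ![a, b] f + g a + h b).val : ℕ) : ℤ) -
    (((MvPolynomial.eval ![a', b] f + g a' + h b).val : ℕ) : ℤ), ?_, ?_⟩
  · push_cast
    exact hb
  · push_cast
    rw [ZMod.natCast_zmod_val, ZMod.natCast_zmod_val]
    ring

end Pool.Agent.U449.BV
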