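import Pool.Agent.U449.BV.V

/-!
# Integral vector functions of two variables: the number of the pairs with value in a given finite set
-/

set_option autoImplicit false

open Finset

namespace Pool.Agent.U449.BV

/-- A function with values in `ℤ ^ k` with few coincidences, on finite sets of at least `η V` elements, has values in a set of
at most `γ V` elements for at most `η |A| |B|` of the pairs, if `2 d γ ≤ η ^ 3`. -/
theorem exact_v {k : ℕ} {α β : Type} {d : ℕ} {η γ V : ℝ} (hη : 0 < η) (hV : 0 < V) (hγ : 2 * d * γ ≤ η ^ 3)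
    (E : Finset (Fin k → ℤ)) (hE : (E.card : ℝ) ≤ γ * V) {A : Finset α} {B : Finset β} {F : α → β → Fin k → ℤ}
    (hA : η * V ≤ A.card) (hB : η * V ≤ B.card) (hR : RareV d A B (fun a b i => (F a b i : ℝ))) :
    ({z : α × β | z.1 ∈ A ∧ z.2 ∈ B ∧ F z.1 z.2 ∈ E}.ncard : ℝ) ≤ η * (A.card * B.card) := by
  classical
  have h1 := core_v A B (fun a b i => (F a b i : ℝ)) E 0 le_rfl
    (d * (A.card * B.card) + A.card ^ 2 * (d * (2 * 0 + 1) ^ k)) (by
      have := triples_v (W := 0) le_rfl hR
      simpa using this)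
  have hset : {z : α × β | z.1 ∈ A ∧ z.2 ∈ B ∧ F z.1 z.2 ∈ E} =
      (((A ×ˢ B).filter (fun z => ∃ m ∈ E, ∀ i, |(m i : ℝ) - (F z.1 z.2 i : ℝ)| ≤ 0) : Finset (α × β)) : Set (α × β)) := by
    ext z
    simp only [Set.mem_ofPred_eq, coe_filter, mem_product]
    constructor
    · rintro ⟨g1, g2, g3⟩
      exact ⟨⟨g1, g2⟩, _, g3, fun i => by simp⟩
    · rintro ⟨⟨g1, g2⟩, m, g3, g4⟩
      refine ⟨g1, g2, ?_⟩
      have : m = F z.1 z.2 := by
        funext i
        have h5 := g4 i
        rw [abs_nonpos_iff, sub_eq_zero] at h5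
        exact_mod_cast h5
      rwa [← this]
  rw [hset, Set.ncard_coe_finset]
  have hA0 : (0 : ℝ) < A.card := lt_of_lt_of_le (by positivity) hA
  have hB0 : (0 : ℝ) < B.card := lt_of_lt_of_le (by positivity) hB
  have hd0 : (0 : ℝ) ≤ d := Nat.cast_nonneg d
  have hγ0 : 0 ≤ γ := by
    have : 0 ≤ γ * V := (Nat.cast_nonneg _).trans hE
    exact nonneg_of_mul_nonneg_left this hV
  have h2 : (E.card : ℝ) * B.card * ((2 * 0 + 1) ^ k *
      (d * (A.card * B.card) + A.card ^ 2 * (d * (2 * 0 + 1) ^ k))) ≤ (η * (A.card * B.card)) ^ 2 := by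
    have e1 : (E.card : ℝ) * B.card * ((2 * 0 + 1) ^ k *
        (d * (A.card * B.card) + A.card ^ 2 * (d * (2 * 0 + 1) ^ k))) =
        E.card * (d * (A.card * B.card * (A.card + B.card))) := by
      rw [mul_zero, zero_add, one_pow]
      ring
    rw [e1]
    have g1 : η * V * (A.card * (B.card : ℝ) * B.card) ≤ A.card * (A.card * (B.card : ℝ) * B.card) :=
      mul_le_mul_of_nonneg_right hA (by positivity)
    have g2 : η * V * (A.card * (B.card : ℝ) * A.card) ≤ B.card * (A.card * (B.card : ℝ) * A.card) :=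
      mul_le_mul_of_nonneg_right hB (by positivity)
    have g3 : η * (V * (A.card * B.card * (A.card + B.card))) ≤ 2 * ((A.card : ℝ) * B.card) ^ 2 := by
      nlinarith [g1, g2]
    have g4 : (E.card : ℝ) * (d * (A.card * B.card * (A.card + B.card))) ≤
        (d * γ) * (V * (A.card * B.card * (A.card + B.card))) := by
      calc (E.card : ℝ) * (d * (A.card * B.card * (A.card + B.card)))
          ≤ (γ * V) * (d * (A.card * B.card * (A.card + B.card))) := mul_le_mul_of_nonneg_right hE (by positivity)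
        _ = _ := by ring
    refine g4.trans ?_
    have g5 : 0 ≤ V * ((A.card : ℝ) * B.card * (A.card + B.card)) := by positivity
    have g6 : (d * γ) ≤ η ^ 3 / 2 := by linarith
    refine (mul_le_mul_of_nonneg_right g6 g5).trans ?_
    have g7 : η ^ 3 / 2 * (V * ((A.card : ℝ) * B.card * (A.card + B.card))) =
        η ^ 2 / 2 * (η * (V * ((A.card : ℝ) * B.card * (A.card + B.card)))) := by ring
    rw [g7]
    refine (mul_le_mul_of_nonneg_left g3 (by positivity)).trans (le_of_eq ?_)
    ring
  exact (pow_le_pow_iff_left₀ (Nat.cast_nonneg _) (by positivity) (by norm_num)).1 (h1.trans h2)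

end Pool.Agent.U449.BV
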