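import Pool.Agent.U449.BV.E

set_option autoImplicit false

/-!
# More variants of the interface
-/

namespace Pool.Agent.U449.BV

open Finset

/-- a property of the positive integers with few exceptions -/
theorem on_products_good {Good : ℕ → Prop} {s κ : ℝ} (hs : 0 ≤ s) (hκ : 0 ≤ κ) {K : ℝ}
    (h : ∀ X : ℕ, 1 ≤ X → ({n : ℕ | 1 ≤ n ∧ n ≤ X ∧ ¬ Good n}.ncard : ℝ) ≤ K * (X : ℝ) ^ s) :
    OnProducts (s + κ) κ (fun W x => ∀ n : ℕ, 1 ≤ n → |(n : ℝ) - x| ≤ W → Good n) := by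
  refine (on_products_set {n : ℕ | 1 ≤ n ∧ ¬ Good n} (fun n => (n : ℝ)) hs hκ ?_).mono (fun W x _ h' n hn hw => ?_)
  · intro ε hε
    refine ⟨|K|, fun X hX => ?_⟩
    have hX0 : 0 < X := by linarith
    have hX1 : 1 ≤ ⌊X⌋₊ := Nat.le_floor (by exact_mod_cast hX)
    have hsub : {t : ℕ | t ∈ {n : ℕ | 1 ≤ n ∧ ¬ Good n} ∧ (t : ℝ) ≤ X} ⊆ {n : ℕ | 1 ≤ n ∧ n ≤ ⌊X⌋₊ ∧ ¬ Good n} := by
      rintro t ⟨⟨h1, h2⟩, h3⟩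
      exact ⟨h1, Nat.le_floor h3, h2⟩
    have hfin : {n : ℕ | 1 ≤ n ∧ n ≤ ⌊X⌋₊ ∧ ¬ Good n}.Finite :=
      (Set.finite_Icc 1 ⌊X⌋₊).subset fun n hn => ⟨hn.1, hn.2.1⟩
    refine ⟨hfin.subset hsub, ?_⟩
    have h1 : ({t : ℕ | t ∈ {n : ℕ | 1 ≤ n ∧ ¬ Good n} ∧ (t : ℝ) ≤ X}.ncard : ℝ) ≤
        ({n : ℕ | 1 ≤ n ∧ n ≤ ⌊X⌋₊ ∧ ¬ Good n}.ncard : ℝ) := by
      exact_mod_cast Set.ncard_le_ncard hsub hfin
    have h2 : ((⌊X⌋₊ : ℕ) : ℝ) ^ s ≤ X ^ (s + ε) :=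
      (Real.rpow_le_rpow (Nat.cast_nonneg _) (Nat.floor_le hX0.le) hs).trans
        (Real.rpow_le_rpow_of_exponent_le hX (by linarith))
    refine h1.trans ((h ⌊X⌋₊ hX1).trans ?_)
    exact (mul_le_mul_of_nonneg_right (le_abs_self K) (by positivity)).trans
      (mul_le_mul_of_nonneg_left h2 (abs_nonneg K))
  · by_contra hc
    exact h' n hw ⟨hn, hc⟩

end Pool.Agent.U449.BV
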