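import Pool.Agent.U449.BV.F

set_option autoImplicit false

/-!
# More variants of the interface: integers
-/

namespace Pool.Agent.U449.BV

open Finset

/-- a property of the nonzero integers with few exceptions -/
theorem on_products_int {Good : ℤ → Prop} {s κ : ℝ} (hs : 0 ≤ s) (hκ : 0 ≤ κ)
    (h : ∀ ε : ℝ, 0 < ε → ∃ K : ℝ, ∀ X : ℕ, 1 ≤ X →
      ({b : ℤ | b ≠ 0 ∧ |b| ≤ (X : ℤ) ∧ ¬ Good b}.ncard : ℝ) ≤ K * (X : ℝ) ^ (s + ε)) :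
    OnProducts (s + κ) κ (fun W x => ∀ b : ℤ, b ≠ 0 → |(|b| : ℝ) - x| ≤ W → Good b) := by
  refine (on_products_set {b : ℤ | b ≠ 0 ∧ ¬ Good b} (fun b => (|b| : ℝ)) hs hκ ?_).mono (fun W x _ h' n hn hw => ?_)
  · intro ε hε
    obtain ⟨K, hK⟩ := h ε hε
    refine ⟨|K|, fun X hX => ?_⟩
    have hX0 : 0 < X := by linarith
    have hX1 : 1 ≤ ⌊X⌋₊ := Nat.le_floor (by exact_mod_cast hX)
    have hsub : {t : ℤ | t ∈ {b : ℤ | b ≠ 0 ∧ ¬ Good b} ∧ (|t| : ℝ) ≤ X} ⊆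
        {b : ℤ | b ≠ 0 ∧ |b| ≤ ((⌊X⌋₊ : ℕ) : ℤ) ∧ ¬ Good b} := by
      rintro t ⟨⟨h1, h2⟩, h3⟩
      refine ⟨h1, ?_, h2⟩
      have h4 : ((t.natAbs : ℕ) : ℝ) ≤ X := by
        rw [Nat.cast_natAbs, Int.cast_abs]
        exact h3
      have h5 : t.natAbs ≤ ⌊X⌋₊ := Nat.le_floor h4
      rw [Int.abs_eq_natAbs]
      exact_mod_cast h5
    have hfin : {b : ℤ | b ≠ 0 ∧ |b| ≤ ((⌊X⌋₊ : ℕ) : ℤ) ∧ ¬ Good b}.Finite :=
      (Set.finite_Icc (-((⌊X⌋₊ : ℕ) : ℤ)) ((⌊X⌋₊ : ℕ) : ℤ)).subset fun n hn => abs_le.1 hn.2.1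
    refine ⟨hfin.subset hsub, ?_⟩
    have h1 : ({t : ℤ | t ∈ {b : ℤ | b ≠ 0 ∧ ¬ Good b} ∧ (|t| : ℝ) ≤ X}.ncard : ℝ) ≤
        ({b : ℤ | b ≠ 0 ∧ |b| ≤ ((⌊X⌋₊ : ℕ) : ℤ) ∧ ¬ Good b}.ncard : ℝ) := by
      exact_mod_cast Set.ncard_le_ncard hsub hfin
    have h2 : ((⌊X⌋₊ : ℕ) : ℝ) ^ (s + ε) ≤ X ^ (s + ε) :=
      Real.rpow_le_rpow (Nat.cast_nonneg _) (Nat.floor_le hX0.le) (by linarith)
    refine h1.trans ((hK ⌊X⌋₊ hX1).trans ?_)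
    exact (mul_le_mul_of_nonneg_right (le_abs_self K) (by positivity)).trans
      (mul_le_mul_of_nonneg_left h2 (abs_nonneg K))
  · by_contra hc
    exact h' n hw ⟨hn, hc⟩

/-- real numbers `t` near the values: the property depends on the integer part of `t` -/
theorem on_products_floor {Bad : ℕ → Prop} {s κ : ℝ} (hs : 0 ≤ s) (hκ : 0 ≤ κ)
    (h : ∀ s' : ℝ, s < s' → ∃ K : ℝ, ∀ X : ℕ, 1 ≤ X → ({n : ℕ | 1 ≤ n ∧ n ≤ X ∧ Bad n}.ncard : ℝ) ≤ K * (X : ℝ) ^ s') :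
    OnProducts (s + κ) κ (fun W x => ∀ t : ℝ, 1 ≤ t → |t - x| ≤ W → ¬ Bad ⌊t⌋₊) := by
  intro δ hδ hδ1 d
  obtain ⟨ε, hε⟩ : ∃ ε, ε = (δ - s - κ) / 3 := ⟨_, rfl⟩
  have hε0 : 0 < ε := by rw [hε]; linarith
  obtain ⟨K, hK⟩ := h (s + ε) (by linarith)
  have h2 := on_products_good (Good := fun n => ¬ Bad n) (s := s + ε) (κ := κ + ε) (K := K) (by linarith) (by linarith)
    (fun X hX => by simpa only [not_not] using hK X hX)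
  obtain ⟨ρ, hρ, X₀, hX₀⟩ := h2 δ (by rw [hε]; linarith) hδ1 d
  obtain ⟨X₁, hX₁⟩ := Filter.eventually_atTop.mp ((tendsto_rpow_atTop hε0).eventually_ge_atTop (2 : ℝ))
  refine ⟨ρ, hρ, max (max X₀ X₁) 1, fun X hX α β A B F hA hB hF hR => ?_⟩
  have hX1 : 1 ≤ X := (le_max_right _ _).trans hX
  have hX0 : 0 < X := by linarith
  have hX2 := hX₁ X (((le_max_right _ _).trans (le_max_left _ _)).trans hX)
  refine le_trans ?_ (hX₀ X (((le_max_left _ _).trans (le_max_left _ _)).trans hX) α β A B F hA hB hF hR)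
  have hfin : {z : α × β | z.1 ∈ A ∧ z.2 ∈ B ∧ ¬ ∀ n : ℕ, 1 ≤ n → |(n : ℝ) - F z.1 z.2| ≤ X ^ (κ + ε) → ¬ Bad n}.Finite := by
    apply (A ×ˢ B).finite_toSet.subset
    rintro z ⟨h1, h2, -⟩
    rw [mem_coe, mem_product]
    exact ⟨h1, h2⟩
  apply Nat.cast_le.2
  apply Set.ncard_le_ncard _ hfin
  rintro z ⟨h1, h2, h3⟩
  refine ⟨h1, h2, fun hc => h3 fun t ht hw => hc ⌊t⌋₊ (Nat.le_floor (by exact_mod_cast ht)) ?_⟩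
  have g1 := Nat.floor_le (show 0 ≤ t by linarith)
  have g2 := Nat.lt_floor_add_one t
  have g3 : 1 ≤ X ^ κ := Real.one_le_rpow hX1 hκ
  have g4 : X ^ (κ + ε) = X ^ κ * X ^ ε := Real.rpow_add hX0 _ _
  have g5 : 2 * X ^ κ ≤ X ^ (κ + ε) := by
    rw [g4]
    nlinarith
  rw [abs_le] at hw ⊢
  constructor <;> linarith [hw.1, hw.2]

end Pool.Agent.U449.BV
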