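import Pool.Agent.R869.WDens

/-!
The number of the lattice points at which a function that is affine in each variable is small: a power saving.
-/

set_option autoImplicit false

namespace Pool.Agent.U449.BV

open Finset
open Pool.Agent.R869.Wd (SepAff count_one)

theorem pcount_fin : ∀ (m : ℕ) (f : (Fin m → ℝ) → ℝ), SepAff f → (∃ x, f x ≠ 0) →
    ∃ C : ℝ, 0 ≤ C ∧ ∀ d : ℕ, 1 ≤ d → ∀ η : ℝ, 0 < η → η ≤ 1 → 1 ≤ η * d →
      ((univ.filter fun x : Fin m → Fin (d + 1) =>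
        |f (fun j => ((x j : ℕ) : ℝ) / d)| ≤ η).card : ℝ) ≤ C * η ^ ((1 / 2 : ℝ) ^ m) * (d + 1) ^ m
  | 0, f, _, ⟨x, hx⟩ => by
    have hx0 := abs_pos.2 hx
    refine ⟨1 / |f x|, by positivity, fun d _ η hη _ _ => ?_⟩
    rw [pow_zero, pow_zero, Real.rpow_one, mul_one]
    by_cases h : |f x| ≤ η
    · have h1 : ((univ.filter fun y : Fin 0 → Fin (d + 1) =>
          |f (fun j => ((y j : ℕ) : ℝ) / d)| ≤ η).card : ℝ) ≤ 1 := by
        have := card_filter_le (univ : Finset (Fin 0 → Fin (d + 1)))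
          (fun y => |f (fun j => ((y j : ℕ) : ℝ) / d)| ≤ η)
        rw [card_univ, Fintype.card_fun, Fintype.card_fin, Fintype.card_fin, pow_zero] at this
        exact_mod_cast this
      refine h1.trans ?_
      rw [div_mul_eq_mul_div, one_mul, le_div_iff₀ hx0]
      linarith
    · rw [filter_false_of_mem]
      · simp only [card_empty, Nat.cast_zero]
        positivity
      · intro y _
        rw [Subsingleton.elim (fun j => ((y j : ℕ) : ℝ) / d) x]
        exact h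
  | m + 1, f, hf, ⟨x, hx⟩ => by
    obtain ⟨A, hA⟩ : ∃ A : (Fin m → ℝ) → ℝ, A = fun y => f (Fin.cons 0 y) := ⟨_, rfl⟩
    obtain ⟨B, hB⟩ : ∃ B : (Fin m → ℝ) → ℝ, B = fun y => f (Fin.cons 1 y) - f (Fin.cons 0 y) :=
      ⟨_, rfl⟩
    have hcons : ∀ (c : ℝ) (y : Fin m → ℝ) (j : Fin m) (t : ℝ),
        (Fin.cons c (Function.update y j t) : Fin (m + 1) → ℝ) =
          Function.update (Fin.cons c y : Fin (m + 1) → ℝ) j.succ t := fun c y j t =>
      Fin.cons_update (α := fun _ => ℝ) c y j t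
    have hAa : SepAff A := by
      intro y j
      obtain ⟨a, b, h⟩ := hf (Fin.cons 0 y) j.succ
      exact ⟨a, b, fun t => by rw [hA]; simp only; rw [hcons, h]⟩
    have hBa : SepAff B := by
      intro y j
      obtain ⟨a, b, h⟩ := hf (Fin.cons 0 y) j.succ
      obtain ⟨a', b', h'⟩ := hf (Fin.cons 1 y) j.succ
      exact ⟨a' - a, b' - b, fun t => by
        rw [hB]
        simp only
        rw [hcons, hcons, h, h']
        ring⟩
    have hAB : ∀ t y, f (Fin.cons t y) = A y + t * B y := by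
      intro t y
      obtain ⟨a, b, h⟩ := hf (Fin.cons 0 y) 0
      have h' : ∀ t : ℝ, f (Fin.cons t y) = a + t * b := by
        intro t
        rw [← h t, Fin.update_cons_zero]
      rw [hA, hB]
      simp only
      rw [h' t, h' 0, h' 1]
      ring
    have hx' : f x = A (Fin.tail x) + x 0 * B (Fin.tail x) := by
      rw [← hAB, Fin.cons_self_tail]
    have hcast : ∀ (d : ℕ) (t : Fin (d + 1)) (y : Fin m → Fin (d + 1)),
        (fun j => ((((Fin.cons t y : Fin (m + 1) → Fin (d + 1)) j : Fin (d + 1)) : ℕ) : ℝ) / d) =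
          (Fin.cons (((t : ℕ) : ℝ) / d) (fun j => ((y j : ℕ) : ℝ) / d) : Fin (m + 1) → ℝ) := by
      intro d t y
      funext j
      refine Fin.cases ?_ (fun j => ?_) j
      · rw [Fin.cons_zero, Fin.cons_zero]
      · rw [Fin.cons_succ, Fin.cons_succ]
    by_cases hB0 : ∃ y, B y ≠ 0
    · obtain ⟨C, hC, h1⟩ := pcount_fin m B hBa hB0
      refine ⟨C + 3, by positivity, fun d hd η hη hη1 hηd => ?_⟩
      have hd' : (0 : ℝ) < d := by exact_mod_cast hd
      obtain ⟨ζ, hζe⟩ : ∃ ζ : ℝ, ζ = η ^ (1 / 2 : ℝ) := ⟨_, rfl⟩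
      have hζ : 0 < ζ := hζe ▸ Real.rpow_pos_of_pos hη _
      have hζ1 : ζ ≤ 1 := hζe ▸ Real.rpow_le_one hη.le hη1 (by norm_num)
      have hζ2 : ζ * ζ = η := by
        rw [hζe, ← Real.rpow_add hη]
        norm_num
      have hηζ : η ≤ ζ := by nlinarith
      have hζd : 1 ≤ ζ * d := hηd.trans (mul_le_mul_of_nonneg_right hηζ hd'.le)
      rw [Pool.Agent.R869.Wd.card_cons]
      have h2 : ∀ y : Fin m → Fin (d + 1), ((univ.filter fun t : Fin (d + 1) =>
          |f (fun j => ((((Fin.cons t y : Fin (m + 1) → Fin (d + 1)) j : Fin (d + 1)) : ℕ) : ℝ) /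
            d)| ≤ η).card : ℝ) ≤
          (if |B (fun j => ((y j : ℕ) : ℝ) / d)| ≤ ζ then ((d : ℝ) + 1) else 0) +
            3 * ζ * (d + 1) := by
        intro y
        by_cases hy : |B (fun j => ((y j : ℕ) : ℝ) / d)| ≤ ζ
        · rw [if_pos hy]
          have h3 : ((univ.filter fun t : Fin (d + 1) =>
            |f (fun j => ((((Fin.cons t y : Fin (m + 1) → Fin (d + 1)) j : Fin (d + 1)) : ℕ) : ℝ) /
              d)| ≤ η).card : ℝ) ≤ (d : ℝ) + 1 := by
            have h4 := card_filter_le (univ : Finset (Fin (d + 1))) (fun t : Fin (d + 1) =>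
              |f (fun j => ((((Fin.cons t y : Fin (m + 1) → Fin (d + 1)) j : Fin (d + 1)) : ℕ) :
                ℝ) / d)| ≤ η)
            rw [card_univ, Fintype.card_fin] at h4
            exact_mod_cast h4
          have h5 : 0 ≤ 3 * ζ * ((d : ℝ) + 1) := by positivity
          linarith
        · rw [if_neg hy, zero_add]
          push Not at hy
          have h3 := count_one d hd (a := A (fun j => ((y j : ℕ) : ℝ) / d)) (η := η) hζ
            hη.le hy
          simp only [hcast, hAB]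
          refine h3.trans ?_
          have e : 2 * η * d / ζ = 2 * ζ * d := by
            rw [← hζ2]
            field_simp
          rw [e]
          nlinarith
      refine (Finset.sum_le_sum fun y _ => h2 y).trans ?_
      rw [Finset.sum_add_distrib, Finset.sum_const, card_univ, Fintype.card_fun, Fintype.card_fin,
        Fintype.card_fin, nsmul_eq_mul]
      have h3 : ∑ y : Fin m → Fin (d + 1), (if |B (fun j => ((y j : ℕ) : ℝ) / d)| ≤ ζ then
          ((d : ℝ) + 1) else 0) = ((univ.filter fun y : Fin m → Fin (d + 1) =>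
            |B (fun j => ((y j : ℕ) : ℝ) / d)| ≤ ζ).card : ℝ) * (d + 1) := by
        rw [← Finset.sum_filter, Finset.sum_const, nsmul_eq_mul]
      rw [h3]
      have h4 := mul_le_mul_of_nonneg_right (h1 d hd ζ hζ hζ1 hζd) (by positivity : (0 : ℝ) ≤ d + 1)
      have h6 : ζ ^ ((1 / 2 : ℝ) ^ m) = η ^ ((1 / 2 : ℝ) ^ (m + 1)) := by
        rw [hζe, ← Real.rpow_mul hη.le]
        congr 1
        rw [pow_succ]
        ring
      have h7 : ζ ≤ η ^ ((1 / 2 : ℝ) ^ (m + 1)) := by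
        rw [hζe]
        refine Real.rpow_le_rpow_of_exponent_ge hη hη1 ?_
        rw [pow_succ]
        have : (1 / 2 : ℝ) ^ m ≤ 1 := pow_le_one₀ (by norm_num) (by norm_num)
        linarith
      rw [h6] at h4
      have hp : (0 : ℝ) ≤ η ^ ((1 / 2 : ℝ) ^ (m + 1)) := (Real.rpow_pos_of_pos hη _).le
      push_cast
      calc _ ≤ C * η ^ ((1 / 2 : ℝ) ^ (m + 1)) * (d + 1) ^ m * (d + 1) + (d + 1) ^ m * (3 * ζ * (d + 1)) :=
            add_le_add h4 le_rfl
        _ ≤ C * η ^ ((1 / 2 : ℝ) ^ (m + 1)) * (d + 1) ^ m * (d + 1) +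
            (d + 1) ^ m * (3 * η ^ ((1 / 2 : ℝ) ^ (m + 1)) * (d + 1)) := by gcongr
        _ = (C + 3) * η ^ ((1 / 2 : ℝ) ^ (m + 1)) * (d + 1) ^ (m + 1) := by ring
    · push Not at hB0
      have hA0 : ∃ y, A y ≠ 0 := ⟨Fin.tail x, fun h => hx (by rw [hx', h, hB0, mul_zero, add_zero])⟩
      obtain ⟨C, hC, h1⟩ := pcount_fin m A hAa hA0
      refine ⟨C, hC, fun d hd η hη hη1 hηd => ?_⟩
      rw [Pool.Agent.R869.Wd.card_cons]
      simp only [hcast, hAB, hB0, mul_zero, add_zero]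
      have h2 : ∀ y : Fin m → Fin (d + 1), ((univ.filter fun _t : Fin (d + 1) =>
          |A (fun j => ((y j : ℕ) : ℝ) / d)| ≤ η).card : ℝ) =
          (if |A (fun j => ((y j : ℕ) : ℝ) / d)| ≤ η then ((d : ℝ) + 1) else 0) := by
        intro y
        split_ifs with h
        · rw [filter_true_of_mem fun _ _ => h, card_univ, Fintype.card_fin]
          push_cast
          rfl
        · rw [filter_false_of_mem fun _ _ => h, card_empty, Nat.cast_zero]
      rw [Finset.sum_congr rfl fun y _ => h2 y, ← Finset.sum_filter, Finset.sum_const, nsmul_eq_mul]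
      have h4 := mul_le_mul_of_nonneg_right (h1 d hd η hη hη1 hηd) (by positivity : (0 : ℝ) ≤ d + 1)
      refine h4.trans ?_
      have h7 : η ^ ((1 / 2 : ℝ) ^ m) ≤ η ^ ((1 / 2 : ℝ) ^ (m + 1)) := by
        refine Real.rpow_le_rpow_of_exponent_ge hη hη1 ?_
        exact pow_le_pow_of_le_one (by norm_num) (by norm_num) (Nat.le_succ m)
      calc C * η ^ ((1 / 2 : ℝ) ^ m) * (d + 1) ^ m * (d + 1)
          ≤ C * η ^ ((1 / 2 : ℝ) ^ (m + 1)) * (d + 1) ^ m * (d + 1) := by gcongr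
        _ = C * η ^ ((1 / 2 : ℝ) ^ (m + 1)) * (d + 1) ^ (m + 1) := by ring

theorem pcount_type {κ : Type} [Fintype κ] [DecidableEq κ] (f : (κ → ℝ) → ℝ) (hf : SepAff f)
    (hf0 : ∃ x, f x ≠ 0) :
    ∃ C : ℝ, 0 ≤ C ∧ ∀ d : ℕ, 1 ≤ d → ∀ η : ℝ, 0 < η → η ≤ 1 → 1 ≤ η * d →
      ((univ.filter fun x : κ → Fin (d + 1) =>
        |f (fun j => ((x j : ℕ) : ℝ) / d)| ≤ η).card : ℝ) ≤
          C * η ^ ((1 / 2 : ℝ) ^ Fintype.card κ) * (d + 1) ^ Fintype.card κ := by
  classical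
  let e := Fintype.equivFin κ
  have hg : SepAff fun y : Fin (Fintype.card κ) → ℝ => f (fun j => y (e j)) := by
    intro y i
    obtain ⟨a, b, h⟩ := hf (fun j => y (e j)) (e.symm i)
    refine ⟨a, b, fun t => ?_⟩
    rw [← h t]
    refine congrArg f (funext fun j => ?_)
    by_cases hj : j = e.symm i
    · subst hj
      simp
    · rw [Function.update_of_ne hj, Function.update_of_ne]
      rintro rfl
      exact hj (e.symm_apply_apply j).symm
  obtain ⟨x, hx⟩ := hf0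
  obtain ⟨C, hC, h⟩ := pcount_fin _ _ hg ⟨fun i => x (e.symm i), by simpa using hx⟩
  refine ⟨C, hC, fun d hd η hη hη1 hηd => le_trans (le_of_eq ?_) (h d hd η hη hη1 hηd)⟩
  norm_cast
  refine card_bij (fun x _ => fun i => x (e.symm i)) (fun x hx => ?_) (fun x _ y _ hxy => ?_)
    (fun y hy => ⟨fun j => y (e j), ?_, ?_⟩)
  · rw [mem_filter] at hx ⊢
    refine ⟨mem_univ _, ?_⟩
    simpa using hx.2
  · funext j
    have := congrFun hxy (e j)
    simpa using this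
  · rw [mem_filter] at hy ⊢
    exact ⟨mem_univ _, hy.2⟩
  · funext i
    simp

/-- finitely many functions -/
theorem pcount_family {κ Θ : Type} [Fintype κ] [DecidableEq κ] [Fintype Θ]
    (f : Θ → (κ → ℝ) → ℝ) (hf : ∀ θ, SepAff (f θ)) :
    ∃ C : ℝ, 0 ≤ C ∧ ∀ d : ℕ, 1 ≤ d → ∀ η : ℝ, 0 < η → η ≤ 1 → 1 ≤ η * d →
      (Set.ncard {x : κ → Fin (d + 1) | ∃ θ, (∃ z, f θ z ≠ 0) ∧
        |f θ (fun j => ((x j : ℕ) : ℝ) / d)| ≤ η} : ℝ) ≤
          C * η ^ ((1 / 2 : ℝ) ^ Fintype.card κ) * (d + 1) ^ Fintype.card κ := by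
  classical
  have h1 : ∀ θ, ∃ C : ℝ, 0 ≤ C ∧ ((∃ z, f θ z ≠ 0) → ∀ d : ℕ, 1 ≤ d → ∀ η : ℝ, 0 < η → η ≤ 1 → 1 ≤ η * d →
      ((univ.filter fun x : κ → Fin (d + 1) =>
        |f θ (fun j => ((x j : ℕ) : ℝ) / d)| ≤ η).card : ℝ) ≤
          C * η ^ ((1 / 2 : ℝ) ^ Fintype.card κ) * (d + 1) ^ Fintype.card κ) := by
    intro θ
    by_cases h : ∃ z, f θ z ≠ 0
    · obtain ⟨C, hC, h2⟩ := pcount_type (f θ) (hf θ) h
      exact ⟨C, hC, fun _ => h2⟩
    · exact ⟨0, le_rfl, fun h' => absurd h' h⟩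
  choose C hC h2 using h1
  refine ⟨∑ θ, C θ, sum_nonneg fun θ _ => hC θ, fun d hd η hη hη1 hηd => ?_⟩
  have h3 : {x : κ → Fin (d + 1) | ∃ θ, (∃ z, f θ z ≠ 0) ∧
        |f θ (fun j => ((x j : ℕ) : ℝ) / d)| ≤ η} ⊆
      ((univ.filter fun θ : Θ => ∃ z, f θ z ≠ 0).biUnion fun θ =>
        univ.filter fun x : κ → Fin (d + 1) =>
          |f θ (fun j => ((x j : ℕ) : ℝ) / d)| ≤ η : Finset (κ → Fin (d + 1))) := by
    rintro x ⟨θ, h4, h5⟩
    rw [mem_coe, mem_biUnion]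
    exact ⟨θ, mem_filter.2 ⟨mem_univ _, h4⟩, mem_filter.2 ⟨mem_univ _, h5⟩⟩
  have h4 := Set.ncard_le_ncard h3 (finite_toSet _)
  rw [Set.ncard_coe_finset] at h4
  have h5 : ((((univ.filter fun θ : Θ => ∃ z, f θ z ≠ 0).biUnion fun θ =>
        univ.filter fun x : κ → Fin (d + 1) =>
          |f θ (fun j => ((x j : ℕ) : ℝ) / d)| ≤ η).card : ℕ) : ℝ) ≤
      ∑ θ ∈ univ.filter fun θ : Θ => ∃ z, f θ z ≠ 0,
        ((univ.filter fun x : κ → Fin (d + 1) =>
          |f θ (fun j => ((x j : ℕ) : ℝ) / d)| ≤ η).card : ℝ) := by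
    exact_mod_cast card_biUnion_le
  have hp : (0 : ℝ) ≤ η ^ ((1 / 2 : ℝ) ^ Fintype.card κ) := (Real.rpow_pos_of_pos hη _).le
  have h6 : ∑ θ ∈ univ.filter fun θ : Θ => ∃ z, f θ z ≠ 0,
        ((univ.filter fun x : κ → Fin (d + 1) =>
          |f θ (fun j => ((x j : ℕ) : ℝ) / d)| ≤ η).card : ℝ) ≤
      ∑ θ ∈ univ.filter fun θ : Θ => ∃ z, f θ z ≠ 0,
        C θ * η ^ ((1 / 2 : ℝ) ^ Fintype.card κ) * (d + 1) ^ Fintype.card κ :=
    sum_le_sum fun θ hθ => h2 θ (mem_filter.1 hθ).2 d hd η hη hη1 hηd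
  have h7 : ∑ θ ∈ univ.filter fun θ : Θ => ∃ z, f θ z ≠ 0,
        C θ * η ^ ((1 / 2 : ℝ) ^ Fintype.card κ) * ((d : ℝ) + 1) ^ Fintype.card κ ≤
      (∑ θ, C θ) * η ^ ((1 / 2 : ℝ) ^ Fintype.card κ) * (d + 1) ^ Fintype.card κ := by
    rw [sum_mul, sum_mul]
    refine sum_le_sum_of_subset_of_nonneg (filter_subset _ _) fun θ _ _ => ?_
    exact mul_nonneg (mul_nonneg (hC θ) hp) (by positivity)
  have h8 : (Set.ncard {x : κ → Fin (d + 1) | ∃ θ, (∃ z, f θ z ≠ 0) ∧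
        |f θ (fun j => ((x j : ℕ) : ℝ) / d)| ≤ η} : ℝ) ≤
      ((((univ.filter fun θ : Θ => ∃ z, f θ z ≠ 0).biUnion fun θ =>
        univ.filter fun x : κ → Fin (d + 1) =>
          |f θ (fun j => ((x j : ℕ) : ℝ) / d)| ≤ η).card : ℕ) : ℝ) := by
    exact_mod_cast h4
  exact h8.trans (h5.trans (h6.trans h7))

end Pool.Agent.U449.BV
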