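import Pool.Agent.R869.SDens2
import Pool.Agent.U449.BV.PW

/-!
All but few sets of exponent vectors with given sets of variables are wide and in general position: a power saving.
-/

set_option autoImplicit false

namespace Pool.Agent.U449.BV

open Finset
open Pool.Agent.R869.Wd

variable {n s : ℕ}

theorem le_of_mem {I : Fin s → Finset (Fin (n + 1))} {d : ℕ} {a : Fin s → (Fin (n + 1) →₀ ℕ)}
    (ha : a ∈ TuplesIn I d) (i : Fin s) (j : Fin (n + 1)) : a i j ≤ d := by
  rw [← (ha i).2]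
  exact single_le_sum (f := fun j => a i j) (fun _ _ => Nat.zero_le _) (mem_univ _)

theorem eq_of_free {I : Fin s → Finset (Fin (n + 1))} {piv : Fin s → Fin (n + 1)} {d : ℕ}
    {a b : Fin s → (Fin (n + 1) →₀ ℕ)} (ha : a ∈ TuplesIn I d) (hb : b ∈ TuplesIn I d)
    (h5 : ∀ c : Free I piv, a c.1.1 c.1.2 = b c.1.1 c.1.2) : a = b := by
  funext i
  have h8 : ∀ j, j ≠ piv i → a i j = b i j := by
    intro j hj
    by_cases h : j ∈ I i
    · exact h5 ⟨(i, j), h, hj⟩
    · rw [Finsupp.notMem_support_iff.1 fun h' => h ((ha i).1 h'),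
        Finsupp.notMem_support_iff.1 fun h' => h ((hb i).1 h')]
  ext j
  by_cases hj : j = piv i
  · subst hj
    have h6 : a i (piv i) + ∑ j ∈ univ.erase (piv i), a i j = d := by
      rw [add_sum_erase univ (fun j => a i j) (mem_univ (piv i))]
      exact (ha i).2
    have h7 : b i (piv i) + ∑ j ∈ univ.erase (piv i), b i j = d := by
      rw [add_sum_erase univ (fun j => b i j) (mem_univ (piv i))]
      exact (hb i).2
    have h9 : ∑ j ∈ univ.erase (piv i), a i j = ∑ j ∈ univ.erase (piv i), b i j :=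
      sum_congr rfl fun j hj => h8 j (ne_of_mem_erase hj)
    omega
  · exact h8 j hj

theorem injOn_free {I : Fin s → Finset (Fin (n + 1))} {piv : Fin s → Fin (n + 1)} (d : ℕ) :
    Set.InjOn (fun (a : Fin s → (Fin (n + 1) →₀ ℕ)) (c : Free I piv) => Fin.ofNat (d + 1) (a c.1.1 c.1.2))
      (TuplesIn I d) := by
  intro a ha b hb hab
  refine eq_of_free (piv := piv) ha hb fun c => ?_
  have h6 := congrArg Fin.val (congrFun hab c)
  simp only [Fin.val_ofNat] at h6
  rwa [Nat.mod_eq_of_lt (Nat.lt_succ_of_le (le_of_mem ha _ _)),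
    Nat.mod_eq_of_lt (Nat.lt_succ_of_le (le_of_mem hb _ _))] at h6

/-- **All but few sets of exponent vectors are wide and in general position.** -/
theorem few_genericI (I : Fin s → Finset (Fin (n + 1))) (hI : ∀ i, (I i).Nonempty) (N : ℕ) :
    ∃ C : ℝ, 0 ≤ C ∧ ∀ d : ℕ, 1 ≤ d → ({a | a ∈ TuplesIn I d ∧ ¬ (WideT ∅ (fun _ : Unit => withPowers d a) N ∧ 0 < d ∧
      (∀ i, ∀ j ∈ I i, a i j ≠ 0) ∧ ∀ p q : Fin n → Fin s ⊕ Fin (n + 1),
        (∃ z, Adm I z ∧ (dz p q z).det ≠ 0) → (dz p q (sclI d a)).det ≠ 0)}.ncard : ℝ) ≤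
      C * (d : ℝ) ^ ((fdim I : ℝ) - (1 / 2) ^ fdim I) := by
  classical
  choose piv hpiv using hI
  let f : ((Fin n → Fin s ⊕ Fin (n + 1)) × (Fin n → Fin s ⊕ Fin (n + 1))) ⊕ (Fin s × Fin (n + 1)) →
      (Free I piv → ℝ) → ℝ :=
    Sum.elim (fun pq x => (dz pq.1 pq.2 (prm I piv x)).det) fun ij x => prm I piv x ij.1 ij.2
  obtain ⟨C, hC, h1⟩ := pcount_family f (by
    rintro (⟨p, q⟩ | ⟨i, j⟩)
    · exact sepAff_dz p q
    · exact sepAff_prm i j)
  rw [card_free I piv hpiv] at h1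
  obtain ⟨M, hM⟩ : ∃ M : ℝ, M = n.factorial * (N : ℝ) + 1 := ⟨_, rfl⟩
  have hM0 : (0 : ℝ) ≤ n.factorial * (N : ℝ) := by positivity
  have hM1 : 1 ≤ M := by linarith
  have hMp : 0 < M := by linarith
  obtain ⟨F, hF⟩ : ∃ F : ℕ, F = fdim I := ⟨_, rfl⟩
  obtain ⟨σ, hσ⟩ : ∃ σ : ℝ, σ = (1 / 2 : ℝ) ^ F := ⟨_, rfl⟩
  have hσ0 : 0 < σ := hσ ▸ by positivity
  have hσ1 : σ ≤ 1 := hσ ▸ pow_le_one₀ (by norm_num) (by norm_num)
  rw [← hF, ← hσ] at h1
  rw [← hF, ← hσ]
  refine ⟨C * M * 2 ^ F + (M + 1) ^ F * M, by positivity, fun d hd => ?_⟩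
  have hd' : (0 : ℝ) < d := by exact_mod_cast hd
  have hd1 : (1 : ℝ) ≤ d := by exact_mod_cast hd
  set Bad := {a | a ∈ TuplesIn I d ∧ ¬ (WideT ∅ (fun _ : Unit => withPowers d a) N ∧ 0 < d ∧
      (∀ i, ∀ j ∈ I i, a i j ≠ 0) ∧ ∀ p q : Fin n → Fin s ⊕ Fin (n + 1),
        (∃ z, Adm I z ∧ (dz p q z).det ≠ 0) → (dz p q (sclI d a)).det ≠ 0)} with hBad
  have hpos : 0 < (d : ℝ) ^ ((F : ℝ) - σ) := Real.rpow_pos_of_pos hd' _
  rcases le_or_gt M d with hMd | hMd
  · obtain ⟨η, hηe⟩ : ∃ η : ℝ, η = M / d := ⟨_, rfl⟩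
    have hη : 0 < η := hηe ▸ by positivity
    have hηd : η * d = M := by
      rw [hηe]
      field_simp
    have hη1 : η ≤ 1 := by
      rw [hηe, div_le_one hd']
      exact hMd
    have h2 := h1 d hd η hη hη1 (by rw [hηd]; exact hM1)
    have hd5 : n.factorial * (N : ℝ) ≤ η * d := by
      rw [hηd, hM]
      linarith
    have h4 := Set.ncard_le_ncard_of_injOn
      (s := Bad)
      (t := {x : Free I piv → Fin (d + 1) | ∃ θ, (∃ z, f θ z ≠ 0) ∧
        |f θ (fun j => ((x j : ℕ) : ℝ) / d)| ≤ η})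
      (fun a c => Fin.ofNat (d + 1) (a c.1.1 c.1.2)) (by
        rintro a ⟨ha, hbad⟩
        have hscl : (fun c : Free I piv => (((Fin.ofNat (d + 1) (a c.1.1 c.1.2) :
            Fin (d + 1)) : ℕ) : ℝ) / d) = fun c : Free I piv => sclI d a c.1.1 c.1.2 := by
          funext c
          unfold sclI
          rw [Fin.val_ofNat, Nat.mod_eq_of_lt (Nat.lt_succ_of_le (le_of_mem ha _ _))]
        have hprm := adm_prm (piv := piv) (adm_scl hd ha)
        change ∃ θ, (∃ z, f θ z ≠ 0) ∧ _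
        simp only [hscl]
        by_contra hcon
        push Not at hcon
        apply hbad
        have hpos : ∀ i, ∀ j ∈ I i, a i j ≠ 0 := by
          intro i j hj h0
          obtain ⟨z, hz, hz0⟩ := adm_ne fun i => ⟨piv i, hpiv i⟩
          have h5 := hcon (Sum.inr (i, j)) ⟨_, by
            change prm I piv _ i j ≠ 0
            rw [adm_prm (piv := piv) hz]
            exact hz0 i j hj⟩
          have h6 : f (Sum.inr (i, j)) (fun c : Free I piv => sclI d a c.1.1 c.1.2) = 0 := by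
            change prm I piv _ i j = 0
            rw [hprm]
            unfold sclI
            rw [h0]
            simp
          rw [h6, abs_zero] at h5
          exact absurd h5 (not_lt.2 hη.le)
        have hf : ∀ p q, f (Sum.inl (p, q)) (fun c : Free I piv => sclI d a c.1.1 c.1.2) =
            (dz p q (sclI d a)).det := by
          intro p q
          change (dz p q (prm I piv _)).det = _
          rw [hprm]
        refine ⟨wide_of_typicalI hd hd5 (fun i => (ha i).2) fun p q => ?_, hd, hpos,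
          fun p q hpq h0 => ?_⟩
        swap
        · obtain ⟨z, hz, hz0⟩ := hpq
          have h5 := hcon (Sum.inl (p, q)) ⟨_, by
            change (dz p q (prm I piv _)).det ≠ 0
            rw [adm_prm (piv := piv) hz]
            exact hz0⟩
          rw [hf, h0, abs_zero] at h5
          exact absurd h5 (not_lt.2 hη.le)
        · by_cases h0 : (dz p q (sclI d a)).det = 0
          · exact Or.inl h0
          · refine Or.inr ?_
            have h5 := hcon (Sum.inl (p, q)) ⟨_, by rw [hf]; exact h0⟩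
            rwa [hf] at h5)
      (fun a ha b hb hab => injOn_free d ha.1 hb.1 hab)
      (Set.toFinite _)
    have h5 : (Bad.ncard : ℝ) ≤ C * η ^ σ * ((d : ℝ) + 1) ^ F := le_trans (by exact_mod_cast h4) h2
    have h6 : η ^ σ ≤ M / (d : ℝ) ^ σ := by
      rw [hηe, Real.div_rpow hMp.le hd'.le]
      have : M ^ σ ≤ M ^ (1 : ℝ) := Real.rpow_le_rpow_of_exponent_le hM1 hσ1
      rw [Real.rpow_one] at this
      exact div_le_div_of_nonneg_right this (Real.rpow_pos_of_pos hd' _).le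
    have h7 : ((d : ℝ) + 1) ^ F ≤ 2 ^ F * (d : ℝ) ^ F := by
      rw [← mul_pow]
      exact pow_le_pow_left₀ (by positivity) (by linarith) F
    have h8 : (d : ℝ) ^ ((F : ℝ) - σ) = (d : ℝ) ^ F / (d : ℝ) ^ σ := by
      rw [Real.rpow_sub hd', Real.rpow_natCast]
    have hdσ : 0 < (d : ℝ) ^ σ := Real.rpow_pos_of_pos hd' _
    calc (Bad.ncard : ℝ) ≤ C * η ^ σ * ((d : ℝ) + 1) ^ F := h5
      _ ≤ C * (M / (d : ℝ) ^ σ) * (2 ^ F * (d : ℝ) ^ F) := by gcongr
      _ = C * M * 2 ^ F * (d : ℝ) ^ ((F : ℝ) - σ) := by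
        rw [h8]
        ring
      _ ≤ _ := by
        refine mul_le_mul_of_nonneg_right ?_ hpos.le
        have : 0 ≤ (M + 1) ^ F * M := by positivity
        linarith
  · have h4 := Set.ncard_le_ncard_of_injOn
      (s := Bad)
      (t := (Set.univ : Set (Free I piv → Fin (d + 1))))
      (fun a c => Fin.ofNat (d + 1) (a c.1.1 c.1.2)) (fun _ _ => Set.mem_univ _)
      (fun a ha b hb hab => injOn_free d ha.1 hb.1 hab)
      (Set.toFinite _)
    rw [Set.ncard_univ, Nat.card_eq_fintype_card, Fintype.card_fun, Fintype.card_fin, card_free I piv hpiv,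
      ← hF] at h4
    have h5 : (Bad.ncard : ℝ) ≤ ((d : ℝ) + 1) ^ F := by exact_mod_cast h4
    have h6 : ((d : ℝ) + 1) ^ F ≤ (M + 1) ^ F := pow_le_pow_left₀ (by positivity) (by linarith) F
    have h7 : 1 ≤ M * (d : ℝ) ^ ((F : ℝ) - σ) := by
      have h8 : (d : ℝ) ^ (-1 : ℝ) ≤ (d : ℝ) ^ ((F : ℝ) - σ) :=
        Real.rpow_le_rpow_of_exponent_le hd1 (by
          have : (0 : ℝ) ≤ F := Nat.cast_nonneg F
          linarith)
      rw [Real.rpow_neg_one] at h8
      have h9 : 1 ≤ M * (d : ℝ)⁻¹ := by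
        rw [← div_eq_mul_inv, le_div_iff₀ hd']
        linarith
      exact h9.trans (mul_le_mul_of_nonneg_left h8 hMp.le)
    calc (Bad.ncard : ℝ) ≤ (M + 1) ^ F := h5.trans h6
      _ ≤ (M + 1) ^ F * (M * (d : ℝ) ^ ((F : ℝ) - σ)) := le_mul_of_one_le_right (by positivity) h7
      _ = (M + 1) ^ F * M * (d : ℝ) ^ ((F : ℝ) - σ) := by ring
      _ ≤ _ := by
        refine mul_le_mul_of_nonneg_right ?_ hpos.le
        have : 0 ≤ C * M * 2 ^ F := by positivity
        linarith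

end Pool.Agent.U449.BV
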