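import Pool.Agent.U449.BV.V

set_option autoImplicit false

/-!
# The vector version, uniformly in parameters
-/

namespace Pool.Agent.U449.BV

open Finset

/-- **The tuples of values of functions of two variables, uniformly in a parameter.** `OnProductsU k e κ P` is the following
statement. Let `e < δ ≤ k` and `d` be fixed. There is `ρ > 0` such that for all large `X` and ALL parameters `ω`: let `A` and `B` be
ARBITRARY finite sets of at least `X ^ δ` elements, and let `F` be ANY function of two variables with values in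
`[-X, X] ^ k` on `A × B` for which coincidences are rare (`RareV d A B F`). Then for all the pairs `(a, b)` in `A × B`, apart from a
proportion of at most `X ^ (-ρ)`, the point `x = F a b` has the property `P ω (X ^ κ) x` (where `X ^ κ` is the length of the
window). -/
def OnProductsU (k : ℕ) (e κ : ℝ) {Ω : Type} (P : Ω → ℝ → (Fin k → ℝ) → Prop) : Prop :=
  ∀ δ : ℝ, e < δ → δ ≤ k → ∀ d : ℕ, ∃ ρ : ℝ, 0 < ρ ∧ ∃ X₀ : ℝ, ∀ X : ℝ, X₀ ≤ X → ∀ ω : Ω,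
    ∀ (α β : Type) (A : Finset α) (B : Finset β) (F : α → β → Fin k → ℝ), X ^ δ ≤ A.card → X ^ δ ≤ B.card →
      (∀ a ∈ A, ∀ b ∈ B, ∀ i, |F a b i| ≤ X) → RareV d A B F →
      ({z : α × β | z.1 ∈ A ∧ z.2 ∈ B ∧ ¬ P ω (X ^ κ) (F z.1 z.2)}.ncard : ℝ) ≤ X ^ (-ρ) * (A.card * B.card)

theorem OnProductsU.mono {k : ℕ} {e κ : ℝ} {Ω Ω' : Type} {P : Ω → ℝ → (Fin k → ℝ) → Prop}
    {P' : Ω' → ℝ → (Fin k → ℝ) → Prop} (h : OnProductsU k e κ P) (φ : Ω' → Ω)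
    (hP : ∀ ω W x, 0 ≤ W → P (φ ω) W x → P' ω W x) : OnProductsU k e κ P' := by
  intro δ hδ hδ1 d
  obtain ⟨ρ, hρ, X₀, hX₀⟩ := h δ hδ hδ1 d
  refine ⟨ρ, hρ, max X₀ 1, fun X hX ω α β A B F hA hB hF hR => ?_⟩
  have hX1 : 1 ≤ X := (le_max_right _ _).trans hX
  refine le_trans ?_ (hX₀ X ((le_max_left _ _).trans hX) (φ ω) α β A B F hA hB hF hR)
  have hfin : {z : α × β | z.1 ∈ A ∧ z.2 ∈ B ∧ ¬ P (φ ω) (X ^ κ) (F z.1 z.2)}.Finite := by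
    apply (A ×ˢ B).finite_toSet.subset
    rintro z ⟨h1, h2, -⟩
    rw [mem_coe, mem_product]
    exact ⟨h1, h2⟩
  apply Nat.cast_le.2
  apply Set.ncard_le_ncard _ hfin
  rintro z ⟨h1, h2, h3⟩
  exact ⟨h1, h2, fun hc => h3 (hP _ _ _ (Real.rpow_nonneg (by linarith) _) hc)⟩

/-- the objects `t` of size `h t ∈ ℝ ^ k` near the values are not in `S ω`, uniformly in `ω` -/
theorem on_products_u {k : ℕ} {Ω T : Type} (S : Ω → Set T) (h : T → Fin k → ℝ) {s κ : ℝ} (hs : 0 ≤ s) (hκ : 0 ≤ κ)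
    (hS : ∀ ε : ℝ, 0 < ε → ∃ C : ℝ, ∀ ω, ∀ X : ℝ, 1 ≤ X →
      {t | t ∈ S ω ∧ ∀ i, |h t i| ≤ X}.Finite ∧ ({t | t ∈ S ω ∧ ∀ i, |h t i| ≤ X}.ncard : ℝ) ≤ C * X ^ (s + ε)) :
    OnProductsU k (s + k * κ) κ (fun ω W x => ∀ t, (∀ i, |h t i - x i| ≤ W) → t ∉ S ω) := by
  intro δ hδ hδ1 d
  obtain ⟨C, hC⟩ := hS ((δ - s - k * κ) / 2) (by linarith)
  obtain ⟨ρ, hρ, H⟩ := unif_v (k := k) (s := s + (δ - s - k * κ) / 2) (κ := κ) (δ := δ) (by linarith) hκ hδ1 (by linarith)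
  obtain ⟨X₀, hX₀⟩ := H C d
  refine ⟨ρ, hρ, X₀, fun X hX ω α β A B F hA hB hF hR => ?_⟩
  refine le_trans (le_of_eq ?_) (hX₀ X hX T h (S ω) (hC ω) α β A B F hA hB hF hR)
  congr 2
  ext z
  simp only [Set.mem_ofPred_eq]
  push Not
  refine and_congr_right fun _ => and_congr_right fun _ => ⟨?_, ?_⟩
  · rintro ⟨t, h1, h2⟩
    exact ⟨t, h2, h1⟩
  · rintro ⟨t, h1, h2⟩
    exact ⟨t, h2, h1⟩

/-- sets of tuples of integers `≥ m₀` with a power saving, uniformly in `ω` -/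
theorem on_products_saving {k : ℕ} (m₀ : ℕ) {Ω : Type} (S : Ω → Set (Fin k → ℕ)) {c κ C : ℝ}
    (hκ : 0 ≤ κ) (hS : ∀ ω, ∀ X : ℕ, 1 ≤ X →
      ({w : Fin k → ℕ | (∀ i, m₀ ≤ w i ∧ w i ≤ X) ∧ w ∈ S ω}.ncard : ℝ) ≤ C * (X : ℝ) ^ ((k : ℝ) - c)) :
    OnProductsU k ((k : ℝ) - min c k + k * κ) κ
      (fun ω W x => ∀ w : Fin k → ℕ, (∀ i, m₀ ≤ w i) → (∀ i, |(w i : ℝ) - x i| ≤ W) → w ∉ S ω) := by
  have hs : 0 ≤ (k : ℝ) - min c k := by linarith [min_le_right c (k : ℝ)]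
  refine (on_products_u (fun ω => {w : Fin k → ℕ | (∀ i, m₀ ≤ w i) ∧ w ∈ S ω}) (fun w i => (w i : ℝ)) hs hκ ?_).mono id
    (fun ω W x _ h' w hw hwx hwS => h' w hwx ⟨hw, hwS⟩)
  intro ε hε
  refine ⟨|C|, fun ω X hX => ?_⟩
  have hX0 : 0 < X := by linarith
  have hX1 : 1 ≤ ⌊X⌋₊ := Nat.le_floor (by exact_mod_cast hX)
  have hX1' : (1 : ℝ) ≤ (⌊X⌋₊ : ℝ) := by exact_mod_cast hX1
  have hsub : {w : Fin k → ℕ | w ∈ {w : Fin k → ℕ | (∀ i, m₀ ≤ w i) ∧ w ∈ S ω} ∧ ∀ i, |(w i : ℝ)| ≤ X} ⊆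
      {w : Fin k → ℕ | (∀ i, m₀ ≤ w i ∧ w i ≤ ⌊X⌋₊) ∧ w ∈ S ω} := by
    rintro w ⟨⟨h1, h2⟩, h3⟩
    refine ⟨fun i => ⟨h1 i, Nat.le_floor ?_⟩, h2⟩
    have := h3 i
    rwa [abs_of_nonneg (Nat.cast_nonneg _)] at this
  have hfin : {w : Fin k → ℕ | (∀ i, m₀ ≤ w i ∧ w i ≤ ⌊X⌋₊) ∧ w ∈ S ω}.Finite := by
    apply (Fintype.piFinset fun _ : Fin k => Finset.range (⌊X⌋₊ + 1)).finite_toSet.subset
    rintro w ⟨h1, -⟩
    rw [mem_coe, Fintype.mem_piFinset]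
    intro i
    rw [Finset.mem_range]
    have := (h1 i).2
    omega
  refine ⟨hfin.subset hsub, ?_⟩
  have h1 : ({w : Fin k → ℕ | w ∈ {w : Fin k → ℕ | (∀ i, m₀ ≤ w i) ∧ w ∈ S ω} ∧ ∀ i, |(w i : ℝ)| ≤ X}.ncard : ℝ) ≤
      ({w : Fin k → ℕ | (∀ i, m₀ ≤ w i ∧ w i ≤ ⌊X⌋₊) ∧ w ∈ S ω}.ncard : ℝ) := by
    exact_mod_cast Set.ncard_le_ncard hsub hfin
  have h2 : ((⌊X⌋₊ : ℕ) : ℝ) ^ ((k : ℝ) - c) ≤ X ^ ((k : ℝ) - min c k + ε) := by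
    calc ((⌊X⌋₊ : ℕ) : ℝ) ^ ((k : ℝ) - c) ≤ ((⌊X⌋₊ : ℕ) : ℝ) ^ ((k : ℝ) - min c k) :=
          Real.rpow_le_rpow_of_exponent_le hX1' (by linarith [min_le_left c (k : ℝ)])
      _ ≤ X ^ ((k : ℝ) - min c k) := Real.rpow_le_rpow (Nat.cast_nonneg _) (Nat.floor_le hX0.le) hs
      _ ≤ _ := Real.rpow_le_rpow_of_exponent_le hX (by linarith)
  refine h1.trans ((hS ω ⌊X⌋₊ hX1).trans ?_)
  exact (mul_le_mul_of_nonneg_right (le_abs_self C) (by positivity)).trans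
    (mul_le_mul_of_nonneg_left h2 (abs_nonneg C))

/-- sets of tuples of integers with a power saving, uniformly in `ω` -/
theorem on_products_int_saving {k : ℕ} {Ω : Type} (S : Ω → Set (Fin k → ℤ)) {c κ C : ℝ}
    (hκ : 0 ≤ κ) (hS : ∀ ω, ∀ X : ℕ, 1 ≤ X →
      ({w : Fin k → ℤ | (∀ i, |w i| ≤ (X : ℤ)) ∧ w ∈ S ω}.ncard : ℝ) ≤ C * (X : ℝ) ^ ((k : ℝ) - c)) :
    OnProductsU k ((k : ℝ) - min c k + k * κ) κ
      (fun ω W x => ∀ w : Fin k → ℤ, (∀ i, |(w i : ℝ) - x i| ≤ W) → w ∉ S ω) := by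
  have hs : 0 ≤ (k : ℝ) - min c k := by linarith [min_le_right c (k : ℝ)]
  refine on_products_u S (fun w i => (w i : ℝ)) hs hκ ?_
  intro ε hε
  refine ⟨|C|, fun ω X hX => ?_⟩
  have hX0 : 0 < X := by linarith
  have hX1 : 1 ≤ ⌊X⌋₊ := Nat.le_floor (by exact_mod_cast hX)
  have hX1' : (1 : ℝ) ≤ (⌊X⌋₊ : ℝ) := by exact_mod_cast hX1
  have hsub : {w : Fin k → ℤ | w ∈ S ω ∧ ∀ i, |(w i : ℝ)| ≤ X} ⊆
      {w : Fin k → ℤ | (∀ i, |w i| ≤ ((⌊X⌋₊ : ℕ) : ℤ)) ∧ w ∈ S ω} := by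
    rintro w ⟨h2, h3⟩
    refine ⟨fun i => ?_, h2⟩
    have h4 := h3 i
    rw [← Int.cast_abs, Int.abs_eq_natAbs, Int.cast_natCast] at h4
    rw [Int.abs_eq_natAbs]
    exact_mod_cast Nat.le_floor h4
  have hfin : {w : Fin k → ℤ | (∀ i, |w i| ≤ ((⌊X⌋₊ : ℕ) : ℤ)) ∧ w ∈ S ω}.Finite := by
    apply (Fintype.piFinset fun _ : Fin k => Finset.Icc (-((⌊X⌋₊ : ℕ) : ℤ)) ((⌊X⌋₊ : ℕ) : ℤ)).finite_toSet.subset
    rintro w ⟨h1, -⟩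
    rw [mem_coe, Fintype.mem_piFinset]
    intro i
    rw [Finset.mem_Icc]
    exact abs_le.1 (h1 i)
  refine ⟨hfin.subset hsub, ?_⟩
  have h1 : ({w : Fin k → ℤ | w ∈ S ω ∧ ∀ i, |(w i : ℝ)| ≤ X}.ncard : ℝ) ≤
      ({w : Fin k → ℤ | (∀ i, |w i| ≤ ((⌊X⌋₊ : ℕ) : ℤ)) ∧ w ∈ S ω}.ncard : ℝ) := by
    exact_mod_cast Set.ncard_le_ncard hsub hfin
  have h2 : ((⌊X⌋₊ : ℕ) : ℝ) ^ ((k : ℝ) - c) ≤ X ^ ((k : ℝ) - min c k + ε) := by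
    calc ((⌊X⌋₊ : ℕ) : ℝ) ^ ((k : ℝ) - c) ≤ ((⌊X⌋₊ : ℕ) : ℝ) ^ ((k : ℝ) - min c k) :=
          Real.rpow_le_rpow_of_exponent_le hX1' (by linarith [min_le_left c (k : ℝ)])
      _ ≤ X ^ ((k : ℝ) - min c k) := Real.rpow_le_rpow (Nat.cast_nonneg _) (Nat.floor_le hX0.le) hs
      _ ≤ _ := Real.rpow_le_rpow_of_exponent_le hX (by linarith)
  refine h1.trans ((hS ω ⌊X⌋₊ hX1).trans ?_)
  exact (mul_le_mul_of_nonneg_right (le_abs_self C) (by positivity)).trans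
    (mul_le_mul_of_nonneg_left h2 (abs_nonneg C))

/-- the exponent may be increased -/
theorem OnProductsU.mono_exp {k : ℕ} {e e' κ : ℝ} {Ω : Type} {P : Ω → ℝ → (Fin k → ℝ) → Prop} (h : OnProductsU k e κ P)
    (he : e ≤ e') : OnProductsU k e' κ P :=
  fun δ hδ hδ1 d => h δ (lt_of_le_of_lt he hδ) hδ1 d

end Pool.Agent.U449.BV
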