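import Pool.Agent.U449.BV.G
import Pool.Agent.U449.BV.VU

/-!
# Functions of two variables on dense sets

If the number of the exceptions up to `2 X` is at most `K X e(X)`, then on finite sets `A`, `B` a function `F(a, b)`, bounded by `X` and
with few coincidences, has an exception within `W` for at most `Θ |A| |B|` of the pairs, `Θ ^ 2 = C d e(X) (X / |A| + W X / |B|)`.
This is the form of the theorems of `Pool.Agent.U449.BV.B` for exceptional sets which are smaller than all numbers only by a power of the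
logarithm, or by a factor like `exp (- c √(log X))`; the sets `A` and `B` are arbitrary sets which are dense in the same sense.
-/

set_option autoImplicit false

open Finset

namespace Pool.Agent.U449.BV

/-- There is `C` such that for all `X ≥ W ≥ 1`, all finite sets `A`, `B` and all functions `F` on `A × B` bounded by `X` with few
coincidences (`Rare d A B F`), the square of the number of the pairs `(a, b)` for which `P W (F a b)` fails is at most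
`C d e(X) (X / |A| + W X / |B|) (|A| |B|) ^ 2`. -/
def OnDense (e : ℝ → ℝ) (P : ℝ → ℝ → Prop) : Prop :=
  ∃ C : ℝ, ∀ (d : ℕ) (X W : ℝ), 1 ≤ W → W ≤ X → ∀ (α β : Type) (A : Finset α) (B : Finset β) (F : α → β → ℝ),
    (∀ a ∈ A, ∀ b ∈ B, |F a b| ≤ X) → Rare d A B F →
    ({z : α × β | z.1 ∈ A ∧ z.2 ∈ B ∧ ¬ P W (F z.1 z.2)}.ncard : ℝ) ^ 2 ≤
      C * d * e X * (X / A.card + W * X / B.card) * ((A.card : ℝ) * B.card) ^ 2

theorem OnDense.mono {e : ℝ → ℝ} {P P' : ℝ → ℝ → Prop} (h : OnDense e P) (hP : ∀ W x, 0 ≤ W → P W x → P' W x) :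
    OnDense e P' := by
  obtain ⟨C, hC⟩ := h
  refine ⟨C, fun d X W hW hWX α β A B F hF hR => le_trans ?_ (hC d X W hW hWX α β A B F hF hR)⟩
  have hfin : {z : α × β | z.1 ∈ A ∧ z.2 ∈ B ∧ ¬ P W (F z.1 z.2)}.Finite := by
    apply (A ×ˢ B).finite_toSet.subset
    rintro z ⟨h1, h2, -⟩
    rw [mem_coe, mem_product]
    exact ⟨h1, h2⟩
  refine pow_le_pow_left₀ (Nat.cast_nonneg _) (Nat.cast_le.2 (Set.ncard_le_ncard ?_ hfin)) 2
  rintro z ⟨h1, h2, h3⟩
  exact ⟨h1, h2, fun h4 => h3 (hP W _ (by linarith) h4)⟩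

theorem on_dense {T : Type} (S : Set T) (h : T → ℝ) {e : ℝ → ℝ} {K : ℝ}
    (hS : ∀ X : ℝ, 1 ≤ X → {t | t ∈ S ∧ h t ≤ 2 * X}.Finite ∧ ({t | t ∈ S ∧ h t ≤ 2 * X}.ncard : ℝ) ≤ K * X * e X) :
    OnDense e (fun W x => ∀ t, |h t - x| ≤ W → t ∉ S) := by
  refine ⟨28 * K, fun d X W hW hWX α β A B F hF hR => ?_⟩
  have h1 := window h S hW hWX (K * X * e X) (hS X (hW.trans hWX)) hF hR
  have hset : {z : α × β | z.1 ∈ A ∧ z.2 ∈ B ∧ ¬ ∀ t, |h t - F z.1 z.2| ≤ W → t ∉ S} =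
      {z : α × β | z.1 ∈ A ∧ z.2 ∈ B ∧ ∃ t ∈ S, |h t - F z.1 z.2| ≤ W} := by
    ext z
    simp only [Set.mem_ofPred_eq]
    push Not
    refine and_congr_right fun _ => and_congr_right fun _ => ⟨?_, ?_⟩
    · rintro ⟨t, ht, hS⟩
      exact ⟨t, hS, ht⟩
    · rintro ⟨t, hS, ht⟩
      exact ⟨t, ht, hS⟩
  rw [hset]
  have hn0 : 0 ≤ K * X * e X := le_trans (Nat.cast_nonneg _) (hS X (hW.trans hWX)).2
  rcases A.eq_empty_or_nonempty with rfl | hA
  · refine h1.trans (le_of_eq ?_)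
    simp
  rcases B.eq_empty_or_nonempty with rfl | hB
  · refine h1.trans (le_of_eq ?_)
    simp
  have hA0 : (0 : ℝ) < A.card := by exact_mod_cast hA.card_pos
  have hB0 : (0 : ℝ) < B.card := by exact_mod_cast hB.card_pos
  have hd0 : (0 : ℝ) ≤ d := Nat.cast_nonneg d
  have h2 : 4 * ((d : ℝ) * (A.card * B.card) + A.card ^ 2 * (d * (6 * W + 1))) ≤
      28 * d * (A.card * B.card + A.card ^ 2 * W) := by
    have h3 : (d : ℝ) * (A.card * B.card) ≤ 7 * (d * (A.card * B.card)) := by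
      have : 0 ≤ (d : ℝ) * (A.card * B.card) := by positivity
      linarith
    have h4 : (A.card : ℝ) ^ 2 * (d * (6 * W + 1)) ≤ 7 * (A.card ^ 2 * (d * W)) := by
      have h5 : (d : ℝ) * (6 * W + 1) ≤ 7 * (d * W) := by nlinarith
      nlinarith [sq_nonneg (A.card : ℝ)]
    linarith
  refine h1.trans ?_
  calc K * X * e X * B.card * (4 * ((d : ℝ) * (A.card * B.card) + A.card ^ 2 * (d * (6 * W + 1)))) ≤
        K * X * e X * B.card * (28 * d * (A.card * B.card + A.card ^ 2 * W)) :=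
        mul_le_mul_of_nonneg_left h2 (mul_nonneg hn0 hB0.le)
    _ = 28 * K * d * e X * (X / A.card + W * X / B.card) * ((A.card : ℝ) * B.card) ^ 2 := by
        field_simp

/-- Properties of the natural numbers: exceptions `K x exp (- c (log x) ^ β)`. -/
theorem on_dense_exp {Good : ℕ → Prop} {c K β : ℝ} (hc : 0 ≤ c) (hβ : 0 ≤ β)
    (h : ∀ x : ℕ, 1 ≤ x → ({n : ℕ | 1 ≤ n ∧ n ≤ x ∧ ¬ Good n}.ncard : ℝ) ≤ K * x * Real.exp (-(c * Real.log x ^ β))) :
    OnDense (fun X => Real.exp (-(c * Real.log X ^ β))) (fun W x => ∀ n : ℕ, 1 ≤ n → |(n : ℝ) - x| ≤ W → Good n) := by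
  refine (on_dense {n : ℕ | 1 ≤ n ∧ ¬ Good n} (fun n => (n : ℝ)) (K := 2 * |K|) (e := fun X => Real.exp (-(c * Real.log X ^ β)))
    ?_).mono (fun W x _ h' n hn hw => ?_)
  · intro X hX
    have hX0 : 0 < X := by linarith
    have hsub : {n : ℕ | n ∈ {n : ℕ | 1 ≤ n ∧ ¬ Good n} ∧ (n : ℝ) ≤ 2 * X} ⊆ {n : ℕ | 1 ≤ n ∧ n ≤ ⌊2 * X⌋₊ ∧ ¬ Good n} := by
      rintro n ⟨⟨h1, h2⟩, h3⟩
      exact ⟨h1, Nat.le_floor h3, h2⟩
    have hfin : {n : ℕ | 1 ≤ n ∧ n ≤ ⌊2 * X⌋₊ ∧ ¬ Good n}.Finite := (Set.finite_Iic ⌊2 * X⌋₊).subset fun n hn => hn.2.1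
    refine ⟨hfin.subset hsub, ?_⟩
    have h1 : 1 ≤ ⌊2 * X⌋₊ := Nat.le_floor (by push_cast; linarith)
    refine le_trans (Nat.cast_le.2 (Set.ncard_le_ncard hsub hfin)) ((h _ h1).trans ?_)
    have h2 : ((⌊2 * X⌋₊ : ℕ) : ℝ) ≤ 2 * X := Nat.floor_le (by linarith)
    have h3 : X ≤ ((⌊2 * X⌋₊ : ℕ) : ℝ) := by
      have := Nat.lt_floor_add_one (2 * X)
      linarith
    have hl : Real.log X ^ β ≤ Real.log ((⌊2 * X⌋₊ : ℕ) : ℝ) ^ β :=
      Real.rpow_le_rpow (Real.log_nonneg hX) (Real.log_le_log hX0 h3) hβ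
    calc K * ((⌊2 * X⌋₊ : ℕ) : ℝ) * Real.exp (-(c * Real.log ((⌊2 * X⌋₊ : ℕ) : ℝ) ^ β)) ≤
          |K| * ((⌊2 * X⌋₊ : ℕ) : ℝ) * Real.exp (-(c * Real.log ((⌊2 * X⌋₊ : ℕ) : ℝ) ^ β)) := by
            apply mul_le_mul_of_nonneg_right _ (Real.exp_pos _).le
            exact mul_le_mul_of_nonneg_right (le_abs_self K) (Nat.cast_nonneg _)
      _ ≤ |K| * (2 * X) * Real.exp (-(c * Real.log X ^ β)) := by
            apply mul_le_mul (mul_le_mul_of_nonneg_left h2 (abs_nonneg K)) _ (Real.exp_pos _).le (by positivity)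
            apply Real.exp_le_exp.2
            exact neg_le_neg (mul_le_mul_of_nonneg_left hl hc)
      _ = _ := by ring
  · by_contra hcon
    exact h' n hw ⟨hn, hcon⟩

/-- Properties of the natural numbers: exceptions `x / (log x) ^ s`, for large `x`. -/
theorem on_dense_log {Good : ℕ → Prop} {s : ℕ} {K : ℝ}
    (h : ∃ x₀ : ℕ, ∀ x : ℕ, x₀ ≤ x → ({n : ℕ | 1 ≤ n ∧ n ≤ x ∧ ¬ Good n}.ncard : ℝ) ≤ K * (x / Real.log x ^ s)) :
    OnDense (fun X => 1 / (1 + Real.log X) ^ s) (fun W x => ∀ n : ℕ, 1 ≤ n → |(n : ℝ) - x| ≤ W → Good n) := by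
  obtain ⟨x₀, hx₀⟩ := h
  refine (on_dense {n : ℕ | 1 ≤ n ∧ ¬ Good n} (fun n => (n : ℝ))
    (K := 2 * (3 ^ s * |K| + (1 + Real.log (x₀ + 3)) ^ s)) (e := fun X => 1 / (1 + Real.log X) ^ s)
    ?_).mono (fun W x _ h' n hn hw => ?_)
  · intro X hX
    have hX0 : 0 < X := by linarith
    have hlX : 0 ≤ Real.log X := Real.log_nonneg hX
    have hsub : {n : ℕ | n ∈ {n : ℕ | 1 ≤ n ∧ ¬ Good n} ∧ (n : ℝ) ≤ 2 * X} ⊆ {n : ℕ | 1 ≤ n ∧ n ≤ ⌊2 * X⌋₊ ∧ ¬ Good n} := by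
      rintro n ⟨⟨h1, h2⟩, h3⟩
      exact ⟨h1, Nat.le_floor h3, h2⟩
    have hfin : {n : ℕ | 1 ≤ n ∧ n ≤ ⌊2 * X⌋₊ ∧ ¬ Good n}.Finite := (Set.finite_Iic ⌊2 * X⌋₊).subset fun n hn => hn.2.1
    refine ⟨hfin.subset hsub, ?_⟩
    have h2 : ((⌊2 * X⌋₊ : ℕ) : ℝ) ≤ 2 * X := Nat.floor_le (by linarith)
    have h3 : X ≤ ((⌊2 * X⌋₊ : ℕ) : ℝ) := by
      have := Nat.lt_floor_add_one (2 * X)
      linarith
    have hpos : 0 < (1 + Real.log X) ^ s := by positivity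
    have hl3 : 0 ≤ Real.log ((x₀ : ℝ) + 3) := Real.log_nonneg (by have : (0 : ℝ) ≤ x₀ := Nat.cast_nonneg _; linarith)
    rcases le_or_gt ((x₀ : ℝ) + 3) X with hXx | hXx
    · have h1 : x₀ ≤ ⌊2 * X⌋₊ := Nat.le_floor (by linarith)
      refine le_trans (Nat.cast_le.2 (Set.ncard_le_ncard hsub hfin)) ((hx₀ _ h1).trans ?_)
      have hx0' : (0 : ℝ) ≤ x₀ := Nat.cast_nonneg _
      have he : 1 ≤ Real.log X := by
        rw [Real.le_log_iff_exp_le hX0]
        have := Real.exp_one_lt_d9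
        linarith
      have hl : Real.log X ≤ Real.log ((⌊2 * X⌋₊ : ℕ) : ℝ) := Real.log_le_log hX0 h3
      have h4 : (1 + Real.log X) ^ s ≤ 3 ^ s * Real.log ((⌊2 * X⌋₊ : ℕ) : ℝ) ^ s := by
        rw [← mul_pow]
        exact pow_le_pow_left₀ (by linarith) (by linarith) s
      have h5 : 0 < Real.log ((⌊2 * X⌋₊ : ℕ) : ℝ) ^ s := pow_pos (by linarith) s
      calc K * (((⌊2 * X⌋₊ : ℕ) : ℝ) / Real.log ((⌊2 * X⌋₊ : ℕ) : ℝ) ^ s) ≤
            |K| * (2 * X / Real.log ((⌊2 * X⌋₊ : ℕ) : ℝ) ^ s) := by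
              apply mul_le_mul (le_abs_self K) _ (by positivity) (abs_nonneg K)
              exact div_le_div_of_nonneg_right h2 h5.le
        _ ≤ |K| * (2 * X * (3 ^ s / (1 + Real.log X) ^ s)) := by
              apply mul_le_mul_of_nonneg_left _ (abs_nonneg K)
              rw [mul_div_assoc', div_le_div_iff₀ h5 hpos]
              have : 0 ≤ 2 * X := by linarith
              nlinarith
        _ ≤ 2 * (3 ^ s * |K| + (1 + Real.log (x₀ + 3)) ^ s) * X * (1 / (1 + Real.log X) ^ s) := by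
              have e1 : |K| * (2 * X * (3 ^ s / (1 + Real.log X) ^ s)) = 2 * (3 ^ s * |K|) * X * (1 / (1 + Real.log X) ^ s) := by
                ring
              rw [e1]
              apply mul_le_mul_of_nonneg_right _ (by positivity)
              apply mul_le_mul_of_nonneg_right _ hX0.le
              have : 0 ≤ (1 + Real.log ((x₀ : ℝ) + 3)) ^ s := by positivity
              linarith
    · have h6 : ({n : ℕ | 1 ≤ n ∧ n ≤ ⌊2 * X⌋₊ ∧ ¬ Good n}.ncard : ℝ) ≤ 2 * X := by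
        refine le_trans ?_ h2
        apply Nat.cast_le.2
        have h7 : {n : ℕ | 1 ≤ n ∧ n ≤ ⌊2 * X⌋₊ ∧ ¬ Good n} ⊆ (↑(Icc 1 ⌊2 * X⌋₊) : Set ℕ) := by
          rintro n ⟨h1, h2, -⟩
          rw [coe_Icc]
          exact ⟨h1, h2⟩
        have h8 := Set.ncard_le_ncard h7 (Finset.finite_toSet _)
        rw [Set.ncard_coe_finset, Nat.card_Icc] at h8
        omega
      refine le_trans (Nat.cast_le.2 (Set.ncard_le_ncard hsub hfin)) (h6.trans ?_)
      have hl : Real.log X ≤ Real.log ((x₀ : ℝ) + 3) := Real.log_le_log hX0 hXx.le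
      have h9 : (1 + Real.log X) ^ s ≤ (1 + Real.log ((x₀ : ℝ) + 3)) ^ s := pow_le_pow_left₀ (by linarith) (by linarith) s
      have h10 : 1 ≤ (3 ^ s * |K| + (1 + Real.log ((x₀ : ℝ) + 3)) ^ s) * (1 / (1 + Real.log X) ^ s) := by
        rw [mul_one_div, le_div_iff₀ hpos, one_mul]
        have : 0 ≤ 3 ^ s * |K| := by positivity
        linarith
      calc 2 * X = 2 * X * 1 := by ring
        _ ≤ 2 * X * ((3 ^ s * |K| + (1 + Real.log ((x₀ : ℝ) + 3)) ^ s) * (1 / (1 + Real.log X) ^ s)) :=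
            mul_le_mul_of_nonneg_left h10 (by linarith)
        _ = _ := by ring
  · by_contra hcon
    exact h' n hw ⟨hn, hcon⟩

end Pool.Agent.U449.BV
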