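import Pool.Agent.U449.BV.L

/-!
# Functions of two variables on dense sets: exceptional sets of density `1 / (log X) ^ s`
-/

set_option autoImplicit false

open Finset

namespace Pool.Agent.U449.BV

theorem on_dense_gen {T : Type} (S : Set T) (h : T → ℝ) {s K : ℝ} (hs : 0 ≤ s)
    (hfin : ∀ X : ℝ, {t | t ∈ S ∧ h t ≤ X}.Finite)
    (hcnt : ∃ x₀ : ℕ, ∀ x : ℕ, x₀ ≤ x → ({t | t ∈ S ∧ h t ≤ x}.ncard : ℝ) ≤ K * (x / Real.log x ^ s)) :
    OnDense (fun X => 1 / (1 + Real.log X) ^ s) (fun W x => ∀ t, |h t - x| ≤ W → t ∉ S) := by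
  obtain ⟨x₀, hx₀⟩ := hcnt
  obtain ⟨M, hM⟩ : ∃ M : ℕ, M = {t | t ∈ S ∧ h t ≤ 2 * ((x₀ : ℝ) + 3)}.ncard := ⟨_, rfl⟩
  refine on_dense S h (K := 3 * 2 ^ s * |K| + M * (1 + Real.log (x₀ + 3)) ^ s) ?_
  intro X hX
  have hX0 : 0 < X := by linarith
  have hlX : 0 ≤ Real.log X := Real.log_nonneg hX
  have hpos : 0 < (1 + Real.log X) ^ s := Real.rpow_pos_of_pos (by linarith) s
  have hx0' : (0 : ℝ) ≤ x₀ := Nat.cast_nonneg _
  have hl3 : 0 ≤ Real.log ((x₀ : ℝ) + 3) := Real.log_nonneg (by linarith)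
  have hM0 : (0 : ℝ) ≤ M := Nat.cast_nonneg _
  refine ⟨hfin _, ?_⟩
  rcases le_or_gt ((x₀ : ℝ) + 3) X with hXx | hXx
  · have h1 : x₀ ≤ ⌈2 * X⌉₊ := by
      have : (x₀ : ℝ) ≤ ⌈2 * X⌉₊ := le_trans (by linarith) (Nat.le_ceil (2 * X))
      exact_mod_cast this
    have h2 : ((⌈2 * X⌉₊ : ℕ) : ℝ) ≤ 3 * X := by
      have := Nat.ceil_lt_add_one (a := 2 * X) (by linarith)
      linarith
    have h3 : 2 * X ≤ ((⌈2 * X⌉₊ : ℕ) : ℝ) := Nat.le_ceil _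
    have hsub : {t | t ∈ S ∧ h t ≤ 2 * X} ⊆ {t | t ∈ S ∧ h t ≤ ((⌈2 * X⌉₊ : ℕ) : ℝ)} := fun t ht => ⟨ht.1, ht.2.trans h3⟩
    refine le_trans (Nat.cast_le.2 (Set.ncard_le_ncard hsub (hfin _))) ((hx₀ _ h1).trans ?_)
    have he : 1 ≤ Real.log X := by
      rw [Real.le_log_iff_exp_le hX0]
      have := Real.exp_one_lt_d9
      linarith
    have hl : Real.log X ≤ Real.log ((⌈2 * X⌉₊ : ℕ) : ℝ) := Real.log_le_log hX0 (by linarith)
    have h5 : 0 < Real.log ((⌈2 * X⌉₊ : ℕ) : ℝ) ^ s := Real.rpow_pos_of_pos (by linarith) s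
    have h4 : (1 + Real.log X) ^ s ≤ 2 ^ s * Real.log ((⌈2 * X⌉₊ : ℕ) : ℝ) ^ s := by
      rw [← Real.mul_rpow (by norm_num) (by linarith)]
      exact Real.rpow_le_rpow (by linarith) (by linarith) hs
    calc K * (((⌈2 * X⌉₊ : ℕ) : ℝ) / Real.log ((⌈2 * X⌉₊ : ℕ) : ℝ) ^ s) ≤
          |K| * (3 * X / Real.log ((⌈2 * X⌉₊ : ℕ) : ℝ) ^ s) := by
            apply mul_le_mul (le_abs_self K) _ (by positivity) (abs_nonneg K)
            exact div_le_div_of_nonneg_right h2 h5.le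
      _ ≤ |K| * (3 * X * (2 ^ s / (1 + Real.log X) ^ s)) := by
            apply mul_le_mul_of_nonneg_left _ (abs_nonneg K)
            rw [mul_div_assoc', div_le_div_iff₀ h5 hpos]
            have h6 : 3 * X * (1 + Real.log X) ^ s ≤ 3 * X * (2 ^ s * Real.log ((⌈2 * X⌉₊ : ℕ) : ℝ) ^ s) :=
              mul_le_mul_of_nonneg_left h4 (by linarith)
            linarith
      _ = 3 * 2 ^ s * |K| * X * (1 / (1 + Real.log X) ^ s) := by ring
      _ ≤ _ := by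
            apply mul_le_mul_of_nonneg_right _ (by positivity)
            apply mul_le_mul_of_nonneg_right _ hX0.le
            have : 0 ≤ M * (1 + Real.log ((x₀ : ℝ) + 3)) ^ s := mul_nonneg hM0 (Real.rpow_nonneg (by linarith) s)
            linarith
  · have hsub : {t | t ∈ S ∧ h t ≤ 2 * X} ⊆ {t | t ∈ S ∧ h t ≤ 2 * ((x₀ : ℝ) + 3)} := fun t ht =>
      ⟨ht.1, ht.2.trans (by linarith)⟩
    have h6 := Nat.cast_le (α := ℝ).2 (Set.ncard_le_ncard hsub (hfin _))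
    rw [← hM] at h6
    refine h6.trans ?_
    have hl : Real.log X ≤ Real.log ((x₀ : ℝ) + 3) := Real.log_le_log hX0 hXx.le
    have h9 : (1 + Real.log X) ^ s ≤ (1 + Real.log ((x₀ : ℝ) + 3)) ^ s := Real.rpow_le_rpow (by linarith) (by linarith) hs
    have h10 : (M : ℝ) ≤ M * (1 + Real.log ((x₀ : ℝ) + 3)) ^ s * X * (1 / (1 + Real.log X) ^ s) := by
      rw [mul_one_div, le_div_iff₀ hpos]
      calc (M : ℝ) * (1 + Real.log X) ^ s ≤ M * (1 + Real.log ((x₀ : ℝ) + 3)) ^ s := mul_le_mul_of_nonneg_left h9 hM0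
        _ = M * (1 + Real.log ((x₀ : ℝ) + 3)) ^ s * 1 := by ring
        _ ≤ M * (1 + Real.log ((x₀ : ℝ) + 3)) ^ s * X :=
            mul_le_mul_of_nonneg_left hX (mul_nonneg hM0 (Real.rpow_nonneg (by linarith) s))
    refine h10.trans ?_
    apply mul_le_mul_of_nonneg_right _ (by positivity)
    apply mul_le_mul_of_nonneg_right _ hX0.le
    have : 0 ≤ 3 * 2 ^ s * |K| := by positivity
    linarith

/-- Properties of the positive integers. -/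
theorem on_dense_nat {Good : ℕ → Prop} {s K : ℝ} (hs : 0 ≤ s)
    (h : ∃ x₀ : ℕ, ∀ x : ℕ, x₀ ≤ x → ({n : ℕ | 1 ≤ n ∧ n ≤ x ∧ ¬ Good n}.ncard : ℝ) ≤ K * (x / Real.log x ^ s)) :
    OnDense (fun X => 1 / (1 + Real.log X) ^ s) (fun W x => ∀ n : ℕ, 1 ≤ n → |(n : ℝ) - x| ≤ W → Good n) := by
  refine (on_dense_gen {n : ℕ | 1 ≤ n ∧ ¬ Good n} (fun n => (n : ℝ)) (K := K) hs (fun X => ?_) ?_).mono
    (fun W x _ h' n hn hw => ?_)
  · exact (Set.finite_Iic ⌊X⌋₊).subset fun n hn => Nat.le_floor hn.2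
  · obtain ⟨x₀, hx₀⟩ := h
    refine ⟨x₀, fun x hx => le_trans (le_of_eq ?_) (hx₀ x hx)⟩
    congr 2
    ext n
    simp only [Set.mem_ofPred_eq, Nat.cast_le]
    tauto
  · by_contra hcon
    exact h' n hw ⟨hn, hcon⟩

/-- Properties of the integers: all integers `k` for which `|k|` is near. -/
theorem on_dense_int {Good : ℤ → Prop} {s K : ℝ} (hs : 0 ≤ s)
    (h : ∃ x₀ : ℕ, ∀ x : ℕ, x₀ ≤ x → ({k : ℤ | |k| ≤ (x : ℤ) ∧ ¬ Good k}.ncard : ℝ) ≤ K * (x / Real.log x ^ s)) :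
    OnDense (fun X => 1 / (1 + Real.log X) ^ s) (fun W x => ∀ k : ℤ, |(|k| : ℝ) - x| ≤ W → Good k) := by
  refine (on_dense_gen {k : ℤ | ¬ Good k} (fun k => (|k| : ℝ)) (K := K) hs (fun X => ?_) ?_).mono
    (fun W x _ h' n hw => ?_)
  · refine (Set.finite_Icc (-(⌈|X|⌉₊ : ℤ)) (⌈|X|⌉₊ : ℤ)).subset fun k hk => ?_
    rw [Set.mem_Icc, ← abs_le]
    have h1 : (|k| : ℝ) ≤ ⌈|X|⌉₊ := (hk.2.trans (le_abs_self X)).trans (Nat.le_ceil _)
    exact_mod_cast h1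
  · obtain ⟨x₀, hx₀⟩ := h
    refine ⟨x₀, fun x hx => le_trans (le_of_eq ?_) (hx₀ x hx)⟩
    congr 2
    ext k
    simp only [Set.mem_ofPred_eq]
    have e : ((|k| : ℝ) ≤ x) ↔ |k| ≤ (x : ℤ) := by
      rw [← Int.cast_abs]
      exact_mod_cast Iff.rfl
    rw [e]
    tauto
  · by_contra hcon
    exact h' n hw hcon

end Pool.Agent.U449.BV
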