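import Pool.Agent.U449.BV.V

/-!
# Tuples in cones: exceptional sets with a saving of one dimension at every scale
-/

set_option autoImplicit false

namespace Pool.Agent.U449.BV

open Finset

lemma log_bound {ε : ℝ} (hε : 0 < ε) : ∃ L : ℝ, 0 ≤ L ∧ ∀ X : ℝ, 1 ≤ X → ((Nat.log 2 ⌊X⌋₊ + 1 : ℕ) : ℝ) ≤ L * X ^ ε := by
  refine ⟨1 + 1 / (ε * Real.log 2), by have := Real.log_pos one_lt_two; positivity, fun X hX => ?_⟩
  have hX0 : 0 < X := by linarith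
  have h2 : 0 < Real.log 2 := Real.log_pos one_lt_two
  have h3 : (Nat.log 2 ⌊X⌋₊ : ℝ) ≤ Real.log X / Real.log 2 := by
    rw [le_div_iff₀ h2, ← Real.log_pow]
    apply Real.log_le_log (by positivity)
    have h4 : 2 ^ Nat.log 2 ⌊X⌋₊ ≤ ⌊X⌋₊ := Nat.pow_log_le_self 2 (by
      have : 1 ≤ ⌊X⌋₊ := Nat.le_floor (by exact_mod_cast hX)
      omega)
    calc ((2 : ℝ) ^ Nat.log 2 ⌊X⌋₊) = ((2 ^ Nat.log 2 ⌊X⌋₊ : ℕ) : ℝ) := by push_cast; rfl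
      _ ≤ (⌊X⌋₊ : ℝ) := by exact_mod_cast h4
      _ ≤ X := Nat.floor_le hX0.le
  have h5 : Real.log X ≤ X ^ ε / ε := Real.log_le_rpow_div hX0.le hε
  have h6 : (1 : ℝ) ≤ X ^ ε := Real.one_le_rpow hX hε.le
  have h7 : Real.log X / Real.log 2 ≤ X ^ ε / ε / Real.log 2 := div_le_div_of_nonneg_right h5 h2.le
  have h8 : X ^ ε / ε / Real.log 2 + X ^ ε = (1 + 1 / (ε * Real.log 2)) * X ^ ε := by
    field_simp
    ring
  push_cast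
  linarith

/-- the tuples in `[N, l N] ^ k` with `E (C ^ N)` -/
def Piece {k : ℕ} (E : ℝ → (Fin k → ℕ) → Prop) (C : ℝ) (l N : ℕ) : Set (Fin k → ℕ) :=
  {s | (∀ j, N ≤ s j ∧ s j ≤ l * N) ∧ E (C ^ N) s}

lemma piece_sub {k : ℕ} (E : ℝ → (Fin k → ℕ) → Prop) (C : ℝ) (l N : ℕ) :
    Piece E C l N ⊆ ((Fintype.piFinset fun _ : Fin k => Finset.Icc N (l * N) : Finset (Fin k → ℕ)) : Set (Fin k → ℕ)) := by
  intro s hs
  rw [Finset.mem_coe, Fintype.mem_piFinset]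
  exact fun i => Finset.mem_Icc.2 (hs.1 i)

lemma piece_finite {k : ℕ} (E : ℝ → (Fin k → ℕ) → Prop) (C : ℝ) (l N : ℕ) : (Piece E C l N).Finite :=
  (Finset.finite_toSet _).subset (piece_sub E C l N)

lemma piece_card {k : ℕ} (E : ℝ → (Fin k → ℕ) → Prop) (C : ℝ) (l N : ℕ) :
    (Piece E C l N).ncard ≤ (l * N + 1) ^ k := by
  have h1 := Set.ncard_le_ncard (piece_sub E C l N) (Finset.finite_toSet _)
  rw [Set.ncard_coe_finset, Fintype.card_piFinset, Finset.prod_const, Finset.card_univ, Fintype.card_fin,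
    Nat.card_Icc] at h1
  exact h1.trans (Nat.pow_le_pow_left (by omega) k)

lemma piece_bound {k : ℕ} (E : ℝ → (Fin k → ℕ) → Prop) (C : ℝ) (l K N₀ : ℕ)
    (h : ∀ N : ℕ, N₀ ≤ N → (Piece E C l N).ncard ≤ K * N ^ (k - 1)) (N : ℕ) :
    (Piece E C l N).ncard ≤ K * N ^ (k - 1) + (l * N₀ + 1) ^ k := by
  rcases le_or_gt N₀ N with h1 | h1
  · exact (h N h1).trans (Nat.le_add_right _ _)
  · refine (piece_card E C l N).trans (le_trans (Nat.pow_le_pow_left ?_ k) (Nat.le_add_left _ _))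
    exact Nat.add_le_add_right (Nat.mul_le_mul_left _ h1.le) 1

/-- the tuples in cones -/
def ConeSet {k : ℕ} (E : ℝ → (Fin k → ℕ) → Prop) (C : ℝ) (l : ℕ) : Set (Fin k → ℕ) :=
  {s | ∃ T : ℕ, 1 ≤ T ∧ (∀ i, T ≤ s i ∧ s i ≤ l * T) ∧ E (C ^ T) s}

lemma cone_sub {k : ℕ} (hk : 1 ≤ k) (E : ℝ → (Fin k → ℕ) → Prop) (mono : ∀ H H' s, H ≤ H' → E H s → E H' s)
    (C : ℝ) (hC : 1 ≤ C) (l : ℕ) (X : ℝ) :
    {t : Fin k → ℕ | t ∈ ConeSet E C l ∧ ∀ i, |(t i : ℝ)| ≤ X} ⊆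
      ⋃ j ∈ Finset.range (Nat.log 2 ⌊X⌋₊ + 1), Piece E (C ^ 2) (2 * l) (2 ^ j) := by
  rintro s ⟨⟨T, hT, hs, hE⟩, h2⟩
  have hT0 : T ≠ 0 := by omega
  have hT2 : 2 ^ Nat.log 2 T ≤ T := Nat.pow_log_le_self 2 hT0
  have hT3 : T < 2 ^ (Nat.log 2 T + 1) := Nat.lt_pow_succ_log_self one_lt_two T
  rw [pow_succ, mul_comm] at hT3
  simp only [Set.mem_iUnion]
  refine ⟨Nat.log 2 T, ?_, ?_, ?_⟩
  · rw [Finset.mem_range, Nat.lt_succ_iff]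
    apply Nat.log_mono_right
    apply Nat.le_floor
    have h3 : (T : ℝ) ≤ (s ⟨0, hk⟩ : ℝ) := by exact_mod_cast (hs ⟨0, hk⟩).1
    exact h3.trans ((le_abs_self _).trans (h2 _))
  · intro i
    refine ⟨hT2.trans (hs i).1, (hs i).2.trans ?_⟩
    calc l * T ≤ l * (2 * 2 ^ Nat.log 2 T) := Nat.mul_le_mul_left _ hT3.le
      _ = 2 * l * 2 ^ Nat.log 2 T := by ring
  · refine mono _ _ s ?_ hE
    rw [← pow_mul]
    exact pow_le_pow_right₀ hC hT3.le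

lemma cone_count {k : ℕ} (hk : 1 ≤ k) (E : ℝ → (Fin k → ℕ) → Prop) (mono : ∀ H H' s, H ≤ H' → E H s → E H' s)
    (C : ℝ) (hC : 1 ≤ C) (l K N₀ : ℕ)
    (h : ∀ N : ℕ, N₀ ≤ N → (Piece E (C ^ 2) (2 * l) N).ncard ≤ K * N ^ (k - 1)) (X : ℝ) (hX : 1 ≤ X) :
    {t : Fin k → ℕ | t ∈ ConeSet E C l ∧ ∀ i, |(t i : ℝ)| ≤ X}.Finite ∧
      ({t : Fin k → ℕ | t ∈ ConeSet E C l ∧ ∀ i, |(t i : ℝ)| ≤ X}.ncard : ℝ) ≤
        ((Nat.log 2 ⌊X⌋₊ + 1 : ℕ) : ℝ) * ((K + ((2 * l * N₀ + 1) ^ k : ℕ)) * X ^ ((k : ℝ) - 1)) := by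
  have hX0 : 0 < X := by linarith
  have hk1 : (1 : ℝ) ≤ k := by exact_mod_cast hk
  have hsub := cone_sub hk E mono C hC l X
  have hfin : (⋃ j ∈ Finset.range (Nat.log 2 ⌊X⌋₊ + 1), Piece E (C ^ 2) (2 * l) (2 ^ j)).Finite :=
    Set.Finite.biUnion (Finset.finite_toSet _) fun j _ => piece_finite _ _ _ _
  refine ⟨hfin.subset hsub, ?_⟩
  have h1 := (Set.ncard_le_ncard hsub hfin).trans (Finset.set_ncard_biUnion_le _ _)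
  have hfl : ⌊X⌋₊ ≠ 0 := by
    have : 1 ≤ ⌊X⌋₊ := Nat.le_floor (by exact_mod_cast hX)
    omega
  have h4 : ∀ j ∈ Finset.range (Nat.log 2 ⌊X⌋₊ + 1), ((Piece E (C ^ 2) (2 * l) (2 ^ j)).ncard : ℝ) ≤
      (K + ((2 * l * N₀ + 1) ^ k : ℕ)) * X ^ ((k : ℝ) - 1) := by
    intro j hj
    rw [Finset.mem_range, Nat.lt_succ_iff] at hj
    have h5 : ((2 ^ j : ℕ) : ℝ) ≤ X := by
      have h6 : 2 ^ j ≤ ⌊X⌋₊ := (Nat.pow_le_pow_right (by norm_num) hj).trans (Nat.pow_log_le_self 2 hfl)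
      exact le_trans (by exact_mod_cast h6) (Nat.floor_le hX0.le)
    have h7 : (((2 ^ j : ℕ) : ℝ)) ^ (k - 1) ≤ X ^ ((k : ℝ) - 1) := by
      calc (((2 ^ j : ℕ) : ℝ)) ^ (k - 1) ≤ X ^ (k - 1) := pow_le_pow_left₀ (Nat.cast_nonneg _) h5 _
        _ = X ^ ((k : ℝ) - 1) := by
          rw [← Real.rpow_natCast, Nat.cast_sub hk, Nat.cast_one]
    have h8 : (1 : ℝ) ≤ X ^ ((k : ℝ) - 1) := Real.one_le_rpow hX (by linarith)
    have h10 := piece_bound E (C ^ 2) (2 * l) K N₀ h (2 ^ j)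
    have h9 : ((Piece E (C ^ 2) (2 * l) (2 ^ j)).ncard : ℝ) ≤
        K * (((2 ^ j : ℕ) : ℝ)) ^ (k - 1) + ((2 * l * N₀ + 1) ^ k : ℕ) := by exact_mod_cast h10
    have hK0 : (0 : ℝ) ≤ K := Nat.cast_nonneg _
    have hK1 : (0 : ℝ) ≤ ((2 * l * N₀ + 1) ^ k : ℕ) := Nat.cast_nonneg _
    have e1 := mul_le_mul_of_nonneg_left h7 hK0
    have e2 := mul_le_mul_of_nonneg_left h8 hK1
    rw [mul_one] at e2
    calc _ ≤ _ := h9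
      _ ≤ K * X ^ ((k : ℝ) - 1) + ((2 * l * N₀ + 1) ^ k : ℕ) * X ^ ((k : ℝ) - 1) := add_le_add e1 e2
      _ = _ := by ring
  calc ({t : Fin k → ℕ | t ∈ ConeSet E C l ∧ ∀ i, |(t i : ℝ)| ≤ X}.ncard : ℝ)
      ≤ ((∑ j ∈ Finset.range (Nat.log 2 ⌊X⌋₊ + 1), (Piece E (C ^ 2) (2 * l) (2 ^ j)).ncard : ℕ) : ℝ) := by
        exact_mod_cast h1
    _ = ∑ j ∈ Finset.range (Nat.log 2 ⌊X⌋₊ + 1), ((Piece E (C ^ 2) (2 * l) (2 ^ j)).ncard : ℝ) := by push_cast; rfl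
    _ ≤ ∑ _j ∈ Finset.range (Nat.log 2 ⌊X⌋₊ + 1), ((K + ((2 * l * N₀ + 1) ^ k : ℕ)) * X ^ ((k : ℝ) - 1)) :=
        Finset.sum_le_sum h4
    _ = _ := by rw [Finset.sum_const, Finset.card_range, nsmul_eq_mul]

/-- Let `E H s` be properties of tuples `s` of natural numbers, increasing in `H`, such that for every `l` and `C` there are at most
`K N ^ (k - 1)` tuples in `[N, l N] ^ k` with `E (C ^ N)`, for large `N`. Then the values of functions of two variables avoid the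
tuples `s` in the cones `T ≤ s_i ≤ l T` with `E (C ^ T)`. -/
theorem on_products_cone {k : ℕ} (hk : 1 ≤ k) (E : ℝ → (Fin k → ℕ) → Prop)
    (mono : ∀ H H' s, H ≤ H' → E H s → E H' s)
    (h : ∀ l : ℕ, ∃ K : ℕ, ∀ C : ℝ, ∃ N₀ : ℕ, ∀ N : ℕ, N₀ ≤ N →
      {s : Fin k → ℕ | (∀ j, N ≤ s j ∧ s j ≤ l * N) ∧ E (C ^ N) s}.ncard ≤ K * N ^ (k - 1))
    (C : ℝ) (hC : 1 ≤ C) (l : ℕ) {κ : ℝ} (hκ : 0 ≤ κ) :
    OnProductsV k ((k : ℝ) - 1 + k * κ) κ (fun W x => ∀ (s : Fin k → ℕ) (T : ℕ), 1 ≤ T → (∀ i, T ≤ s i ∧ s i ≤ l * T) →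
      (∀ i, |(s i : ℝ) - x i| ≤ W) → ¬ E (C ^ T) s) := by
  have hk1 : (1 : ℝ) ≤ k := by exact_mod_cast hk
  refine (on_products_v (ConeSet E C l) (fun s i => (s i : ℝ)) (s := (k : ℝ) - 1) (κ := κ) (by linarith) hκ
    (fun ε hε => ?_)).mono (fun W x _ h' s T hT hs hsx hE => h' s hsx ⟨T, hT, hs, hE⟩)
  obtain ⟨K, hK⟩ := h (2 * l)
  obtain ⟨N₀, hN₀⟩ := hK (C ^ 2)
  obtain ⟨L, hL1, hL⟩ := log_bound hε
  refine ⟨L * (K + ((2 * l * N₀ + 1) ^ k : ℕ)), fun X hX => ?_⟩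
  obtain ⟨h1, h2⟩ := cone_count hk E mono C hC l K N₀ hN₀ X hX
  have hX0 : 0 < X := by linarith
  refine ⟨h1, h2.trans ?_⟩
  have h3 : (0 : ℝ) ≤ (K + ((2 * l * N₀ + 1) ^ k : ℕ)) * X ^ ((k : ℝ) - 1) := by positivity
  refine (mul_le_mul_of_nonneg_right (hL X hX) h3).trans (le_of_eq ?_)
  rw [Real.rpow_add hX0]
  ring

end Pool.Agent.U449.BV
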