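import Pool.Agent.U449.BV.M

/-!
# Functions of two variables on dense sets: uniform families, and exceptional sets smaller than every `X / (log X) ^ U`
-/

set_option autoImplicit false

open Finset

namespace Pool.Agent.U449.BV

/-- `OnDense`, with one constant `C` for all elements `ω` of `Ω`. -/
def OnDenseU (e : ℝ → ℝ) {Ω : Type} (P : Ω → ℝ → ℝ → Prop) : Prop :=
  ∃ C : ℝ, ∀ ω : Ω, ∀ (d : ℕ) (X W : ℝ), 1 ≤ W → W ≤ X → ∀ (α β : Type) (A : Finset α) (B : Finset β) (F : α → β → ℝ),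
    (∀ a ∈ A, ∀ b ∈ B, |F a b| ≤ X) → Rare d A B F →
    ({z : α × β | z.1 ∈ A ∧ z.2 ∈ B ∧ ¬ P ω W (F z.1 z.2)}.ncard : ℝ) ^ 2 ≤
      C * d * e X * (X / A.card + W * X / B.card) * ((A.card : ℝ) * B.card) ^ 2

theorem dense_const {T : Type} (S : Set T) (h : T → ℝ) {e : ℝ → ℝ} {K : ℝ}
    (hS : ∀ X : ℝ, 1 ≤ X → {t | t ∈ S ∧ h t ≤ 2 * X}.Finite ∧ ({t | t ∈ S ∧ h t ≤ 2 * X}.ncard : ℝ) ≤ K * X * e X)
    (d : ℕ) (X W : ℝ) (hW : 1 ≤ W) (hWX : W ≤ X) (α β : Type) (A : Finset α) (B : Finset β) (F : α → β → ℝ)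
    (hF : ∀ a ∈ A, ∀ b ∈ B, |F a b| ≤ X) (hR : Rare d A B F) :
    ({z : α × β | z.1 ∈ A ∧ z.2 ∈ B ∧ ∃ t ∈ S, |h t - F z.1 z.2| ≤ W}.ncard : ℝ) ^ 2 ≤
      28 * K * d * e X * (X / A.card + W * X / B.card) * ((A.card : ℝ) * B.card) ^ 2 := by
  have h1 := window h S hW hWX (K * X * e X) (hS X (hW.trans hWX)) hF hR
  have hn0 : 0 ≤ K * X * e X := le_trans (Nat.cast_nonneg _) (hS X (hW.trans hWX)).2
  rcases A.eq_empty_or_nonempty with rfl | hA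
  · refine h1.trans (le_of_eq ?_)
    simp
  rcases B.eq_empty_or_nonempty with rfl | hB
  · refine h1.trans (le_of_eq ?_)
    simp
  have hA0 : (0 : ℝ) < A.card := by exact_mod_cast hA.card_pos
  have hB0 : (0 : ℝ) < B.card := by exact_mod_cast hB.card_pos
  have hd0 : (0 : ℝ) ≤ d := Nat.cast_nonneg d
  have h2 : 4 * ((d : ℝ) * (A.card * B.card) + A.card ^ 2 * (d * (6 * W + 1))) ≤
      28 * d * (A.card * B.card + A.card ^ 2 * W) := by
    have h3 : (d : ℝ) * (A.card * B.card) ≤ 7 * (d * (A.card * B.card)) := by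
      have : 0 ≤ (d : ℝ) * (A.card * B.card) := by positivity
      linarith
    have h4 : (A.card : ℝ) ^ 2 * (d * (6 * W + 1)) ≤ 7 * (A.card ^ 2 * (d * W)) := by
      have h5 : (d : ℝ) * (6 * W + 1) ≤ 7 * (d * W) := by nlinarith
      nlinarith [sq_nonneg (A.card : ℝ)]
    linarith
  refine h1.trans ?_
  calc K * X * e X * B.card * (4 * ((d : ℝ) * (A.card * B.card) + A.card ^ 2 * (d * (6 * W + 1)))) ≤
        K * X * e X * B.card * (28 * d * (A.card * B.card + A.card ^ 2 * W)) :=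
        mul_le_mul_of_nonneg_left h2 (mul_nonneg hn0 hB0.le)
    _ = 28 * K * d * e X * (X / A.card + W * X / B.card) * ((A.card : ℝ) * B.card) ^ 2 := by
        field_simp

/-- Properties of the positive integers, uniformly in a family: exceptions `K x / (log x) ^ s` for `x ≥ x₀`. -/
theorem on_dense_nat_u {Ω : Type} {Good : Ω → ℕ → Prop} {s K : ℝ} (hs : 0 ≤ s) (x₀ : ℕ)
    (h : ∀ ω, ∀ x : ℕ, x₀ ≤ x → ({n : ℕ | 1 ≤ n ∧ n ≤ x ∧ ¬ Good ω n}.ncard : ℝ) ≤ K * (x / Real.log x ^ s)) :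
    OnDenseU (fun X => 1 / (1 + Real.log X) ^ s) (fun ω W x => ∀ n : ℕ, 1 ≤ n → |(n : ℝ) - x| ≤ W → Good ω n) := by
  obtain ⟨M, hM⟩ : ∃ M : ℝ, M = 2 * ((x₀ : ℝ) + 3) := ⟨_, rfl⟩
  refine ⟨28 * (3 * 2 ^ s * |K| + M * (1 + Real.log (x₀ + 3)) ^ s), fun ω d X W hW hWX α β A B F hF hR => ?_⟩
  have hmain := dense_const {n : ℕ | 1 ≤ n ∧ ¬ Good ω n} (fun n => (n : ℝ)) (e := fun X => 1 / (1 + Real.log X) ^ s)
    (K := 3 * 2 ^ s * |K| + M * (1 + Real.log (x₀ + 3)) ^ s) ?_ d X W hW hWX α β A B F hF hR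
  · refine le_trans (le_of_eq ?_) hmain
    congr 3
    ext z
    simp only [Set.mem_ofPred_eq]
    push Not
    refine and_congr_right fun _ => and_congr_right fun _ => ⟨?_, ?_⟩
    · rintro ⟨n, h1, h2, h3⟩
      exact ⟨n, ⟨h1, h3⟩, h2⟩
    · rintro ⟨n, ⟨h1, h3⟩, h2⟩
      exact ⟨n, h1, h2, h3⟩
  intro X hX
  have hX0 : 0 < X := by linarith
  have hlX : 0 ≤ Real.log X := Real.log_nonneg hX
  have hpos : 0 < (1 + Real.log X) ^ s := Real.rpow_pos_of_pos (by linarith) s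
  have hx0' : (0 : ℝ) ≤ x₀ := Nat.cast_nonneg _
  have hl3 : 0 ≤ Real.log ((x₀ : ℝ) + 3) := Real.log_nonneg (by linarith)
  have hM0 : 0 ≤ M := by rw [hM]; linarith
  have hfin : ∀ x : ℕ, {n : ℕ | 1 ≤ n ∧ n ≤ x ∧ ¬ Good ω n}.Finite := fun x => (Set.finite_Iic x).subset fun n hn => hn.2.1
  have hsub : {n : ℕ | n ∈ {n : ℕ | 1 ≤ n ∧ ¬ Good ω n} ∧ (n : ℝ) ≤ 2 * X} ⊆ {n : ℕ | 1 ≤ n ∧ n ≤ ⌊2 * X⌋₊ ∧ ¬ Good ω n} := by
    rintro n ⟨⟨h1, h2⟩, h3⟩
    exact ⟨h1, Nat.le_floor h3, h2⟩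
  refine ⟨(hfin _).subset hsub, ?_⟩
  refine le_trans (Nat.cast_le.2 (Set.ncard_le_ncard hsub (hfin _))) ?_
  have h2 : ((⌊2 * X⌋₊ : ℕ) : ℝ) ≤ 2 * X := Nat.floor_le (by linarith)
  have h3 : X ≤ ((⌊2 * X⌋₊ : ℕ) : ℝ) := by
    have := Nat.lt_floor_add_one (2 * X)
    linarith
  rcases le_or_gt ((x₀ : ℝ) + 3) X with hXx | hXx
  · have h1 : x₀ ≤ ⌊2 * X⌋₊ := Nat.le_floor (by linarith)
    refine (h ω _ h1).trans ?_
    have he : 1 ≤ Real.log X := by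
      rw [Real.le_log_iff_exp_le hX0]
      have := Real.exp_one_lt_d9
      linarith
    have hl : Real.log X ≤ Real.log ((⌊2 * X⌋₊ : ℕ) : ℝ) := Real.log_le_log hX0 h3
    have h5 : 0 < Real.log ((⌊2 * X⌋₊ : ℕ) : ℝ) ^ s := Real.rpow_pos_of_pos (by linarith) s
    have h4 : (1 + Real.log X) ^ s ≤ 2 ^ s * Real.log ((⌊2 * X⌋₊ : ℕ) : ℝ) ^ s := by
      rw [← Real.mul_rpow (by norm_num) (by linarith)]
      exact Real.rpow_le_rpow (by linarith) (by linarith) hs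
    calc K * (((⌊2 * X⌋₊ : ℕ) : ℝ) / Real.log ((⌊2 * X⌋₊ : ℕ) : ℝ) ^ s) ≤
          |K| * (3 * X / Real.log ((⌊2 * X⌋₊ : ℕ) : ℝ) ^ s) := by
            apply mul_le_mul (le_abs_self K) _ (by positivity) (abs_nonneg K)
            exact div_le_div_of_nonneg_right (by linarith) h5.le
      _ ≤ |K| * (3 * X * (2 ^ s / (1 + Real.log X) ^ s)) := by
            apply mul_le_mul_of_nonneg_left _ (abs_nonneg K)
            rw [mul_div_assoc', div_le_div_iff₀ h5 hpos]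
            have h6 : 3 * X * (1 + Real.log X) ^ s ≤ 3 * X * (2 ^ s * Real.log ((⌊2 * X⌋₊ : ℕ) : ℝ) ^ s) :=
              mul_le_mul_of_nonneg_left h4 (by linarith)
            linarith
      _ = 3 * 2 ^ s * |K| * X * (1 / (1 + Real.log X) ^ s) := by ring
      _ ≤ _ := by
            apply mul_le_mul_of_nonneg_right _ (by positivity)
            apply mul_le_mul_of_nonneg_right _ hX0.le
            have : 0 ≤ M * (1 + Real.log ((x₀ : ℝ) + 3)) ^ s := mul_nonneg hM0 (Real.rpow_nonneg (by linarith) s)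
            linarith
  · have h6 : ({n : ℕ | 1 ≤ n ∧ n ≤ ⌊2 * X⌋₊ ∧ ¬ Good ω n}.ncard : ℝ) ≤ M := by
      have h7 : {n : ℕ | 1 ≤ n ∧ n ≤ ⌊2 * X⌋₊ ∧ ¬ Good ω n} ⊆ (↑(Icc 1 ⌊2 * X⌋₊) : Set ℕ) := by
        rintro n ⟨h1, h2, -⟩
        rw [coe_Icc]
        exact ⟨h1, h2⟩
      have h8 := Set.ncard_le_ncard h7 (Finset.finite_toSet _)
      rw [Set.ncard_coe_finset, Nat.card_Icc] at h8
      have h9 : ({n : ℕ | 1 ≤ n ∧ n ≤ ⌊2 * X⌋₊ ∧ ¬ Good ω n}.ncard : ℝ) ≤ ((⌊2 * X⌋₊ : ℕ) : ℝ) := by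
        exact_mod_cast (by omega : {n : ℕ | 1 ≤ n ∧ n ≤ ⌊2 * X⌋₊ ∧ ¬ Good ω n}.ncard ≤ ⌊2 * X⌋₊)
      rw [hM]
      linarith
    refine h6.trans ?_
    have hl : Real.log X ≤ Real.log ((x₀ : ℝ) + 3) := Real.log_le_log hX0 hXx.le
    have h9 : (1 + Real.log X) ^ s ≤ (1 + Real.log ((x₀ : ℝ) + 3)) ^ s := Real.rpow_le_rpow (by linarith) (by linarith) hs
    have h10 : M ≤ M * (1 + Real.log ((x₀ : ℝ) + 3)) ^ s * X * (1 / (1 + Real.log X) ^ s) := by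
      rw [mul_one_div, le_div_iff₀ hpos]
      calc M * (1 + Real.log X) ^ s ≤ M * (1 + Real.log ((x₀ : ℝ) + 3)) ^ s := mul_le_mul_of_nonneg_left h9 hM0
        _ = M * (1 + Real.log ((x₀ : ℝ) + 3)) ^ s * 1 := by ring
        _ ≤ M * (1 + Real.log ((x₀ : ℝ) + 3)) ^ s * X :=
            mul_le_mul_of_nonneg_left hX (mul_nonneg hM0 (Real.rpow_nonneg (by linarith) s))
    refine h10.trans ?_
    apply mul_le_mul_of_nonneg_right _ (by positivity)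
    apply mul_le_mul_of_nonneg_right _ hX0.le
    have : 0 ≤ 3 * 2 ^ s * |K| := by positivity
    linarith

open Classical in
/-- Properties of the integers with at most `x / (log x) ^ U` exceptions, for every `U`. -/
theorem on_dense_int_pow {Good : ℤ → Prop} {U : ℕ}
    (h : ∃ x₀ : ℕ, ∀ x : ℕ, x₀ ≤ x → (((Icc (-(x : ℤ)) x).filter fun k => ¬ Good k).card : ℝ) ≤ x / Real.log x ^ U) :
    OnDense (fun X => 1 / (1 + Real.log X) ^ U) (fun W x => ∀ k : ℤ, |(|k| : ℝ) - x| ≤ W → Good k) := by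
  have key := on_dense_int (Good := Good) (s := (U : ℝ)) (K := 1) (Nat.cast_nonneg U) (by
    obtain ⟨x₀, hx₀⟩ := h
    refine ⟨x₀, fun x hx => ?_⟩
    rw [one_mul, Real.rpow_natCast]
    refine le_trans (le_of_eq ?_) (hx₀ x hx)
    rw [← Set.ncard_coe_finset]
    congr 2
    ext k
    simp only [Set.mem_ofPred_eq, coe_filter, mem_Icc, abs_le])
  simp only [Real.rpow_natCast] at key
  exact key

open Classical in
/-- Properties of the positive integers with at most `x / (log x) ^ U` exceptions, for every `U`. -/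
theorem on_dense_nat_pow {Good : ℕ → Prop} {U : ℕ}
    (h : ∃ x₀ : ℕ, ∀ x : ℕ, x₀ ≤ x → (((Icc 1 x).filter fun k => ¬ Good k).card : ℝ) ≤ x / Real.log x ^ U) :
    OnDense (fun X => 1 / (1 + Real.log X) ^ U) (fun W x => ∀ k : ℕ, 1 ≤ k → |(k : ℝ) - x| ≤ W → Good k) := by
  have key := on_dense_nat (Good := Good) (s := (U : ℝ)) (K := 1) (Nat.cast_nonneg U) (by
    obtain ⟨x₀, hx₀⟩ := h
    refine ⟨x₀, fun x hx => ?_⟩
    rw [one_mul, Real.rpow_natCast]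
    refine le_trans (le_of_eq ?_) (hx₀ x hx)
    rw [← Set.ncard_coe_finset]
    congr 2
    ext k
    simp only [Set.mem_ofPred_eq, coe_filter, mem_Icc]
    tauto)
  simp only [Real.rpow_natCast] at key
  exact key

end Pool.Agent.U449.BV
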