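import Pool.Agent.U449.BV.N

/-!
# Functions of two variables on dense sets: further forms
-/

set_option autoImplicit false

open Finset

namespace Pool.Agent.U449.BV

/-- Properties of the natural numbers: exceptions `K x exp (- c √(log x))`. -/
theorem on_dense_sqrt {Good : ℕ → Prop} {c K : ℝ} (hc : 0 ≤ c)
    (h : ∀ x : ℕ, 1 ≤ x → ({n : ℕ | 1 ≤ n ∧ n ≤ x ∧ ¬ Good n}.ncard : ℝ) ≤ K * x * Real.exp (-(c * √(Real.log x)))) :
    OnDense (fun X => Real.exp (-(c * √(Real.log X)))) (fun W x => ∀ n : ℕ, 1 ≤ n → |(n : ℝ) - x| ≤ W → Good n) := by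
  have key := on_dense_exp (Good := Good) (c := c) (K := K) (β := 1 / 2) hc (by norm_num) (fun x hx => by
    rw [← Real.sqrt_eq_rpow]
    exact h x hx)
  simp only [← Real.sqrt_eq_rpow] at key
  exact key

/-- Properties of the natural numbers, uniformly in a family: exceptions `K x (log log x) ^ A / log x` for `x ≥ 16`. -/
theorem on_dense_loglog {Ω : Type} {Good : Ω → ℕ → Prop} {K ε : ℝ} (hK : 0 ≤ K) (A : ℕ) (hε : 0 < ε) (hε1 : ε ≤ 1)
    (h : ∀ ω, ∀ x : ℕ, 16 ≤ x → ({n : ℕ | 1 ≤ n ∧ n ≤ x ∧ ¬ Good ω n}.ncard : ℝ) ≤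
      K * x * Real.log (Real.log x) ^ A / Real.log x) :
    OnDenseU (fun X => 1 / (1 + Real.log X) ^ (1 - ε)) (fun ω W x => ∀ n : ℕ, 1 ≤ n → |(n : ℝ) - x| ≤ W → Good ω n) := by
  obtain ⟨ε', hε'⟩ : ∃ ε', ε' = ε / (A + 1) := ⟨_, rfl⟩
  have hε'0 : 0 < ε' := by rw [hε']; positivity
  refine on_dense_nat_u (Good := Good) (s := 1 - ε) (K := K * (1 / ε') ^ A) (by linarith) 16 fun ω x hx => (h ω x hx).trans ?_
  have hx16 : (16 : ℝ) ≤ x := by exact_mod_cast hx
  have hx0 : (0 : ℝ) < x := by linarith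
  have hl1 : 1 ≤ Real.log x := by
    rw [Real.le_log_iff_exp_le hx0]
    have := Real.exp_one_lt_d9
    linarith
  have hl0 : 0 < Real.log x := by linarith
  have hll : 0 ≤ Real.log (Real.log x) := Real.log_nonneg hl1
  have h1 : Real.log (Real.log x) ≤ (1 / ε') * Real.log x ^ ε' := by
    have := Real.log_le_rpow_div hl0.le hε'0
    rw [div_eq_mul_one_div, mul_comm] at this
    exact this
  have h2 : Real.log (Real.log x) ^ A ≤ (1 / ε') ^ A * Real.log x ^ ε := by
    calc Real.log (Real.log x) ^ A ≤ ((1 / ε') * Real.log x ^ ε') ^ A := pow_le_pow_left₀ hll h1 A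
      _ = (1 / ε') ^ A * Real.log x ^ (ε' * A) := by
          rw [mul_pow, ← Real.rpow_natCast (Real.log x ^ ε'), ← Real.rpow_mul hl0.le]
      _ ≤ (1 / ε') ^ A * Real.log x ^ ε := by
          apply mul_le_mul_of_nonneg_left _ (by positivity)
          apply Real.rpow_le_rpow_of_exponent_le hl1
          rw [hε', div_mul_eq_mul_div, div_le_iff₀ (by positivity)]
          nlinarith
  have e : Real.log (x : ℝ) ^ (1 - ε) = Real.log x / Real.log x ^ ε := by
    rw [Real.rpow_sub hl0, Real.rpow_one]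
  rw [e]
  have h3 : (0 : ℝ) < Real.log x ^ ε := Real.rpow_pos_of_pos hl0 ε
  calc K * x * Real.log (Real.log x) ^ A / Real.log x ≤ K * x * ((1 / ε') ^ A * Real.log x ^ ε) / Real.log x := by
        apply div_le_div_of_nonneg_right _ hl0.le
        exact mul_le_mul_of_nonneg_left h2 (by positivity)
    _ = K * (1 / ε') ^ A * (x / (Real.log x / Real.log x ^ ε)) := by
        field_simp

end Pool.Agent.U449.BV
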