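import Pool.Agent.U449.BV.O

/-!
# Functions of two variables on dense sets: families of quadratic twists
-/

set_option autoImplicit false

open Finset

namespace Pool.Agent.U449.BV

/-- Properties of the squarefree integers: exceptions `C X (log X) ^ (-δ)`. -/
theorem on_dense_twist {Bad : ℤ → Prop} {δ C : ℝ} (hδ : 0 ≤ δ) (x₀ : ℕ)
    (h : ∀ X : ℕ, x₀ ≤ X → ({d : ℤ | d.natAbs ≤ X ∧ Squarefree d ∧ Bad d}.ncard : ℝ) ≤ C * X * (Real.log X) ^ (-δ)) :
    OnDense (fun X => 1 / (1 + Real.log X) ^ δ) (fun W x => ∀ d : ℤ, |(|d| : ℝ) - x| ≤ W → Squarefree d → ¬ Bad d) := by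
  refine on_dense_int (Good := fun d => Squarefree d → ¬ Bad d) (s := δ) (K := C) hδ ⟨max x₀ 1, fun x hx => ?_⟩
  have h1 := h x ((le_max_left _ _).trans hx)
  have hx1 : (1 : ℝ) ≤ x := by exact_mod_cast (le_max_right _ _).trans hx
  rw [Real.rpow_neg (Real.log_nonneg hx1)] at h1
  have e : C * ((x : ℝ) / Real.log x ^ δ) = C * x * (Real.log x ^ δ)⁻¹ := by ring
  rw [e]
  refine le_trans (le_of_eq ?_) h1
  congr 2
  ext d
  simp only [Set.mem_ofPred_eq]
  have e2 : |d| ≤ (x : ℤ) ↔ d.natAbs ≤ x := by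
    rw [Int.abs_eq_natAbs]
    exact_mod_cast Iff.rfl
  rw [e2]
  tauto

end Pool.Agent.U449.BV
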