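import Pool.Agent.U449.BV.P

/-!
# Functions of two variables: properties which depend on a scale
-/

set_option autoImplicit false

open Finset

namespace Pool.Agent.U449.BV

/-- The basic inequality for one scale. -/
theorem dense_window {T α β : Type} (h : T → ℝ) (S : Set T) {Y W : ℝ} (hW : 1 ≤ W) (hWY : W ≤ Y) (n : ℝ)
    (hS : {t | t ∈ S ∧ h t ≤ 2 * Y}.Finite ∧ ({t | t ∈ S ∧ h t ≤ 2 * Y}.ncard : ℝ) ≤ n) {d : ℕ} {A : Finset α}
    {B : Finset β} {F : α → β → ℝ} (hF : ∀ a ∈ A, ∀ b ∈ B, |F a b| ≤ Y) (hR : Rare d A B F) :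
    ({z : α × β | z.1 ∈ A ∧ z.2 ∈ B ∧ ∃ t ∈ S, |h t - F z.1 z.2| ≤ W}.ncard : ℝ) ^ 2 ≤
      28 * d * n * (1 / A.card + W / B.card) * ((A.card : ℝ) * B.card) ^ 2 := by
  have h1 := window h S hW hWY n hS hF hR
  have hn0 : 0 ≤ n := le_trans (Nat.cast_nonneg _) hS.2
  rcases A.eq_empty_or_nonempty with rfl | hA
  · refine h1.trans (le_of_eq ?_)
    simp
  rcases B.eq_empty_or_nonempty with rfl | hB
  · refine h1.trans (le_of_eq ?_)
    simp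
  have hA0 : (0 : ℝ) < A.card := by exact_mod_cast hA.card_pos
  have hB0 : (0 : ℝ) < B.card := by exact_mod_cast hB.card_pos
  have hd0 : (0 : ℝ) ≤ d := Nat.cast_nonneg d
  have h2 : 4 * ((d : ℝ) * (A.card * B.card) + A.card ^ 2 * (d * (6 * W + 1))) ≤
      28 * d * (A.card * B.card + A.card ^ 2 * W) := by
    have h3 : (d : ℝ) * (A.card * B.card) ≤ 7 * (d * (A.card * B.card)) := by
      have : 0 ≤ (d : ℝ) * (A.card * B.card) := by positivity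
      linarith
    have h4 : (A.card : ℝ) ^ 2 * (d * (6 * W + 1)) ≤ 7 * (A.card ^ 2 * (d * W)) := by
      have h5 : (d : ℝ) * (6 * W + 1) ≤ 7 * (d * W) := by nlinarith
      nlinarith [sq_nonneg (A.card : ℝ)]
    linarith
  refine h1.trans ?_
  calc n * B.card * (4 * ((d : ℝ) * (A.card * B.card) + A.card ^ 2 * (d * (6 * W + 1)))) ≤
        n * B.card * (28 * d * (A.card * B.card + A.card ^ 2 * W)) :=
        mul_le_mul_of_nonneg_left h2 (mul_nonneg hn0 hB0.le)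
    _ = 28 * d * n * (1 / A.card + W / B.card) * ((A.card : ℝ) * B.card) ^ 2 := by
        field_simp

/-- The property `P X W x` at the scale `X` for `W = X ^ κ` and almost all values `x` in `[-X/2, X/2]` of functions of two
variables with few coincidences on arbitrary finite sets of at least `X ^ δ` elements, `e < δ ≤ 1`. -/
def OnProductsX (e κ : ℝ) (P : ℝ → ℝ → ℝ → Prop) : Prop :=
  ∀ δ : ℝ, e < δ → δ ≤ 1 → ∀ d : ℕ, ∃ ρ : ℝ, 0 < ρ ∧ ∃ X₀ : ℝ, ∀ X : ℝ, X₀ ≤ X →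
    ∀ (α β : Type) (A : Finset α) (B : Finset β) (F : α → β → ℝ), X ^ δ ≤ A.card → X ^ δ ≤ B.card →
      (∀ a ∈ A, ∀ b ∈ B, |F a b| ≤ X / 2) → Rare d A B F →
      ({z : α × β | z.1 ∈ A ∧ z.2 ∈ B ∧ ¬ P X (X ^ κ) (F z.1 z.2)}.ncard : ℝ) ≤ X ^ (-ρ) * (A.card * B.card)

theorem on_products_scale {Good : ℝ → ℤ → Prop} {s κ C : ℝ} (hs : 0 < s) (hκ : 0 ≤ κ)
    (h : ∀ X : ℝ, 2 ≤ X → ({q : ℤ | |(q : ℝ)| ≤ X ∧ ¬ Good X q}.ncard : ℝ) ≤ C * X ^ s) :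
    OnProductsX (s + κ) κ (fun X W x => ∀ q : ℤ, |(|q| : ℝ) - x| ≤ W → Good X q) := by
  intro δ hδ hδ1 d
  obtain ⟨ρ, hρ⟩ : ∃ ρ, ρ = (δ - s - κ) / 2 := ⟨_, rfl⟩
  have hρ0 : 0 < ρ := by rw [hρ]; linarith
  refine ⟨ρ / 2, by linarith, max (max 2 ((2 : ℝ) ^ (1 / (1 - κ)))) ((56 * d * |C| + 1) ^ (1 / ρ)), ?_⟩
  intro X hX α β A B F hA hB hF hR
  have hX2 : 2 ≤ X := (le_max_left _ _).trans ((le_max_left _ _).trans hX)
  have hX0 : 0 < X := by linarith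
  have hκ1 : κ < 1 := by linarith
  have hd0 : (0 : ℝ) ≤ d := Nat.cast_nonneg d
  have hW1 : 1 ≤ X ^ κ := Real.one_le_rpow (by linarith) hκ
  have hWX : X ^ κ ≤ X / 2 := by
    have h1 : (2 : ℝ) ^ (1 / (1 - κ)) ≤ X := (le_max_right _ _).trans ((le_max_left _ _).trans hX)
    have h2 : 2 ≤ X ^ (1 - κ) := by
      calc (2 : ℝ) = ((2 : ℝ) ^ (1 / (1 - κ))) ^ (1 - κ) := by
            rw [← Real.rpow_mul (by norm_num), one_div_mul_cancel (by linarith), Real.rpow_one]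
        _ ≤ X ^ (1 - κ) := Real.rpow_le_rpow (by positivity) h1 (by linarith)
    have h3 : X ^ κ * X ^ (1 - κ) = X := by
      rw [← Real.rpow_add hX0]
      norm_num
    have h4 : 0 < X ^ κ := by positivity
    nlinarith
  have hfin : {q : ℤ | |(q : ℝ)| ≤ X ∧ ¬ Good X q}.Finite := by
    refine (Set.finite_Icc (-(⌈X⌉₊ : ℤ)) (⌈X⌉₊ : ℤ)).subset fun q hq => ?_
    rw [Set.mem_Icc, ← abs_le]
    have h1 : |(q : ℝ)| ≤ ⌈X⌉₊ := hq.1.trans (Nat.le_ceil _)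
    exact_mod_cast h1
  have hset : {t : ℤ | t ∈ {q : ℤ | |(q : ℝ)| ≤ X ∧ ¬ Good X q} ∧ (|t| : ℝ) ≤ 2 * (X / 2)} =
      {q : ℤ | |(q : ℝ)| ≤ X ∧ ¬ Good X q} := by
    ext t
    simp only [Set.mem_ofPred_eq]
    constructor
    · exact fun h' => h'.1
    · exact fun h' => ⟨h', by linarith [h'.1]⟩
  have h1 := dense_window (T := ℤ) (fun t => (|t| : ℝ)) {q : ℤ | |(q : ℝ)| ≤ X ∧ ¬ Good X q} hW1 hWX (C * X ^ s)
    (by rw [hset]; exact ⟨hfin, h X hX2⟩) hF hR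
  obtain ⟨N, hN⟩ : ∃ N : ℝ, N = ({z : α × β | z.1 ∈ A ∧ z.2 ∈ B ∧
    ¬ ∀ q : ℤ, |(|q| : ℝ) - F z.1 z.2| ≤ X ^ κ → Good X q}.ncard : ℝ) := ⟨_, rfl⟩
  have hNle : N ^ 2 ≤ 28 * d * (C * X ^ s) * (1 / A.card + X ^ κ / B.card) * ((A.card : ℝ) * B.card) ^ 2 := by
    refine le_trans ?_ h1
    rw [hN]
    refine pow_le_pow_left₀ (Nat.cast_nonneg _) (Nat.cast_le.2 (Set.ncard_le_ncard ?_ ?_)) 2
    · rintro z ⟨hz1, hz2, hz3⟩
      push Not at hz3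
      obtain ⟨q, hq1, hq2⟩ := hz3
      refine ⟨hz1, hz2, q, ⟨?_, hq2⟩, hq1⟩
      have h5 := hF _ hz1 _ hz2
      rw [abs_le] at h5 hq1
      linarith [hq1.2, h5.2]
    · apply (A ×ˢ B).finite_toSet.subset
      rintro z ⟨hz1, hz2, -⟩
      rw [mem_coe, mem_product]
      exact ⟨hz1, hz2⟩
  change ({z : α × β | z.1 ∈ A ∧ z.2 ∈ B ∧ ¬ ∀ q : ℤ, |(|q| : ℝ) - F z.1 z.2| ≤ X ^ κ → Good X q}.ncard : ℝ) ≤ _
  rw [← hN]
  have hN0 : 0 ≤ N := by rw [hN]; exact Nat.cast_nonneg _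
  have hAB0 : 0 ≤ (A.card : ℝ) * B.card := by positivity
  have hXδ : 0 < X ^ δ := Real.rpow_pos_of_pos hX0 δ
  have hA0 : (0 : ℝ) < A.card := lt_of_lt_of_le hXδ hA
  have hB0 : (0 : ℝ) < B.card := lt_of_lt_of_le hXδ hB
  have h6 : 1 / (A.card : ℝ) + X ^ κ / B.card ≤ 2 * X ^ (κ - δ) := by
    have h7 : 1 / (A.card : ℝ) ≤ X ^ (κ - δ) := by
      rw [Real.rpow_sub hX0]
      exact div_le_div₀ (by positivity) hW1 hXδ hA
    have h8 : X ^ κ / (B.card : ℝ) ≤ X ^ (κ - δ) := by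
      rw [Real.rpow_sub hX0]
      exact div_le_div_of_nonneg_left (by positivity) hXδ hB
    linarith
  have h9 : N ^ 2 ≤ (56 * d * |C|) * X ^ (-(2 * ρ)) * ((A.card : ℝ) * B.card) ^ 2 := by
    refine hNle.trans ?_
    apply mul_le_mul_of_nonneg_right _ (by positivity)
    have e : X ^ (-(2 * ρ)) = X ^ s * X ^ (κ - δ) := by
      rw [← Real.rpow_add hX0, hρ]
      congr 1
      ring
    rw [e]
    calc 28 * (d : ℝ) * (C * X ^ s) * (1 / A.card + X ^ κ / B.card) ≤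
          28 * (d : ℝ) * (|C| * X ^ s) * (2 * X ^ (κ - δ)) := by
          apply mul_le_mul _ h6 (by positivity) (by positivity)
          apply mul_le_mul_of_nonneg_left _ (by positivity)
          exact mul_le_mul_of_nonneg_right (le_abs_self C) (by positivity)
      _ = _ := by ring
  have h10 : 56 * d * |C| + 1 ≤ X ^ ρ := by
    have h11 : (56 * d * |C| + 1) ^ (1 / ρ) ≤ X := (le_max_right _ _).trans hX
    calc 56 * d * |C| + 1 = ((56 * d * |C| + 1) ^ (1 / ρ)) ^ ρ := by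
          rw [← Real.rpow_mul (by positivity), one_div_mul_cancel hρ0.ne', Real.rpow_one]
      _ ≤ X ^ ρ := Real.rpow_le_rpow (by positivity) h11 hρ0.le
  have h12 : N ^ 2 ≤ (X ^ (-(ρ / 2)) * ((A.card : ℝ) * B.card)) ^ 2 := by
    refine h9.trans ?_
    rw [mul_pow (X ^ (-(ρ / 2))) ((A.card : ℝ) * B.card) 2]
    apply mul_le_mul_of_nonneg_right _ (by positivity)
    have e1 : (X ^ (-(ρ / 2))) ^ 2 = X ^ (-ρ) := by
      rw [← Real.rpow_natCast, ← Real.rpow_mul hX0.le]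
      congr 1
      push_cast
      ring
    have e2 : X ^ (-(2 * ρ)) = X ^ (-ρ) * X ^ (-ρ) := by
      rw [← Real.rpow_add hX0]
      congr 1
      ring
    rw [e1, e2]
    have h13 : 56 * d * |C| * X ^ (-ρ) ≤ 1 := by
      rw [Real.rpow_neg hX0.le, ← div_eq_mul_inv, div_le_one (Real.rpow_pos_of_pos hX0 ρ)]
      linarith
    have h14 : 0 ≤ X ^ (-ρ) := by positivity
    nlinarith
  exact abs_le_of_sq_le_sq' h12 (by positivity) |>.2

end Pool.Agent.U449.BV
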