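import Pool.Agent.U449.BV.VU

/-!
# Vector functions of two variables: sets with `O(N ^ m)` elements in the boxes `[-N, N] ^ k`
-/

set_option autoImplicit false

open Finset

namespace Pool.Agent.U449.BV

/-- sets of objects `t` of size `h t ∈ ℤ ^ k` with at most `C (2 N + 1) ^ m` elements in the box `[-N, N] ^ k` -/
theorem on_products_box_gen {k m : ℕ} {T : Type} (S : Set T) (h : T → Fin k → ℤ) (C : ℕ) {κ : ℝ} (hκ : 0 ≤ κ)
    (hS : ∀ N : ℕ, {t : T | (∀ e, |h t e| ≤ (N : ℤ)) ∧ t ∈ S}.Finite ∧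
      {t : T | (∀ e, |h t e| ≤ (N : ℤ)) ∧ t ∈ S}.ncard ≤ C * (2 * N + 1) ^ m) :
    OnProductsV k ((m : ℝ) + k * κ) κ (fun W x => ∀ t : T, (∀ i, |(h t i : ℝ) - x i| ≤ W) → t ∉ S) := by
  refine on_products_v S (fun t i => (h t i : ℝ)) (s := (m : ℝ)) (Nat.cast_nonneg m) hκ fun ε hε => ?_
  refine ⟨C * 3 ^ m, fun X hX => ?_⟩
  have hX0 : 0 < X := by linarith
  obtain ⟨N, hN⟩ : ∃ N : ℕ, N = ⌊X⌋₊ := ⟨_, rfl⟩
  have hNX : (N : ℝ) ≤ X := by rw [hN]; exact Nat.floor_le hX0.le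
  have hsub : {t : T | t ∈ S ∧ ∀ i, |(h t i : ℝ)| ≤ X} ⊆ {t : T | (∀ e, |h t e| ≤ (N : ℤ)) ∧ t ∈ S} := by
    rintro t ⟨h1, h2⟩
    refine ⟨fun e => ?_, h1⟩
    have h3 : ((|h t e|).toNat : ℝ) ≤ X := by
      have e1 : (((|h t e|).toNat : ℕ) : ℝ) = |(h t e : ℝ)| := by
        have e2 : (((|h t e|).toNat : ℕ) : ℤ) = |h t e| := Int.toNat_of_nonneg (abs_nonneg _)
        calc (((|h t e|).toNat : ℕ) : ℝ) = ((((|h t e|).toNat : ℕ) : ℤ) : ℝ) := by push_cast; rfl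
          _ = ((|h t e| : ℤ) : ℝ) := by rw [e2]
          _ = |(h t e : ℝ)| := Int.cast_abs
      rw [e1]
      exact h2 e
    have h4 : (|h t e|).toNat ≤ N := by rw [hN]; exact Nat.le_floor h3
    have h5 : (((|h t e|).toNat : ℕ) : ℤ) = |h t e| := Int.toNat_of_nonneg (abs_nonneg _)
    rw [← h5]
    exact_mod_cast h4
  obtain ⟨h1, h2⟩ := hS N
  refine ⟨h1.subset hsub, ?_⟩
  calc ({t : T | t ∈ S ∧ ∀ i, |(h t i : ℝ)| ≤ X}.ncard : ℝ) ≤ ({t : T | (∀ e, |h t e| ≤ (N : ℤ)) ∧ t ∈ S}.ncard : ℝ) :=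
        Nat.cast_le.2 (Set.ncard_le_ncard hsub h1)
    _ ≤ ((C * (2 * N + 1) ^ m : ℕ) : ℝ) := Nat.cast_le.2 h2
    _ = C * (2 * N + 1) ^ m := by push_cast; rfl
    _ ≤ C * (3 * X) ^ m := by
        apply mul_le_mul_of_nonneg_left _ (Nat.cast_nonneg C)
        exact pow_le_pow_left₀ (by positivity) (by linarith) m
    _ = C * 3 ^ m * X ^ (m : ℝ) := by rw [mul_pow, Real.rpow_natCast]; ring
    _ ≤ C * 3 ^ m * X ^ ((m : ℝ) + ε) := by
        apply mul_le_mul_of_nonneg_left _ (by positivity)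
        exact Real.rpow_le_rpow_of_exponent_le hX (by linarith)

/-- sets of integral vectors with at most `C (2 N + 1) ^ m` elements in the box `[-N, N] ^ k` -/
theorem on_products_box {k m : ℕ} (S : Set (Fin k → ℤ)) (C : ℕ) {κ : ℝ} (hκ : 0 ≤ κ)
    (hS : ∀ N : ℕ, {n : Fin k → ℤ | (∀ e, |n e| ≤ (N : ℤ)) ∧ n ∈ S}.ncard ≤ C * (2 * N + 1) ^ m) :
    OnProductsV k ((m : ℝ) + k * κ) κ (fun W x => ∀ n : Fin k → ℤ, (∀ i, |(n i : ℝ) - x i| ≤ W) → n ∉ S) := by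
  refine on_products_box_gen S (fun n => n) C hκ fun N => ⟨?_, hS N⟩
  apply (Set.Finite.pi' fun _ : Fin k => Set.finite_Icc (-(N : ℤ)) (N : ℤ)).subset
  intro n hn i
  exact abs_le.1 (hn.1 i)

lemma card_Icc_neg (N : ℕ) : (Icc (-(N : ℤ)) (N : ℤ)).card = 2 * N + 1 := by
  rw [Int.card_Icc]
  omega

/-- sets of integral vectors which are sparse in all product sets -/
theorem on_products_pi {k : ℕ} (S : Set (Fin k → ℤ)) (c : Fin k → ℕ) {κ : ℝ} (hκ : 0 ≤ κ)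
    (hS : ∀ A : Fin k → Finset ℤ, {a : Fin k → ℤ | (∀ e, a e ∈ A e) ∧ a ∈ S}.ncard ≤
      ∑ e, c e * ∏ e' ∈ univ.erase e, (A e').card) :
    OnProductsV k (((k - 1 : ℕ) : ℝ) + k * κ) κ (fun W x => ∀ n : Fin k → ℤ, (∀ i, |(n i : ℝ) - x i| ≤ W) → n ∉ S) := by
  refine on_products_box S (∑ e, c e) hκ fun N => ?_
  have h1 := hS fun _ => Icc (-(N : ℤ)) (N : ℤ)
  have e1 : {n : Fin k → ℤ | (∀ e, |n e| ≤ (N : ℤ)) ∧ n ∈ S} = {a : Fin k → ℤ | (∀ e, a e ∈ Icc (-(N : ℤ)) (N : ℤ)) ∧ a ∈ S} := by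
    ext n
    simp only [Set.mem_ofPred_eq, mem_Icc, abs_le]
  rw [e1]
  refine h1.trans (le_of_eq ?_)
  rw [sum_mul]
  refine sum_congr rfl fun e _ => ?_
  rw [prod_const, card_Icc_neg, card_erase_of_mem (mem_univ e), card_univ, Fintype.card_fin]

/-- pairs of integral vectors -/
theorem on_products_pairs {k k' : ℕ} (S : Set ((Fin k → ℤ) × (Fin k' → ℤ))) (c : Fin k → ℕ) (c' : Fin k' → ℕ) {κ : ℝ} (hκ : 0 ≤ κ)
    (hS : ∀ (A : Fin k → Finset ℤ) (A' : Fin k' → Finset ℤ),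
      {p : (Fin k → ℤ) × (Fin k' → ℤ) | ((∀ e, p.1 e ∈ A e) ∧ ∀ e, p.2 e ∈ A' e) ∧ p ∈ S}.ncard ≤
      (∑ e, c e * ∏ e' ∈ univ.erase e, (A e').card) * (∏ e, (A' e).card) +
        (∏ e, (A e).card) * (∑ e, c' e * ∏ e' ∈ univ.erase e, (A' e').card)) :
    OnProductsV (k + k') (((k + k' - 1 : ℕ) : ℝ) + ((k + k' : ℕ) : ℝ) * κ) κ (fun W x => ∀ p : (Fin k → ℤ) × (Fin k' → ℤ),
      (∀ i, |(p.1 i : ℝ) - x (Fin.castAdd k' i)| ≤ W) → (∀ i, |(p.2 i : ℝ) - x (Fin.natAdd k i)| ≤ W) → p ∉ S) := by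
  have key := on_products_box_gen (k := k + k') (m := k + k' - 1) S (fun p => Fin.addCases p.1 p.2)
    (∑ e, c e + ∑ e, c' e) hκ (fun N => ?_)
  · refine key.mono fun W x _ h p h1 h2 => h p fun i => ?_
    refine Fin.addCases (fun i => ?_) (fun i => ?_) i
    · rw [Fin.addCases_left]
      exact h1 i
    · rw [Fin.addCases_right]
      exact h2 i
  · have h1 := hS (fun _ => Icc (-(N : ℤ)) (N : ℤ)) (fun _ => Icc (-(N : ℤ)) (N : ℤ))
    have e1 : {t : (Fin k → ℤ) × (Fin k' → ℤ) | (∀ e, |(Fin.addCases t.1 t.2 : Fin (k + k') → ℤ) e| ≤ (N : ℤ)) ∧ t ∈ S} =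
        {p : (Fin k → ℤ) × (Fin k' → ℤ) | ((∀ e, p.1 e ∈ Icc (-(N : ℤ)) (N : ℤ)) ∧ ∀ e, p.2 e ∈ Icc (-(N : ℤ)) (N : ℤ)) ∧
          p ∈ S} := by
      ext p
      simp only [Set.mem_ofPred_eq, mem_Icc, ← abs_le]
      refine and_congr_left fun _ => ⟨fun h => ⟨fun e => ?_, fun e => ?_⟩, fun h e => ?_⟩
      · have := h (Fin.castAdd k' e)
        rwa [Fin.addCases_left] at this
      · have := h (Fin.natAdd k e)
        rwa [Fin.addCases_right] at this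
      · refine Fin.addCases (fun i => ?_) (fun i => ?_) e
        · rw [Fin.addCases_left]
          exact h.1 i
        · rw [Fin.addCases_right]
          exact h.2 i
    rw [e1]
    constructor
    · apply (Set.Finite.prod (Set.Finite.pi' fun _ : Fin k => Set.finite_Icc (-(N : ℤ)) (N : ℤ))
        (Set.Finite.pi' fun _ : Fin k' => Set.finite_Icc (-(N : ℤ)) (N : ℤ))).subset
      rintro p ⟨⟨h2, h3⟩, -⟩
      refine ⟨fun i => ?_, fun i => ?_⟩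
      · simpa using h2 i
      · simpa using h3 i
    · refine h1.trans (le_of_eq ?_)
      have e2 : ∀ (l : ℕ) (b : Fin l → ℕ), (∑ e : Fin l, b e * ∏ _e' ∈ univ.erase e, (Icc (-(N : ℤ)) (N : ℤ)).card) =
          (∑ e, b e) * (2 * N + 1) ^ (l - 1) := by
        intro l b
        rw [sum_mul]
        refine sum_congr rfl fun e _ => ?_
        rw [prod_const, card_Icc_neg, card_erase_of_mem (mem_univ e), card_univ, Fintype.card_fin]
      rw [e2, e2]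
      simp only [prod_const, card_Icc_neg, card_univ, Fintype.card_fin]
      rcases Nat.eq_zero_or_pos k with rfl | hk
      · simp
      rcases Nat.eq_zero_or_pos k' with rfl | hk'
      · simp
      obtain ⟨l, rfl⟩ : ∃ l, k = l + 1 := ⟨k - 1, by omega⟩
      obtain ⟨l', rfl⟩ : ∃ l', k' = l' + 1 := ⟨k' - 1, by omega⟩
      have e3 : l + 1 + (l' + 1) - 1 = l + l' + 1 := by omega
      rw [e3]
      simp only [Nat.add_sub_cancel]
      ring

end Pool.Agent.U449.BV
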