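import Pool.Agent.U449.BV.Q

/-!
# Functions of two variables on dense sets: exceptional sets of density zero
-/

set_option autoImplicit false

open Finset

namespace Pool.Agent.U449.BV

/-- The objects of `S` have density zero: then, on arbitrary sets `A`, `B` of at least `η X` elements, for all but `η |A| |B|` of the
pairs no object of `S` is near the value of a function with few coincidences. -/
theorem dense_zero {T : Type} (S : Set T) (h : T → ℝ)
    (hS : ∀ ε : ℝ, 0 < ε → ∃ X₀ : ℝ, ∀ X : ℝ, X₀ ≤ X →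
      {t | t ∈ S ∧ h t ≤ X}.Finite ∧ ({t | t ∈ S ∧ h t ≤ X}.ncard : ℝ) ≤ ε * X)
    (η W : ℝ) (d : ℕ) (hη : 0 < η) (hW : 1 ≤ W) :
    ∃ X₀ : ℝ, ∀ X : ℝ, X₀ ≤ X → ∀ (α β : Type) (A : Finset α) (B : Finset β) (F : α → β → ℝ),
      η * X ≤ A.card → η * X ≤ B.card → (∀ a ∈ A, ∀ b ∈ B, |F a b| ≤ X) → Rare d A B F →
      ({z : α × β | z.1 ∈ A ∧ z.2 ∈ B ∧ ∃ t ∈ S, |h t - F z.1 z.2| ≤ W}.ncard : ℝ) ≤ η * (A.card * B.card) := by
  have hc : 0 < 56 * ((d : ℝ) + 1) * (1 + W) := by positivity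
  obtain ⟨ε, hε⟩ : ∃ ε, ε = η ^ 3 / (56 * ((d : ℝ) + 1) * (1 + W)) := ⟨_, rfl⟩
  have hε0 : 0 < ε := by rw [hε]; positivity
  obtain ⟨X₁, hX₁⟩ := hS ε hε0
  refine ⟨max X₁ W, fun X hX α β A B F hA hB hF hR => ?_⟩
  have hXW : W ≤ X := (le_max_right _ _).trans hX
  have hX1 : X₁ ≤ X := (le_max_left _ _).trans hX
  have hX0 : 0 < X := by linarith
  have h1 := dense_window h S hW hXW (ε * (2 * X)) (hX₁ (2 * X) (by linarith)) hF hR
  have hA0 : (0 : ℝ) < A.card := lt_of_lt_of_le (by positivity) hA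
  have hB0 : (0 : ℝ) < B.card := lt_of_lt_of_le (by positivity) hB
  have h2 : 1 / (A.card : ℝ) + W / B.card ≤ (1 + W) / (η * X) := by
    have h3 : 1 / (A.card : ℝ) ≤ 1 / (η * X) := one_div_le_one_div_of_le (by positivity) hA
    have h4 : W / (B.card : ℝ) ≤ W / (η * X) := div_le_div_of_nonneg_left (by linarith) (by positivity) hB
    rw [add_div]
    linarith
  have hd0 : (0 : ℝ) ≤ d := Nat.cast_nonneg d
  have h5 : 28 * (d : ℝ) * (ε * (2 * X)) * (1 / A.card + W / B.card) ≤ η ^ 2 := by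
    calc 28 * (d : ℝ) * (ε * (2 * X)) * (1 / A.card + W / B.card) ≤
          28 * (d : ℝ) * (ε * (2 * X)) * ((1 + W) / (η * X)) := mul_le_mul_of_nonneg_left h2 (by positivity)
      _ ≤ 28 * ((d : ℝ) + 1) * (ε * (2 * X)) * ((1 + W) / (η * X)) := by
          apply mul_le_mul_of_nonneg_right _ (by positivity)
          apply mul_le_mul_of_nonneg_right _ (by positivity)
          linarith
      _ = η ^ 2 := by
          rw [hε]
          have hW1 : (1 + W) ≠ 0 := by positivity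
          have hd1 : ((d : ℝ) + 1) ≠ 0 := by positivity
          field_simp
          ring
  have h6 : ({z : α × β | z.1 ∈ A ∧ z.2 ∈ B ∧ ∃ t ∈ S, |h t - F z.1 z.2| ≤ W}.ncard : ℝ) ^ 2 ≤
      (η * (A.card * B.card)) ^ 2 := by
    have e : (η * ((A.card : ℝ) * B.card)) ^ 2 = η ^ 2 * ((A.card : ℝ) * B.card) ^ 2 := by ring
    rw [e]
    exact h1.trans (mul_le_mul_of_nonneg_right h5 (by positivity))
  exact (pow_le_pow_iff_left₀ (Nat.cast_nonneg _) (by positivity) (by norm_num)).1 h6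

end Pool.Agent.U449.BV
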