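import Pool.Agent.U449.BV.V

/-!
# Vector functions of two variables on dense sets: exceptional sets of density zero
-/

set_option autoImplicit false

open Finset

namespace Pool.Agent.U449.BV

/-- The objects of `S` have density zero: then, on arbitrary sets `A`, `B` of at least `η X ^ k` elements, for all but `η |A| |B|`
of the pairs no object of `S` is near the value of a vector function with few coincidences. -/
theorem dense_zero_v {k : ℕ} {T : Type} (S : Set T) (h : T → Fin k → ℝ)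
    (hS : ∀ ε : ℝ, 0 < ε → ∃ X₀ : ℝ, ∀ X : ℝ, X₀ ≤ X →
      {t | t ∈ S ∧ ∀ i, |h t i| ≤ X}.Finite ∧ ({t | t ∈ S ∧ ∀ i, |h t i| ≤ X}.ncard : ℝ) ≤ ε * X ^ k)
    (η W : ℝ) (d : ℕ) (hη : 0 < η) (hW : 1 ≤ W) :
    ∃ X₀ : ℝ, ∀ X : ℝ, X₀ ≤ X → ∀ (α β : Type) (A : Finset α) (B : Finset β) (F : α → β → Fin k → ℝ),
      η * X ^ k ≤ A.card → η * X ^ k ≤ B.card → (∀ a ∈ A, ∀ b ∈ B, ∀ i, |F a b i| ≤ X) → RareV d A B F →
      ({z : α × β | z.1 ∈ A ∧ z.2 ∈ B ∧ ∃ t ∈ S, ∀ i, |h t i - F z.1 z.2 i| ≤ W}.ncard : ℝ) ≤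
        η * (A.card * B.card) := by
  have hD : 0 < ((d : ℝ) + 1) * (1 + (6 * W + 1) ^ k) := by positivity
  obtain ⟨ε, hε⟩ : ∃ ε, ε = η ^ 3 / (8 ^ k * (((d : ℝ) + 1) * (1 + (6 * W + 1) ^ k))) := ⟨_, rfl⟩
  have hε0 : 0 < ε := by rw [hε]; positivity
  obtain ⟨X₁, hX₁⟩ := hS ε hε0
  refine ⟨max X₁ W, fun X hX α β A B F hA hB hF hR => ?_⟩
  have hXW : W ≤ X := (le_max_right _ _).trans hX
  have hX1 : X₁ ≤ X := (le_max_left _ _).trans hX
  have hX0 : 0 < X := by linarith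
  have h1 := window_v h S hW hXW (ε * (2 * X) ^ k) (hX₁ (2 * X) (by linarith)) hF hR
  have hXk : 0 < X ^ k := by positivity
  have hA0 : (0 : ℝ) < A.card := lt_of_lt_of_le (by positivity) hA
  have hB0 : (0 : ℝ) < B.card := lt_of_lt_of_le (by positivity) hB
  have hd0 : (0 : ℝ) ≤ d := Nat.cast_nonneg d
  have h5 : ε * (2 * X) ^ k * B.card * (4 ^ k * (d * (A.card * B.card) + A.card ^ 2 * (d * (6 * W + 1) ^ k))) ≤
      (η * (A.card * B.card)) ^ 2 := by
    obtain ⟨P, hP⟩ : ∃ P : ℝ, P = (6 * W + 1) ^ k := ⟨_, rfl⟩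
    have hP0 : 0 < P := by rw [hP]; positivity
    rw [← hP]
    have h6 : (d : ℝ) * (A.card * B.card) + A.card ^ 2 * (d * P) =
        d * (A.card * B.card + A.card ^ 2 * P) := by ring
    have e1 : X ^ k * (B.card * (A.card * B.card + A.card ^ 2 * P)) ≤
        (1 + P) * ((A.card : ℝ) * B.card) ^ 2 / η := by
      rw [le_div_iff₀ hη]
      have g1 : η * X ^ k * (A.card * (B.card : ℝ) ^ 2) ≤ A.card * (A.card * (B.card : ℝ) ^ 2) :=
        mul_le_mul_of_nonneg_right hA (by positivity)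
      have g2 : η * X ^ k * (A.card ^ 2 * (B.card : ℝ) * P) ≤ B.card * (A.card ^ 2 * (B.card : ℝ) * P) :=
        mul_le_mul_of_nonneg_right hB (by positivity)
      nlinarith [g1, g2]
    have e2 : (2 * X) ^ k = 2 ^ k * X ^ k := mul_pow _ _ _
    have e3 : (8 : ℝ) ^ k = 2 ^ k * 4 ^ k := by rw [← mul_pow]; norm_num
    have h2k : (0 : ℝ) < 2 ^ k := by positivity
    have h4k : (0 : ℝ) < 4 ^ k := by positivity
    calc ε * (2 * X) ^ k * B.card * (4 ^ k * (d * (A.card * B.card) + A.card ^ 2 * (d * P)))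
        = (ε * (2 ^ k * 4 ^ k) * d) * (X ^ k * (B.card * (A.card * B.card + A.card ^ 2 * P))) := by
          rw [h6, e2]; ring
      _ ≤ (ε * (2 ^ k * 4 ^ k) * (d + 1)) * ((1 + P) * ((A.card : ℝ) * B.card) ^ 2 / η) := by
          apply mul_le_mul _ e1 (by positivity) (by positivity)
          apply mul_le_mul_of_nonneg_left (by linarith) (by positivity)
      _ = (η * (A.card * B.card)) ^ 2 := by
          rw [hε, e3, ← hP]
          have hd1 : ((d : ℝ) + 1) ≠ 0 := by positivity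
          have hP1 : (1 + P) ≠ 0 := by positivity
          field_simp
  exact (pow_le_pow_iff_left₀ (Nat.cast_nonneg _) (by positivity) (by norm_num)).1 (h1.trans h5)

end Pool.Agent.U449.BV
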