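import Pool.Agent.U449.BV.F

set_option autoImplicit false

/-!
# The vector version: tuples of values of functions of two variables with few coincidences
-/

namespace Pool.Agent.U449.BV

open Finset

lemma card_Icc_le (x W : ℝ) (hW : 0 ≤ W) : ((Icc ⌈x - W⌉ ⌊x + W⌋).card : ℝ) ≤ 2 * W + 1 := by
  refine le_trans (le_of_eq ?_) (card_int_near (Icc ⌈x - W⌉ ⌊x + W⌋) x W hW)
  rw [filter_true_of_mem]
  intro m hm
  rw [mem_Icc] at hm
  rw [abs_le]
  have h1 := Int.ceil_le.1 hm.1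
  have h2 := Int.le_floor.1 hm.2
  constructor <;> linarith

lemma card_vec_near {k : ℕ} (E : Finset (Fin k → ℤ)) (x : Fin k → ℝ) (W : ℝ) (hW : 0 ≤ W) :
    ((E.filter fun m : Fin k → ℤ => ∀ i, |(m i : ℝ) - x i| ≤ W).card : ℝ) ≤ (2 * W + 1) ^ k := by
  have hsub : E.filter (fun m : Fin k → ℤ => ∀ i, |(m i : ℝ) - x i| ≤ W) ⊆
      Fintype.piFinset (fun i => Icc ⌈x i - W⌉ ⌊x i + W⌋) := by
    intro m hm
    rw [mem_filter] at hm
    rw [Fintype.mem_piFinset]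
    intro i
    have h1 := hm.2 i
    rw [abs_le] at h1
    rw [mem_Icc]
    exact ⟨Int.ceil_le.2 (by linarith [h1.1]), Int.le_floor.2 (by linarith [h1.2])⟩
  have h1 : ((E.filter fun m : Fin k → ℤ => ∀ i, |(m i : ℝ) - x i| ≤ W).card : ℝ) ≤
      ((Fintype.piFinset (fun i => Icc ⌈x i - W⌉ ⌊x i + W⌋)).card : ℝ) := by
    exact_mod_cast card_le_card hsub
  refine h1.trans ?_
  rw [Fintype.card_piFinset]
  push_cast
  calc ∏ i : Fin k, ((Icc ⌈x i - W⌉ ⌊x i + W⌋).card : ℝ) ≤ ∏ _i : Fin k, (2 * W + 1) :=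
        prod_le_prod (fun i _ => Nat.cast_nonneg _) (fun i _ => card_Icc_le _ _ hW)
    _ = (2 * W + 1) ^ k := by rw [prod_const, card_univ, Fintype.card_fin]

/-- the core inequality, vector version -/
theorem core_v {k : ℕ} {α β : Type*} (A : Finset α) (B : Finset β) (F : α → β → Fin k → ℝ) (E : Finset (Fin k → ℤ))
    (W : ℝ) (hW : 0 ≤ W) (Z : ℝ)
    (hZ : (((A ×ˢ A) ×ˢ B).filter (fun z => ∀ i, |F z.1.1 z.2 i - F z.1.2 z.2 i| ≤ 2 * W)).card ≤ Z) :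
    (((A ×ˢ B).filter (fun z => ∃ m ∈ E, ∀ i, |(m i : ℝ) - F z.1 z.2 i| ≤ W)).card : ℝ) ^ 2 ≤
      E.card * B.card * ((2 * W + 1) ^ k * Z) := by
  classical
  -- the number of the incidences
  set r : (Fin k → ℤ) → β → ℝ := fun m b => ((A.filter fun a => ∀ i, |(m i : ℝ) - F a b i| ≤ W).card : ℝ) with hr
  have h1 : (((A ×ˢ B).filter (fun z => ∃ m ∈ E, ∀ i, |(m i : ℝ) - F z.1 z.2 i| ≤ W)).card : ℝ) ≤
      ∑ z ∈ E ×ˢ B, r z.1 z.2 := by
    have e1 : ∑ z ∈ E ×ˢ B, r z.1 z.2 =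
        ((E ×ˢ (A ×ˢ B)).filter (fun z => ∀ i, |(z.1 i : ℝ) - F z.2.1 z.2.2 i| ≤ W)).card := by
      rw [card_filter]
      push_cast
      rw [sum_product, sum_product]
      refine sum_congr rfl fun m _ => ?_
      rw [sum_product_right]
      refine sum_congr rfl fun b _ => ?_
      rw [hr]
      simp only [card_filter]
      push_cast
      rfl
    rw [e1]
    have hsub : (A ×ˢ B).filter (fun z => ∃ m ∈ E, ∀ i, |(m i : ℝ) - F z.1 z.2 i| ≤ W) ⊆
        ((E ×ˢ (A ×ˢ B)).filter (fun z => ∀ i, |(z.1 i : ℝ) - F z.2.1 z.2.2 i| ≤ W)).image Prod.snd := by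
      intro z hz
      rw [mem_filter] at hz
      obtain ⟨hz1, m, hm, hmz⟩ := hz
      rw [mem_image]
      exact ⟨(m, z), mem_filter.2 ⟨mem_product.2 ⟨hm, hz1⟩, hmz⟩, rfl⟩
    exact_mod_cast (card_le_card hsub).trans card_image_le
  have h2 : (∑ z ∈ E ×ˢ B, r z.1 z.2) ^ 2 ≤ ((E ×ˢ B).card : ℝ) * ∑ z ∈ E ×ˢ B, r z.1 z.2 ^ 2 :=
    sq_sum_le_card_mul_sum_sq
  have h3 : ∑ z ∈ E ×ˢ B, r z.1 z.2 ^ 2 ≤ (2 * W + 1) ^ k * Z := by
    have e1 : ∑ z ∈ E ×ˢ B, r z.1 z.2 ^ 2 = ∑ b ∈ B, ∑ a ∈ A, ∑ a' ∈ A,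
        ((E.filter fun m : Fin k → ℤ => (∀ i, |(m i : ℝ) - F a b i| ≤ W) ∧ ∀ i, |(m i : ℝ) - F a' b i| ≤ W).card : ℝ) := by
      rw [sum_product_right]
      refine sum_congr rfl fun b _ => ?_
      have e2 : ∀ m : Fin k → ℤ, r m b ^ 2 = ∑ a ∈ A, ∑ a' ∈ A,
          (if (∀ i, |(m i : ℝ) - F a b i| ≤ W) ∧ (∀ i, |(m i : ℝ) - F a' b i| ≤ W) then (1 : ℝ) else 0) := by
        intro m
        rw [hr]
        simp only [card_filter]
        push_cast
        rw [sq, sum_mul_sum]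
        refine sum_congr rfl fun a _ => sum_congr rfl fun a' _ => ?_
        by_cases c1 : ∀ i, |(m i : ℝ) - F a b i| ≤ W <;> by_cases c2 : ∀ i, |(m i : ℝ) - F a' b i| ≤ W <;> simp [c1, c2]
      simp_rw [e2]
      rw [sum_comm]
      refine sum_congr rfl fun a _ => ?_
      rw [sum_comm]
      refine sum_congr rfl fun a' _ => ?_
      rw [card_filter]
      push_cast
      rfl
    rw [e1]
    have h4 : ∀ b ∈ B, ∀ a ∈ A, ∀ a' ∈ A,
        ((E.filter fun m : Fin k → ℤ => (∀ i, |(m i : ℝ) - F a b i| ≤ W) ∧ ∀ i, |(m i : ℝ) - F a' b i| ≤ W).card : ℝ) ≤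
        (2 * W + 1) ^ k * (if ∀ i, |F a b i - F a' b i| ≤ 2 * W then (1 : ℝ) else 0) := by
      intro b _ a _ a' _
      by_cases hc : ∀ i, |F a b i - F a' b i| ≤ 2 * W
      · rw [if_pos hc, mul_one]
        refine le_trans ?_ (card_vec_near E (F a b) W hW)
        exact_mod_cast card_le_card (fun m hm => by
          rw [mem_filter] at hm ⊢
          exact ⟨hm.1, hm.2.1⟩)
      · rw [if_neg hc, mul_zero]
        have : E.filter (fun m : Fin k → ℤ => (∀ i, |(m i : ℝ) - F a b i| ≤ W) ∧ ∀ i, |(m i : ℝ) - F a' b i| ≤ W) = ∅ := by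
          rw [filter_eq_empty_iff]
          rintro m _ ⟨g1, g2⟩
          apply hc
          intro i
          have : F a b i - F a' b i = (m i - F a' b i) - (m i - F a b i) := by ring
          rw [this]
          refine (abs_sub _ _).trans ?_
          linarith [g1 i, g2 i]
        rw [this]
        simp
    refine (sum_le_sum fun b hb => sum_le_sum fun a ha => sum_le_sum fun a' ha' => h4 b hb a ha a' ha').trans ?_
    simp_rw [← mul_sum]
    apply mul_le_mul_of_nonneg_left _ (by positivity)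
    refine le_trans (le_of_eq ?_) hZ
    rw [card_filter]
    push_cast
    rw [sum_product_right]
    refine sum_congr rfl fun b _ => ?_
    rw [sum_product]
  have h5 : (0 : ℝ) ≤ (((A ×ˢ B).filter (fun z => ∃ m ∈ E, ∀ i, |(m i : ℝ) - F z.1 z.2 i| ≤ W)).card : ℝ) :=
    Nat.cast_nonneg _
  calc _ ≤ (∑ z ∈ E ×ˢ B, r z.1 z.2) ^ 2 := pow_le_pow_left₀ h5 h1 2
    _ ≤ _ := h2
    _ ≤ ((E ×ˢ B).card : ℝ) * ((2 * W + 1) ^ k * Z) := mul_le_mul_of_nonneg_left h3 (Nat.cast_nonneg _)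
    _ = _ := by rw [card_product]; push_cast; ring

/-- Coincidences are rare, for functions with values in `ℝ ^ k`: for every `a ∈ A`, all the `a' ∈ A` but at most `d`
(`a' = a` is one of these) have the following property: for every `W ≥ 0` the inequalities `|F_i(a, b) - F_i(a', b)| ≤ W`
for all `i` hold for at most `d (2 W + 1) ^ k` of the `b ∈ B`. -/
def RareV {α β : Type} {k : ℕ} (d : ℕ) (A : Finset α) (B : Finset β) (F : α → β → Fin k → ℝ) : Prop :=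
  ∀ a ∈ A, {a' : α | a' ∈ A ∧ ¬ ∀ W : ℝ, 0 ≤ W →
    ({b : β | b ∈ B ∧ ∀ i, |F a b i - F a' b i| ≤ W}.ncard : ℝ) ≤ d * (2 * W + 1) ^ k}.ncard ≤ d

lemma triples_v {k : ℕ} {α β : Type} {d : ℕ} {W : ℝ} (hW : 0 ≤ W) {A : Finset α} {B : Finset β} {F : α → β → Fin k → ℝ}
    (h : RareV d A B F) :
    ((((A ×ˢ A) ×ˢ B).filter (fun z => ∀ i, |F z.1.1 z.2 i - F z.1.2 z.2 i| ≤ W)).card : ℝ) ≤
      d * (A.card * B.card) + A.card ^ 2 * (d * (2 * W + 1) ^ k) := by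
  classical
  have e0 : ((((A ×ˢ A) ×ˢ B).filter (fun z => ∀ i, |F z.1.1 z.2 i - F z.1.2 z.2 i| ≤ W)).card : ℝ) =
      ∑ a ∈ A, ∑ a' ∈ A, ((B.filter fun b => ∀ i, |F a b i - F a' b i| ≤ W).card : ℝ) := by
    rw [card_filter]
    push_cast
    rw [sum_product, sum_product]
    refine sum_congr rfl fun a _ => sum_congr rfl fun a' _ => ?_
    rw [card_filter]
    push_cast
    rfl
  rw [e0]
  have h1 : ∀ a ∈ A, ∑ a' ∈ A, ((B.filter fun b => ∀ i, |F a b i - F a' b i| ≤ W).card : ℝ) ≤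
      d * B.card + A.card * (d * (2 * W + 1) ^ k) := by
    intro a ha
    have h2 : ((A.filter fun a' => (d : ℝ) * (2 * W + 1) ^ k <
        ((B.filter fun b => ∀ i, |F a b i - F a' b i| ≤ W).card : ℝ)).card : ℝ) ≤ d := by
      refine le_trans ?_ (Nat.cast_le.2 (h a ha))
      rw [← Set.ncard_coe_finset]
      apply Nat.cast_le.2
      apply Set.ncard_le_ncard _ (A.finite_toSet.subset fun a' ha' => ha'.1)
      intro a' ha'
      rw [mem_coe, mem_filter] at ha'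
      refine ⟨ha'.1, fun hc => absurd (hc W hW) (not_le.2 ?_)⟩
      refine ha'.2.trans_le (le_of_eq ?_)
      rw [← Set.ncard_coe_finset, coe_filter]
    rw [← sum_filter_add_sum_filter_not A (fun a' => (d : ℝ) * (2 * W + 1) ^ k <
      ((B.filter fun b => ∀ i, |F a b i - F a' b i| ≤ W).card : ℝ))]
    apply add_le_add
    · refine (sum_le_card_nsmul _ _ (B.card : ℝ) fun a' _ => ?_).trans ?_
      · exact_mod_cast card_filter_le _ _
      · rw [nsmul_eq_mul]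
        exact mul_le_mul_of_nonneg_right h2 (Nat.cast_nonneg _)
    · refine (sum_le_card_nsmul _ _ ((d : ℝ) * (2 * W + 1) ^ k) fun a' ha' => ?_).trans ?_
      · rw [mem_filter, not_lt] at ha'
        exact ha'.2
      · rw [nsmul_eq_mul]
        apply mul_le_mul_of_nonneg_right _ (by positivity)
        exact_mod_cast card_filter_le _ _
  refine (sum_le_card_nsmul _ _ _ h1).trans (le_of_eq ?_)
  rw [nsmul_eq_mul]
  ring

/-- one window, vector version -/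
theorem window_v {k : ℕ} {T α β : Type} (h : T → Fin k → ℝ) (S : Set T) {X W : ℝ} (hW : 1 ≤ W) (hWX : W ≤ X) (n : ℝ)
    (hS : {t | t ∈ S ∧ ∀ i, |h t i| ≤ 2 * X}.Finite ∧ ({t | t ∈ S ∧ ∀ i, |h t i| ≤ 2 * X}.ncard : ℝ) ≤ n) {d : ℕ}
    {A : Finset α} {B : Finset β} {F : α → β → Fin k → ℝ} (hF : ∀ a ∈ A, ∀ b ∈ B, ∀ i, |F a b i| ≤ X)
    (hR : RareV d A B F) :
    ({z : α × β | z.1 ∈ A ∧ z.2 ∈ B ∧ ∃ t ∈ S, ∀ i, |h t i - F z.1 z.2 i| ≤ W}.ncard : ℝ) ^ 2 ≤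
      n * B.card * (4 ^ k * (d * (A.card * B.card) + A.card ^ 2 * (d * (6 * W + 1) ^ k))) := by
  classical
  have hW0 : 0 < W := by linarith
  set E : Finset (Fin k → ℤ) := hS.1.toFinset.image (fun t => fun i => round (h t i / W)) with hE
  have hEc : (E.card : ℝ) ≤ n := by
    refine le_trans ?_ hS.2
    rw [Set.ncard_eq_toFinset_card _ hS.1]
    exact_mod_cast card_image_le
  have hZ := triples_v (W := 3 * W) (by linarith) hR
  have hc := core_v A B (fun a b i => F a b i / W) E (3 / 2) (by norm_num)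
    (d * (A.card * B.card) + A.card ^ 2 * (d * (2 * (3 * W) + 1) ^ k)) (by
      refine le_trans (le_of_eq ?_) hZ
      congr 2
      apply filter_congr
      intro z _
      refine forall_congr' fun i => ?_
      have : F z.1.1 z.2 i / W - F z.1.2 z.2 i / W = (F z.1.1 z.2 i - F z.1.2 z.2 i) / W := by ring
      rw [this, abs_div, abs_of_pos hW0, div_le_iff₀ hW0]
      norm_num)
  have hsub : {z : α × β | z.1 ∈ A ∧ z.2 ∈ B ∧ ∃ t ∈ S, ∀ i, |h t i - F z.1 z.2 i| ≤ W} ⊆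
      (((A ×ˢ B).filter (fun z => ∃ m ∈ E, ∀ i, |(m i : ℝ) - F z.1 z.2 i / W| ≤ 3 / 2) : Finset (α × β)) :
        Set (α × β)) := by
    rintro z ⟨hz1, hz2, t, ht, htz⟩
    rw [mem_coe, mem_filter, mem_product]
    refine ⟨⟨hz1, hz2⟩, fun i => round (h t i / W), ?_, fun i => ?_⟩
    · rw [hE, mem_image]
      refine ⟨t, ?_, rfl⟩
      rw [Set.Finite.mem_toFinset]
      refine ⟨ht, fun i => ?_⟩
      have h1 := hF _ hz1 _ hz2 i
      have h2 := htz i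
      have h3 : h t i = (h t i - F z.1 z.2 i) + F z.1 z.2 i := by ring
      rw [h3]
      refine (abs_add_le _ _).trans ?_
      linarith
    · have h1 : |(round (h t i / W) : ℝ) - h t i / W| ≤ 1 / 2 := by
        rw [abs_sub_comm]
        exact abs_sub_round _
      have h2 : |h t i / W - F z.1 z.2 i / W| ≤ 1 := by
        have : h t i / W - F z.1 z.2 i / W = (h t i - F z.1 z.2 i) / W := by ring
        rw [this, abs_div, abs_of_pos hW0, div_le_one hW0]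
        exact htz i
      have h3 : (round (h t i / W) : ℝ) - F z.1 z.2 i / W =
          ((round (h t i / W) : ℝ) - h t i / W) + (h t i / W - F z.1 z.2 i / W) := by ring
      rw [h3]
      refine (abs_add_le _ _).trans ?_
      linarith
  have h1 : ({z : α × β | z.1 ∈ A ∧ z.2 ∈ B ∧ ∃ t ∈ S, ∀ i, |h t i - F z.1 z.2 i| ≤ W}.ncard : ℝ) ≤
      (((A ×ˢ B).filter (fun z => ∃ m ∈ E, ∀ i, |(m i : ℝ) - F z.1 z.2 i / W| ≤ 3 / 2)).card : ℝ) := by
    rw [← Set.ncard_coe_finset]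
    exact_mod_cast Set.ncard_le_ncard hsub (finite_toSet _)
  refine (pow_le_pow_left₀ (Nat.cast_nonneg _) h1 2).trans (hc.trans ?_)
  have e1 : (2 * (3 / 2 : ℝ) + 1) ^ k * (d * (A.card * B.card) + A.card ^ 2 * (d * (2 * (3 * W) + 1) ^ k)) =
      4 ^ k * (d * (A.card * B.card) + A.card ^ 2 * (d * (6 * W + 1) ^ k)) := by
    rw [show (2 * (3 / 2 : ℝ) + 1) = 4 by norm_num, show 2 * (3 * W) + 1 = 6 * W + 1 by ring]
  rw [e1]
  gcongr

/-- the values keep away from small sets, uniformly in the small set; vector version -/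
theorem unif_v {k : ℕ} {s κ δ : ℝ} (hs : 0 ≤ s) (hκ : 0 ≤ κ) (hδ : δ ≤ k) (h1 : s + k * κ < δ) :
    ∃ ρ : ℝ, 0 < ρ ∧ ∀ (C : ℝ) (d : ℕ), ∃ X₀ : ℝ, ∀ X : ℝ, X₀ ≤ X → ∀ (T : Type) (h : T → Fin k → ℝ) (S : Set T),
      (∀ Y : ℝ, 1 ≤ Y → {t | t ∈ S ∧ ∀ i, |h t i| ≤ Y}.Finite ∧
        ({t | t ∈ S ∧ ∀ i, |h t i| ≤ Y}.ncard : ℝ) ≤ C * Y ^ s) →
      ∀ (α β : Type) (A : Finset α) (B : Finset β) (F : α → β → Fin k → ℝ), X ^ δ ≤ A.card → X ^ δ ≤ B.card →
      (∀ a ∈ A, ∀ b ∈ B, ∀ i, |F a b i| ≤ X) → RareV d A B F →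
      ({z : α × β | z.1 ∈ A ∧ z.2 ∈ B ∧ ∃ t ∈ S, ∀ i, |h t i - F z.1 z.2 i| ≤ X ^ κ}.ncard : ℝ) ≤
        X ^ (-ρ) * (A.card * B.card) := by
  have hk0 : (0 : ℝ) < k := by
    by_contra hc
    have h2 : (k : ℝ) = 0 := le_antisymm (not_lt.1 hc) (Nat.cast_nonneg _)
    rw [h2] at hδ h1
    linarith
  obtain ⟨ρ, hρ⟩ : ∃ ρ, ρ = (δ - s - k * κ) / 4 := ⟨_, rfl⟩
  have hρ0 : 0 < ρ := by rw [hρ]; linarith
  refine ⟨ρ, hρ0, fun C d => ?_⟩
  obtain ⟨K, hK⟩ : ∃ K : ℝ, K = 2 * 7 ^ k * 4 ^ k * (|C| * 2 ^ s) * d := ⟨_, rfl⟩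
  obtain ⟨X₁, hX₁⟩ := Filter.eventually_atTop.mp
    ((tendsto_rpow_atTop (show 0 < 2 * ρ by linarith)).eventually_ge_atTop K)
  refine ⟨max X₁ 1, fun X hX T h S hS α β A B F hA hB hF hR => ?_⟩
  have hX1 : 1 ≤ X := (le_max_right _ _).trans hX
  have hX0 : 0 < X := by linarith
  have hW1 : 1 ≤ X ^ κ := Real.one_le_rpow hX1 hκ
  have hκ1 : κ ≤ 1 := by
    have h2 : k * κ ≤ k * 1 := by linarith
    exact le_of_mul_le_mul_left h2 hk0
  have hWX : X ^ κ ≤ X := by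
    calc X ^ κ ≤ X ^ (1 : ℝ) := Real.rpow_le_rpow_of_exponent_le hX1 hκ1
      _ = X := Real.rpow_one X
  have hWk : (X ^ κ) ^ k = X ^ (k * κ) := by
    rw [← Real.rpow_natCast, ← Real.rpow_mul hX0.le, mul_comm]
  obtain ⟨W, hW⟩ : ∃ W, W = X ^ κ := ⟨_, rfl⟩
  rw [← hW] at hW1 hWX hWk ⊢
  obtain ⟨g1, g2⟩ := hS (2 * X) (by linarith)
  have h2 := window_v h S (X := X) (W := W) hW1 hWX (|C| * (2 * X) ^ s) ⟨g1, g2.trans
    (mul_le_mul_of_nonneg_right (le_abs_self C) (by positivity))⟩ hF hR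
  obtain ⟨a, ha⟩ : ∃ a : ℝ, a = A.card := ⟨_, rfl⟩
  obtain ⟨b, hb⟩ : ∃ b : ℝ, b = B.card := ⟨_, rfl⟩
  rw [← ha, ← hb] at h2 ⊢
  rw [← ha] at hA
  rw [← hb] at hB
  have hXδ : 0 < X ^ δ := by positivity
  have ha0 : 0 < a := by linarith
  have hb0 : 0 < b := by linarith
  obtain ⟨c, hc⟩ : ∃ c : ℝ,
    c = ({z : α × β | z.1 ∈ A ∧ z.2 ∈ B ∧ ∃ t ∈ S, ∀ i, |h t i - F z.1 z.2 i| ≤ W}.ncard : ℝ) := ⟨_, rfl⟩
  rw [← hc] at h2 ⊢
  have hc0 : 0 ≤ c := by rw [hc]; positivity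
  have h7 : (6 * W + 1) ^ k ≤ 7 ^ k * W ^ k := by
    rw [← mul_pow]
    exact pow_le_pow_left₀ (by linarith) (by linarith) k
  have h71 : 1 ≤ 7 ^ k * W ^ k := by
    rw [← mul_pow]
    exact one_le_pow₀ (by linarith)
  -- `b + a (6 W + 1) ^ k ≤ a b * 2 * (7 W) ^ k / X ^ δ`
  have h3 : b + a * (6 * W + 1) ^ k ≤ a * b * (2 * 7 ^ k * (W ^ k / X ^ δ)) := by
    have e1 : b ≤ a * b * (1 / X ^ δ) := by
      rw [mul_one_div, le_div_iff₀ hXδ]
      nlinarith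
    have e2 : a ≤ a * b * (1 / X ^ δ) := by
      rw [mul_one_div, le_div_iff₀ hXδ]
      nlinarith
    have e3 : 0 ≤ a * b * (1 / X ^ δ) := by positivity
    calc b + a * (6 * W + 1) ^ k ≤ a * b * (1 / X ^ δ) * 1 + a * b * (1 / X ^ δ) * (6 * W + 1) ^ k := by
          rw [mul_one]
          exact add_le_add e1 (mul_le_mul_of_nonneg_right e2 (by positivity))
      _ = a * b * (1 / X ^ δ) * (1 + (6 * W + 1) ^ k) := by ring
      _ ≤ a * b * (1 / X ^ δ) * (7 ^ k * W ^ k + 7 ^ k * W ^ k) :=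
          mul_le_mul_of_nonneg_left (add_le_add h71 h7) e3
      _ = _ := by ring
  have h4 : c ^ 2 ≤ K * X ^ (-(4 * ρ)) * (a * b) ^ 2 := by
    have e1 : (|C| * (2 * X) ^ s) * b * (4 ^ k * (d * (a * b) + a ^ 2 * (d * (6 * W + 1) ^ k))) =
        4 ^ k * (|C| * (2 * X) ^ s) * d * (a * b) * (b + a * (6 * W + 1) ^ k) := by ring
    rw [e1] at h2
    refine h2.trans ?_
    have e2 : 0 ≤ 4 ^ k * (|C| * (2 * X) ^ s) * d * (a * b) := by positivity
    refine (mul_le_mul_of_nonneg_left h3 e2).trans (le_of_eq ?_)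
    have e3 : X ^ (-(4 * ρ)) = X ^ s * (W ^ k / X ^ δ) := by
      rw [hWk, ← Real.rpow_sub hX0, ← Real.rpow_add hX0, hρ]
      congr 1
      ring
    rw [e3, Real.mul_rpow (by norm_num) hX0.le, hK]
    ring
  have h5 : K * X ^ (-(4 * ρ)) ≤ (X ^ (-ρ)) ^ 2 := by
    have e1 : (X ^ (-ρ)) ^ 2 = X ^ (2 * ρ) * X ^ (-(4 * ρ)) := by
      rw [← Real.rpow_natCast, ← Real.rpow_mul hX0.le, ← Real.rpow_add hX0]
      congr 1
      push_cast
      ring
    rw [e1]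
    exact mul_le_mul_of_nonneg_right (hX₁ X ((le_max_left _ _).trans hX)) (by positivity)
  have h6 : c ^ 2 ≤ (X ^ (-ρ) * (a * b)) ^ 2 := by
    rw [mul_pow]
    exact h4.trans (mul_le_mul_of_nonneg_right h5 (by positivity))
  exact (pow_le_pow_iff_left₀ hc0 (by positivity) (by norm_num)).1 h6

/-- **The tuples of values of functions of two variables.** `OnProductsV k e κ P` is the following statement. Let
`e < δ ≤ k` and `d` be fixed. There is `ρ > 0` such that for all large `X`: let `A` and `B` be ARBITRARY finite sets of at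
least `X ^ δ` elements, and let `F` be ANY function of two variables with values in `[-X, X] ^ k` on `A × B` for which
coincidences are rare (`RareV d A B F`). Then for all the pairs `(a, b)` in `A × B`, apart from a proportion of at most
`X ^ (-ρ)`, the point `x = F a b` has the property `P (X ^ κ) x` (where `X ^ κ` is the length of the window). -/
def OnProductsV (k : ℕ) (e κ : ℝ) (P : ℝ → (Fin k → ℝ) → Prop) : Prop :=
  ∀ δ : ℝ, e < δ → δ ≤ k → ∀ d : ℕ, ∃ ρ : ℝ, 0 < ρ ∧ ∃ X₀ : ℝ, ∀ X : ℝ, X₀ ≤ X →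
    ∀ (α β : Type) (A : Finset α) (B : Finset β) (F : α → β → Fin k → ℝ), X ^ δ ≤ A.card → X ^ δ ≤ B.card →
      (∀ a ∈ A, ∀ b ∈ B, ∀ i, |F a b i| ≤ X) → RareV d A B F →
      ({z : α × β | z.1 ∈ A ∧ z.2 ∈ B ∧ ¬ P (X ^ κ) (F z.1 z.2)}.ncard : ℝ) ≤ X ^ (-ρ) * (A.card * B.card)

theorem OnProductsV.mono {k : ℕ} {e κ : ℝ} {P P' : ℝ → (Fin k → ℝ) → Prop} (h : OnProductsV k e κ P)
    (hP : ∀ W x, 0 ≤ W → P W x → P' W x) : OnProductsV k e κ P' := by
  intro δ hδ hδ1 d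
  obtain ⟨ρ, hρ, X₀, hX₀⟩ := h δ hδ hδ1 d
  refine ⟨ρ, hρ, max X₀ 1, fun X hX α β A B F hA hB hF hR => ?_⟩
  have hX1 : 1 ≤ X := (le_max_right _ _).trans hX
  refine le_trans ?_ (hX₀ X ((le_max_left _ _).trans hX) α β A B F hA hB hF hR)
  have hfin : {z : α × β | z.1 ∈ A ∧ z.2 ∈ B ∧ ¬ P (X ^ κ) (F z.1 z.2)}.Finite := by
    apply (A ×ˢ B).finite_toSet.subset
    rintro z ⟨h1, h2, -⟩
    rw [mem_coe, mem_product]
    exact ⟨h1, h2⟩
  apply Nat.cast_le.2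
  apply Set.ncard_le_ncard _ hfin
  rintro z ⟨h1, h2, h3⟩
  exact ⟨h1, h2, fun hc => h3 (hP _ _ (Real.rpow_nonneg (by linarith) _) hc)⟩

/-- the objects `t` of size `h t ∈ ℝ ^ k` near the values are not in `S` -/
theorem on_products_v {k : ℕ} {T : Type} (S : Set T) (h : T → Fin k → ℝ) {s κ : ℝ} (hs : 0 ≤ s) (hκ : 0 ≤ κ)
    (hS : ∀ ε : ℝ, 0 < ε → ∃ C : ℝ, ∀ X : ℝ, 1 ≤ X →
      {t | t ∈ S ∧ ∀ i, |h t i| ≤ X}.Finite ∧ ({t | t ∈ S ∧ ∀ i, |h t i| ≤ X}.ncard : ℝ) ≤ C * X ^ (s + ε)) :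
    OnProductsV k (s + k * κ) κ (fun W x => ∀ t, (∀ i, |h t i - x i| ≤ W) → t ∉ S) := by
  intro δ hδ hδ1 d
  obtain ⟨C, hC⟩ := hS ((δ - s - k * κ) / 2) (by linarith)
  obtain ⟨ρ, hρ, H⟩ := unif_v (k := k) (s := s + (δ - s - k * κ) / 2) (κ := κ) (δ := δ) (by linarith) hκ hδ1 (by linarith)
  obtain ⟨X₀, hX₀⟩ := H C d
  refine ⟨ρ, hρ, X₀, fun X hX α β A B F hA hB hF hR => ?_⟩
  refine le_trans (le_of_eq ?_) (hX₀ X hX T h S hC α β A B F hA hB hF hR)
  congr 2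
  ext z
  simp only [Set.mem_ofPred_eq]
  push Not
  refine and_congr_right fun _ => and_congr_right fun _ => ⟨?_, ?_⟩
  · rintro ⟨t, h1, h2⟩
    exact ⟨t, h2, h1⟩
  · rintro ⟨t, h1, h2⟩
    exact ⟨t, h2, h1⟩

/-- sets of tuples of integers `≥ m₀` with a power saving -/
theorem on_products_tuples {k : ℕ} (m₀ : ℕ) (S : Set (Fin k → ℕ)) {s κ C : ℝ} (hs : 0 ≤ s) (hκ : 0 ≤ κ)
    (hS : ∀ X : ℕ, 1 ≤ X → ({w : Fin k → ℕ | (∀ i, m₀ ≤ w i ∧ w i ≤ X) ∧ w ∈ S}.ncard : ℝ) ≤ C * (X : ℝ) ^ s) :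
    OnProductsV k (s + k * κ) κ
      (fun W x => ∀ w : Fin k → ℕ, (∀ i, m₀ ≤ w i) → (∀ i, |(w i : ℝ) - x i| ≤ W) → w ∉ S) := by
  refine (on_products_v {w : Fin k → ℕ | (∀ i, m₀ ≤ w i) ∧ w ∈ S} (fun w i => (w i : ℝ)) hs hκ ?_).mono
    (fun W x _ h' w hw hwx hwS => h' w hwx ⟨hw, hwS⟩)
  intro ε hε
  refine ⟨|C|, fun X hX => ?_⟩
  have hX0 : 0 < X := by linarith
  have hX1 : 1 ≤ ⌊X⌋₊ := Nat.le_floor (by exact_mod_cast hX)
  have hsub : {w : Fin k → ℕ | w ∈ {w : Fin k → ℕ | (∀ i, m₀ ≤ w i) ∧ w ∈ S} ∧ ∀ i, |(w i : ℝ)| ≤ X} ⊆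
      {w : Fin k → ℕ | (∀ i, m₀ ≤ w i ∧ w i ≤ ⌊X⌋₊) ∧ w ∈ S} := by
    rintro w ⟨⟨h1, h2⟩, h3⟩
    refine ⟨fun i => ⟨h1 i, Nat.le_floor ?_⟩, h2⟩
    have := h3 i
    rwa [abs_of_nonneg (Nat.cast_nonneg _)] at this
  have hfin : {w : Fin k → ℕ | (∀ i, m₀ ≤ w i ∧ w i ≤ ⌊X⌋₊) ∧ w ∈ S}.Finite := by
    apply (Fintype.piFinset fun _ : Fin k => Finset.range (⌊X⌋₊ + 1)).finite_toSet.subset
    rintro w ⟨h1, -⟩
    rw [mem_coe, Fintype.mem_piFinset]
    intro i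
    rw [Finset.mem_range]
    have := (h1 i).2
    omega
  refine ⟨hfin.subset hsub, ?_⟩
  have h1 : ({w : Fin k → ℕ | w ∈ {w : Fin k → ℕ | (∀ i, m₀ ≤ w i) ∧ w ∈ S} ∧ ∀ i, |(w i : ℝ)| ≤ X}.ncard : ℝ) ≤
      ({w : Fin k → ℕ | (∀ i, m₀ ≤ w i ∧ w i ≤ ⌊X⌋₊) ∧ w ∈ S}.ncard : ℝ) := by
    exact_mod_cast Set.ncard_le_ncard hsub hfin
  have h2 : ((⌊X⌋₊ : ℕ) : ℝ) ^ s ≤ X ^ (s + ε) :=
    (Real.rpow_le_rpow (Nat.cast_nonneg _) (Nat.floor_le hX0.le) hs).trans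
      (Real.rpow_le_rpow_of_exponent_le hX (by linarith))
  refine h1.trans ((hS ⌊X⌋₊ hX1).trans ?_)
  exact (mul_le_mul_of_nonneg_right (le_abs_self C) (by positivity)).trans
    (mul_le_mul_of_nonneg_left h2 (abs_nonneg C))

/-- **Coordinates of residues.** Coincidences are rare for the vectors of least residues modulo `p` of the coordinates, with
respect to a basis over the field of `p` elements, of `f(a, b) + g(a) + h(b)`, where `f` is a polynomial over a finite field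
`K ≅ 𝔽_p ^ k` with a mixed monomial and `g`, `h` are arbitrary functions. -/
theorem coordinates (p : ℕ) [Fact p.Prime] (k : ℕ) (K : Type) [Field K] [Algebra (ZMod p) K]
    (e : Module.Basis (Fin k) (ZMod p) K) (d : ℕ) (f : MvPolynomial (Fin 2) K) (hd : f.totalDegree ≤ d)
    (hf : ∃ m ∈ f.support, m 0 ≠ 0 ∧ m 1 ≠ 0) (g h : K → K) (A B : Finset K) :
    RareV d A B (fun a b i => (((e.repr (MvPolynomial.eval ![a, b] f + g a + h b) i).val : ℕ) : ℝ)) := by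
  classical
  obtain ⟨m, hm, hm0, hm1⟩ := hf
  intro a ha
  have hne : cfR f (m 1) - Polynomial.C ((cfR f (m 1)).eval a) ≠ 0 := by
    intro hc
    have h3 := congrArg (fun P => Polynomial.coeff P (m 0)) hc
    simp only [Polynomial.coeff_sub, Polynomial.coeff_zero, Polynomial.coeff_C, if_neg hm0, sub_zero] at h3
    rw [cfR_coeff hm] at h3
    exact (MvPolynomial.mem_support_iff.1 hm) h3
  set G : K → K → Fin k → ℝ :=
    fun a b i => (((e.repr (MvPolynomial.eval ![a, b] f + g a + h b) i).val : ℕ) : ℝ) with hG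
  have hsub : {a' : K | a' ∈ A ∧ ¬ ∀ W : ℝ, 0 ≤ W →
      ({b : K | b ∈ B ∧ ∀ i, |G a b i - G a' b i| ≤ W}.ncard : ℝ) ≤ d * (2 * W + 1) ^ k} ⊆
      ((cfR f (m 1) - Polynomial.C ((cfR f (m 1)).eval a)).roots.toFinset : Set K) := by
    rintro a' ⟨_, h1⟩
    rw [mem_coe, Multiset.mem_toFinset, Polynomial.mem_roots hne, Polynomial.IsRoot, Polynomial.eval_sub,
      Polynomial.eval_C, sub_eq_zero]
    by_contra h2
    apply h1
    intro W hW
    have h3 : 0 < (slR f a - slR f a').natDegree := by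
      rw [Nat.pos_iff_ne_zero]
      intro h0
      have h4 : (slR f a - slR f a').coeff (m 1) = 0 :=
        Polynomial.coeff_eq_zero_of_natDegree_lt (by rw [h0]; exact Nat.pos_of_ne_zero hm1)
      rw [Polynomial.coeff_sub, slR_coeff, slR_coeff, sub_eq_zero] at h4
      exact h2 h4.symm
    have h4 : (slR f a - slR f a').natDegree ≤ d :=
      (Polynomial.natDegree_sub_le _ _).trans (max_le (slR_deg hd a) (slR_deg hd a'))
    -- the possible values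
    set V : Finset K := (Fintype.piFinset fun _ : Fin k => Icc (-⌊W⌋) ⌊W⌋).image
      (fun v => e.equivFun.symm (fun i => ((v i : ℤ) : ZMod p)) - (g a - g a')) with hV
    have hVc : (V.card : ℝ) ≤ (2 * W + 1) ^ k := by
      have h5 : V.card ≤ (Fintype.piFinset fun _ : Fin k => Icc (-⌊W⌋) ⌊W⌋).card := card_image_le
      have h6 : ((Icc (-⌊W⌋) ⌊W⌋).card : ℝ) ≤ 2 * W + 1 := by
        have h7 : (0 : ℤ) ≤ ⌊W⌋ := Int.floor_nonneg.2 hW
        have h8 : ((Icc (-⌊W⌋) ⌊W⌋).card : ℤ) = 2 * ⌊W⌋ + 1 := by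
          rw [Int.card_Icc, Int.toNat_of_nonneg (by omega)]
          ring
        have h9 : ((Icc (-⌊W⌋) ⌊W⌋).card : ℝ) = 2 * (⌊W⌋ : ℝ) + 1 := by exact_mod_cast congrArg (fun z : ℤ => (z : ℝ)) h8
        rw [h9]
        linarith [Int.floor_le W]
      rw [Fintype.card_piFinset, prod_const, card_univ, Fintype.card_fin] at h5
      refine (Nat.cast_le.2 h5).trans ?_
      push_cast
      exact pow_le_pow_left₀ (Nat.cast_nonneg _) h6 k
    have h5 := few_values (slR f a - slR f a') h4 h3 B V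
    have h6 : {b : K | b ∈ B ∧ ∀ i, |G a b i - G a' b i| ≤ W} ⊆
        {b : K | b ∈ B ∧ (slR f a - slR f a').eval b ∈ V} := by
      rintro b ⟨hb, hbW⟩
      refine ⟨hb, ?_⟩
      rw [hV, mem_image]
      refine ⟨fun i => (((e.repr (MvPolynomial.eval ![a, b] f + g a + h b) i).val : ℕ) : ℤ) -
        (((e.repr (MvPolynomial.eval ![a', b] f + g a' + h b) i).val : ℕ) : ℤ), ?_, ?_⟩
      · rw [Fintype.mem_piFinset]
        intro i
        have h7 := hbW i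
        rw [hG] at h7
        simp only at h7
        rw [abs_le] at h7
        rw [mem_Icc]
        constructor
        · have h8 : -((((e.repr (MvPolynomial.eval ![a, b] f + g a + h b) i).val : ℕ) : ℤ) -
            (((e.repr (MvPolynomial.eval ![a', b] f + g a' + h b) i).val : ℕ) : ℤ)) ≤ ⌊W⌋ := by
            apply Int.le_floor.2
            push_cast
            linarith [h7.1]
          omega
        · apply Int.le_floor.2
          push_cast
          linarith [h7.2]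
      · rw [Polynomial.eval_sub, slR_eval, slR_eval]
        have h8 : (fun i => (((((e.repr (MvPolynomial.eval ![a, b] f + g a + h b) i).val : ℕ) : ℤ) -
            (((e.repr (MvPolynomial.eval ![a', b] f + g a' + h b) i).val : ℕ) : ℤ) : ℤ) : ZMod p)) =
            e.equivFun ((MvPolynomial.eval ![a, b] f + g a + h b) - (MvPolynomial.eval ![a', b] f + g a' + h b)) := by
          funext i
          push_cast
          rw [ZMod.natCast_zmod_val, ZMod.natCast_zmod_val, map_sub, Pi.sub_apply]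
          rfl
        rw [h8, LinearEquiv.symm_apply_apply]
        ring
    have hfin : {b : K | b ∈ B ∧ (slR f a - slR f a').eval b ∈ V}.Finite := B.finite_toSet.subset fun b hb => hb.1
    calc ({b : K | b ∈ B ∧ ∀ i, |G a b i - G a' b i| ≤ W}.ncard : ℝ) ≤ ((d * V.card : ℕ) : ℝ) :=
          Nat.cast_le.2 ((Set.ncard_le_ncard h6 hfin).trans h5)
      _ = d * (V.card : ℝ) := by push_cast; ring
      _ ≤ _ := mul_le_mul_of_nonneg_left hVc (Nat.cast_nonneg _)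
  refine (Set.ncard_le_ncard hsub (finite_toSet _)).trans ?_
  rw [Set.ncard_coe_finset]
  refine (Multiset.toFinset_card_le _).trans ((Polynomial.card_roots' _).trans ?_)
  refine (Polynomial.natDegree_sub_le _ _).trans ?_
  rw [Polynomial.natDegree_C, max_eq_left (Nat.zero_le _)]
  exact cfR_deg hd _

end Pool.Agent.U449.BV
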