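import Pool.Agent.R869.SSix
import Pool.Agent.U449.BV.GEN
import Pool.Agent.U449.BV.V

/-!
Typical tuples of monomials: a power saving for the number of the exceptions, and the values of functions of two variables with
few coincidences on arbitrary sets.
-/

set_option autoImplicit false

namespace Pool.Agent.U449.BV

open Finset
open Pool.Agent.R869.Wd

variable {n s : ℕ}

/-- The property `P` holds for all but at most `C d ^ (F - 2 ^ (-F))` of the tuples of monomials of degree `d`, the `i`-th one in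
the variables from `I i`, for all `d ≥ 1`; here `F = ∑ (|I i| - 1)`, and there are about `c d ^ F` tuples. -/
def PowerSaving (I : Fin s → Finset (Fin (n + 1))) (P : ℕ → (Fin s → (Fin (n + 1) →₀ ℕ)) → Prop) : Prop :=
  ∃ C : ℝ, 0 ≤ C ∧ ∀ d : ℕ, 1 ≤ d →
    ({a | a ∈ TuplesIn I d ∧ ¬ P d a}.ncard : ℝ) ≤ C * (d : ℝ) ^ ((fdim I : ℝ) - (1 / 2) ^ fdim I)

/-- ALL `d ≥ 1` and ALL tuples `a` of exponent vectors of degree `d`, the `i`-th one of a monomial in the variables from `I i`,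
such that the degree `d` and the exponents `a i j` of all the variables `j ∈ I i` other than the pivot `piv i` are at a distance
of at most `W` from the coordinates of `x` (the coordinates are numbered by `e`) have the property `P`. -/
def NearTuples {k : ℕ} (I : Fin s → Finset (Fin (n + 1))) (piv : Fin s → Fin (n + 1)) (e : Option (Free I piv) ≃ Fin k)
    (P : ℕ → (Fin s → (Fin (n + 1) →₀ ℕ)) → Prop) (W : ℝ) (x : Fin k → ℝ) : Prop :=
  ∀ (d : ℕ) (a : Fin s → (Fin (n + 1) →₀ ℕ)), 1 ≤ d → a ∈ TuplesIn I d → |(d : ℝ) - x (e none)| ≤ W →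
    (∀ c : Free I piv, |(a c.1.1 c.1.2 : ℝ) - x (e (some c))| ≤ W) → P d a

theorem PowerSaving.mono {I : Fin s → Finset (Fin (n + 1))} {P Q : ℕ → (Fin s → (Fin (n + 1) →₀ ℕ)) → Prop}
    (h : PowerSaving I P) (hPQ : ∀ d a, 1 ≤ d → a ∈ TuplesIn I d → P d a → Q d a) : PowerSaving I Q := by
  obtain ⟨C, hC, h⟩ := h
  refine ⟨C, hC, fun d hd => le_trans ?_ (h d hd)⟩
  have h1 : {a | a ∈ TuplesIn I d ∧ ¬ Q d a} ⊆ {a | a ∈ TuplesIn I d ∧ ¬ P d a} :=
    fun a ha => ⟨ha.1, fun hp => ha.2 (hPQ d a hd ha.1 hp)⟩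
  exact_mod_cast Set.ncard_le_ncard h1 ((tuplesIn_finite I d).subset fun a ha => ha.1)

theorem saving_typI {I : Fin s → Finset (Fin (n + 1))} (hI : ∀ i, (I i).Nonempty)
    {P : ℕ → (Fin s → (Fin (n + 1) →₀ ℕ)) → Prop} (h : ∀ d a, TypI I d a → P d a) : PowerSaving I P := by
  obtain ⟨C, hC, hc⟩ := few_genericI I hI ((s + (n + 1)) *
    (n * Pool.Agent.R869.tri (s + (n + 1) - 1)) + 1)
  refine PowerSaving.mono (P := _) ⟨C, hC, hc⟩
    fun d a _ ha hw => h d a ⟨hI, ha, ⟨s + (n + 1),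
      (s + (n + 1)) * (n * Pool.Agent.R869.tri (s + (n + 1) - 1)) + 1, ?_⟩, hw.2.1, hw.2.2.1,
      hw.2.2.2⟩
  exact { deg := ⟨d, deg_withPowers fun i => (ha i).2⟩
          pos := by omega
          card := card_withPowers d a
          wide := hw.1
          num := Nat.lt_succ_self _ }

/-- the tuples near the values of functions of two variables with few coincidences -/
theorem PowerSaving.mixed {I : Fin s → Finset (Fin (n + 1))}
    {P : ℕ → (Fin s → (Fin (n + 1) →₀ ℕ)) → Prop} (h : PowerSaving I P) (hF : 1 ≤ fdim I) (piv : Fin s → Fin (n + 1))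
    (e : Option (Free I piv) ≃ Fin (fdim I + 1)) {κ : ℝ} (hκ : 0 ≤ κ) :
    OnProductsV (fdim I + 1) ((fdim I : ℝ) + 1 - (1 / 2) ^ fdim I + ((fdim I : ℝ) + 1) * κ) κ (NearTuples I piv e P) := by
  classical
  obtain ⟨C, hC, hc⟩ := h
  obtain ⟨F, hFe⟩ : ∃ F : ℕ, F = fdim I := ⟨_, rfl⟩
  have hσ : (1 / 2 : ℝ) ^ fdim I ≤ 1 / 2 := by
    have := pow_le_pow_of_le_one (a := (1 / 2 : ℝ)) (by norm_num) (by norm_num) hF
    rwa [pow_one] at this
  have hF1 : (1 : ℝ) ≤ (fdim I : ℝ) := by exact_mod_cast hF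
  have hr : 0 ≤ (fdim I : ℝ) - (1 / 2) ^ fdim I := by linarith
  obtain ⟨S, hS⟩ : ∃ S : Set (ℕ × (Fin s → (Fin (n + 1) →₀ ℕ))),
    S = {t | 1 ≤ t.1 ∧ t.2 ∈ TuplesIn I t.1 ∧ ¬ P t.1 t.2} := ⟨_, rfl⟩
  obtain ⟨g, hg⟩ : ∃ g : ℕ × (Fin s → (Fin (n + 1) →₀ ℕ)) → Fin (fdim I + 1) → ℝ,
    g = fun t i => Option.elim (e.symm i) (t.1 : ℝ) (fun c => (t.2 c.1.1 c.1.2 : ℝ)) := ⟨_, rfl⟩
  have hg0 : ∀ t, g t (e none) = (t.1 : ℝ) := by
    intro t
    rw [hg]
    simp
  have hgc : ∀ t c, g t (e (some c)) = (t.2 c.1.1 c.1.2 : ℝ) := by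
    intro t c
    rw [hg]
    simp
  have key := on_products_v (k := fdim I + 1) S g (s := (fdim I : ℝ) + 1 - (1 / 2) ^ fdim I) (by linarith) hκ
    (fun ε hε => by
      refine ⟨C, fun X hX => ?_⟩
      have hX0 : 0 < X := by linarith
      obtain ⟨N, hN⟩ : ∃ N : ℕ, N = ⌊X⌋₊ := ⟨_, rfl⟩
      have hNX : (N : ℝ) ≤ X := by rw [hN]; exact Nat.floor_le hX0.le
      have hfin : ∀ d : ℕ, {a | a ∈ TuplesIn I d ∧ ¬ P d a}.Finite :=
        fun d => (tuplesIn_finite I d).subset fun a ha => ha.1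
      have hsub : {t | t ∈ S ∧ ∀ i, |g t i| ≤ X} ⊆
          ((Icc 1 N).biUnion fun d => (hfin d).toFinset.image fun a => (d, a) :
            Finset (ℕ × (Fin s → (Fin (n + 1) →₀ ℕ)))) := by
        rintro ⟨d, a⟩ ⟨h1, h2⟩
        rw [hS] at h1
        have h3 := h2 (e none)
        rw [hg0, abs_of_nonneg (Nat.cast_nonneg _)] at h3
        rw [mem_coe, mem_biUnion]
        refine ⟨d, mem_Icc.2 ⟨h1.1, ?_⟩, mem_image.2 ⟨a, (hfin d).mem_toFinset.2 h1.2, rfl⟩⟩
        rw [hN]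
        exact Nat.le_floor h3
      have hf := (finite_toSet _).subset hsub
      refine ⟨hf, ?_⟩
      have h1 := Set.ncard_le_ncard hsub (finite_toSet _)
      rw [Set.ncard_coe_finset] at h1
      have h2 : (((Icc 1 N).biUnion fun d => (hfin d).toFinset.image fun a => (d, a)).card : ℝ) ≤
          ∑ d ∈ Icc 1 N, C * X ^ ((fdim I : ℝ) - (1 / 2) ^ fdim I) := by
        have h3 : ((Icc 1 N).biUnion fun d => (hfin d).toFinset.image fun a => (d, a)).card ≤
            ∑ d ∈ Icc 1 N, {a | a ∈ TuplesIn I d ∧ ¬ P d a}.ncard := by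
          refine card_biUnion_le.trans (sum_le_sum fun d _ => ?_)
          rw [Set.ncard_eq_toFinset_card _ (hfin d)]
          exact card_image_le
        refine le_trans (Nat.cast_le.2 h3) ?_
        rw [Nat.cast_sum]
        refine sum_le_sum fun d hd => (hc d (mem_Icc.1 hd).1).trans ?_
        refine mul_le_mul_of_nonneg_left ?_ hC
        refine Real.rpow_le_rpow (Nat.cast_nonneg d) ?_ hr
        exact le_trans (by exact_mod_cast (mem_Icc.1 hd).2) hNX
      rw [sum_const, Nat.card_Icc, nsmul_eq_mul] at h2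
      have h4 : ((N + 1 - 1 : ℕ) : ℝ) ≤ X := by
        rw [Nat.add_sub_cancel]
        exact hNX
      have hp : 0 ≤ C * X ^ ((fdim I : ℝ) - (1 / 2) ^ fdim I) := mul_nonneg hC (Real.rpow_pos_of_pos hX0 _).le
      calc ({t | t ∈ S ∧ ∀ i, |g t i| ≤ X}.ncard : ℝ)
          ≤ ((N + 1 - 1 : ℕ) : ℝ) * (C * X ^ ((fdim I : ℝ) - (1 / 2) ^ fdim I)) :=
            le_trans (by exact_mod_cast h1) h2
        _ ≤ X * (C * X ^ ((fdim I : ℝ) - (1 / 2) ^ fdim I)) := mul_le_mul_of_nonneg_right h4 hp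
        _ = C * X ^ ((fdim I : ℝ) + 1 - (1 / 2) ^ fdim I) := by
            have : (fdim I : ℝ) + 1 - (1 / 2) ^ fdim I = 1 + ((fdim I : ℝ) - (1 / 2) ^ fdim I) := by ring
            rw [this, Real.rpow_add hX0, Real.rpow_one]
            ring
        _ ≤ C * X ^ ((fdim I : ℝ) + 1 - (1 / 2) ^ fdim I + ε) := by
            refine mul_le_mul_of_nonneg_left ?_ hC
            exact Real.rpow_le_rpow_of_exponent_le hX (by linarith))
  have e1 : (fdim I : ℝ) + 1 - (1 / 2) ^ fdim I + (((fdim I + 1 : ℕ) : ℝ)) * κ =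
      (fdim I : ℝ) + 1 - (1 / 2) ^ fdim I + ((fdim I : ℝ) + 1) * κ := by push_cast; ring
  rw [e1] at key
  refine key.mono fun W x _ h' d a hd ha h1 h2 => ?_
  by_contra hcon
  refine h' (d, a) (fun i => ?_) (by rw [hS]; exact ⟨hd, ha, hcon⟩)
  obtain ⟨o, rfl⟩ := e.surjective i
  rcases o with _ | c
  · rw [hg0]
    exact h1
  · rw [hgc]
    exact h2 c

/-- **Typical tuples.** -/
theorem on_typI {I : Fin s → Finset (Fin (n + 1))} (hI : ∀ i, (I i).Nonempty)
    {P : ℕ → (Fin s → (Fin (n + 1) →₀ ℕ)) → Prop} (h : ∀ d a, TypI I d a → P d a) : PowerSaving I P ∧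
    (1 ≤ fdim I → ∀ (piv : Fin s → Fin (n + 1)), (∀ i, piv i ∈ I i) →
      ∀ (e : Option (Free I piv) ≃ Fin (fdim I + 1)) (κ : ℝ), 0 ≤ κ →
        OnProductsV (fdim I + 1) ((fdim I : ℝ) + 1 - (1 / 2) ^ fdim I + ((fdim I : ℝ) + 1) * κ) κ (NearTuples I piv e P)) :=
  ⟨saving_typI hI h, fun hF piv _ e _ hκ => (saving_typI hI h).mixed hF piv e hκ⟩

end Pool.Agent.U449.BV
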