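import Pool.Agent.U449.BV.VU

/-!
# Vector functions of two variables: properties of integer matrices, uniformly in objects of any universe

The form of `OnProductsU` in which the parameter may range over a type of any universe (for example over all number fields), for
properties of `l × N` matrices of integers.
-/

set_option autoImplicit false

open Finset

namespace Pool.Agent.U449.BV

universe u

/-- For all `δ` with `e < δ ≤ k` and all `d` there are `ρ > 0` and `X₀` such that for all `X ≥ X₀` and all `ω : Ω`, for all finite sets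
`A`, `B` with at least `X ^ δ` elements and all vector functions `F` on `A × B` with coordinates bounded by `X` and few coincidences
(`RareV d A B F`), the property `P ω (X ^ κ) (F a b)` holds for all but at most `X ^ (-ρ) |A| |B|` of the pairs. -/
def OnProductsW (k : ℕ) (e κ : ℝ) {Ω : Type u} (P : Ω → ℝ → (Fin k → ℝ) → Prop) : Prop :=
  ∀ δ : ℝ, e < δ → δ ≤ k → ∀ d : ℕ, ∃ ρ : ℝ, 0 < ρ ∧ ∃ X₀ : ℝ, ∀ X : ℝ, X₀ ≤ X → ∀ ω : Ω,
    ∀ (α β : Type) (A : Finset α) (B : Finset β) (F : α → β → Fin k → ℝ), X ^ δ ≤ A.card → X ^ δ ≤ B.card →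
      (∀ a ∈ A, ∀ b ∈ B, ∀ i, |F a b i| ≤ X) → RareV d A B F →
      ({z : α × β | z.1 ∈ A ∧ z.2 ∈ B ∧ ¬ P ω (X ^ κ) (F z.1 z.2)}.ncard : ℝ) ≤ X ^ (-ρ) * (A.card * B.card)

/-- ALL `l × N` matrices `m` of integers at a distance of at most `W` from the vector `x` (read as a matrix) in every entry
satisfy `G`. -/
def NearMatrix {l N : ℕ} (G : (Fin l → Fin N → ℤ) → Prop) (W : ℝ) (x : Fin (l * N) → ℝ) : Prop :=
  ∀ m : Fin l → Fin N → ℤ, (∀ i j, |(m i j : ℝ) - x (finProdFinEquiv (i, j))| ≤ W) → G m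

/-- Properties of matrices of integers for which at most `C T ^ (l N - c)` of the matrices with entries in `[-T, T]` are exceptions,
with `C` uniform in the parameter. -/
theorem on_matrices {l N : ℕ} {Ω : Type u} (G : Ω → (Fin l → Fin N → ℤ) → Prop) {c κ C : ℝ} (hκ : 0 ≤ κ)
    (hS : ∀ ω, ∀ T : ℕ, 1 ≤ T →
      ({m : Fin l → Fin N → ℤ | (∀ i j, |m i j| ≤ (T : ℤ)) ∧ ¬ G ω m}.ncard : ℝ) ≤ C * (T : ℝ) ^ (((l * N : ℕ) : ℝ) - c)) :
    OnProductsW (l * N) (((l * N : ℕ) : ℝ) - min c ((l * N : ℕ) : ℝ) + ((l * N : ℕ) : ℝ) * κ) κ (fun ω => NearMatrix (G ω)) := by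
  have h := on_products_int_saving (k := l * N)
    (Ω := {S : Set (Fin (l * N) → ℤ) // ∀ X : ℕ, 1 ≤ X →
      ({w : Fin (l * N) → ℤ | (∀ i, |w i| ≤ (X : ℤ)) ∧ w ∈ S}.ncard : ℝ) ≤ C * (X : ℝ) ^ (((l * N : ℕ) : ℝ) - c)})
    (fun S => S.1) hκ (fun S => S.2)
  intro δ hδ hδ1 d
  obtain ⟨ρ, hρ, X₀, hX₀⟩ := h δ hδ hδ1 d
  refine ⟨ρ, hρ, X₀, fun X hX ω α β A B F hA hB hF hR => ?_⟩
  have hcnt : ∀ X : ℕ, 1 ≤ X →
      ({w : Fin (l * N) → ℤ | (∀ i, |w i| ≤ (X : ℤ)) ∧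
        w ∈ {w : Fin (l * N) → ℤ | ¬ G ω fun i j => w (finProdFinEquiv (i, j))}}.ncard : ℝ) ≤
        C * (X : ℝ) ^ (((l * N : ℕ) : ℝ) - c) := by
    intro X hX
    refine le_trans (Nat.cast_le.2 ?_) (hS ω X hX)
    have hfin : {m : Fin l → Fin N → ℤ | (∀ i j, |m i j| ≤ (X : ℤ)) ∧ ¬ G ω m}.Finite := by
      apply (Set.Finite.pi' (ι := Fin l) (κ := fun _ => Fin N → ℤ)
        (t := fun _ => {v : Fin N → ℤ | ∀ j, v j ∈ Set.Icc (-(X : ℤ)) X})
        (fun _ => Set.Finite.pi' (fun _ => Set.finite_Icc (-(X : ℤ)) X))).subset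
      rintro m ⟨hm, -⟩ i j
      exact abs_le.1 (hm i j)
    refine Set.ncard_le_ncard_of_injOn (fun w i j => w (finProdFinEquiv (i, j))) ?_ ?_ hfin
    · rintro w ⟨hw1, hw2⟩
      exact ⟨fun i j => hw1 _, hw2⟩
    · intro w _ w' _ h
      funext v
      have e : finProdFinEquiv ((finProdFinEquiv.symm v).1, (finProdFinEquiv.symm v).2) = v := by
        rw [Prod.mk.eta, Equiv.apply_symm_apply]
      have h2 : w (finProdFinEquiv ((finProdFinEquiv.symm v).1, (finProdFinEquiv.symm v).2)) =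
          w' (finProdFinEquiv ((finProdFinEquiv.symm v).1, (finProdFinEquiv.symm v).2)) :=
        congrFun (congrFun h (finProdFinEquiv.symm v).1) (finProdFinEquiv.symm v).2
      rwa [e] at h2
  refine le_trans (Nat.cast_le.2 (Set.ncard_le_ncard ?_ ?_)) (hX₀ X hX ⟨_, hcnt⟩ α β A B F hA hB hF hR)
  · rintro z ⟨h1, h2, h3⟩
    refine ⟨h1, h2, fun h4 => h3 fun m hm => ?_⟩
    by_contra hcon
    refine h4 (fun v => m (finProdFinEquiv.symm v).1 (finProdFinEquiv.symm v).2) (fun v => ?_) ?_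
    · have e : finProdFinEquiv ((finProdFinEquiv.symm v).1, (finProdFinEquiv.symm v).2) = v := by
        rw [Prod.mk.eta, Equiv.apply_symm_apply]
      have h5 := hm (finProdFinEquiv.symm v).1 (finProdFinEquiv.symm v).2
      rw [e] at h5
      exact h5
    · have e2 : (fun i j => m (finProdFinEquiv.symm (finProdFinEquiv (i, j))).1
          (finProdFinEquiv.symm (finProdFinEquiv (i, j))).2) = m := by
        funext i j
        rw [Equiv.symm_apply_apply]
      show ¬ G ω (fun i j => m (finProdFinEquiv.symm (finProdFinEquiv (i, j))).1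
        (finProdFinEquiv.symm (finProdFinEquiv (i, j))).2)
      rw [e2]
      exact hcon
  · apply (A ×ˢ B).finite_toSet.subset
    rintro z ⟨h1, h2, -⟩
    rw [mem_coe, mem_product]
    exact ⟨h1, h2⟩

/-- The same for properties which are known for all but `C |T| ^ (l N - r)` of the matrices with entries in `T`, for all finite sets
`T` of integers. -/
theorem on_matrices_sets {l N c : ℕ} (hl : 1 ≤ l) (hc : c ≤ N) {Ω : Type u} (G : Ω → (Fin l → Fin N → ℤ) → Prop) {κ C : ℝ}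
    (hκ : 0 ≤ κ) (hC : 0 ≤ C)
    (hS : ∀ ω, ∀ T : ℕ, 1 ≤ T →
      ({m : Fin l → Fin N → ℤ | (∀ i j, |m i j| ≤ (T : ℤ)) ∧ ¬ G ω m}.ncard : ℝ) ≤ C * ((2 * T + 1 : ℕ) : ℝ) ^ ((l - 1) * N + c)) :
    OnProductsW (l * N) ((((l - 1) * N + c : ℕ) : ℝ) + ((l * N : ℕ) : ℝ) * κ) κ (fun ω => NearMatrix (G ω)) := by
  have e1 : ((l * N : ℕ) : ℝ) - ((N - c : ℕ) : ℝ) = (((l - 1) * N + c : ℕ) : ℝ) := by
    obtain ⟨l', rfl⟩ := Nat.exists_eq_add_of_le hl
    obtain ⟨r, rfl⟩ := Nat.exists_eq_add_of_le hc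
    have h1 : 1 + l' - 1 = l' := by omega
    have h2 : c + r - c = r := by omega
    rw [h1, h2]
    push_cast
    ring
  have e2 : min ((N - c : ℕ) : ℝ) ((l * N : ℕ) : ℝ) = ((N - c : ℕ) : ℝ) := by
    apply min_eq_left
    have : N - c ≤ l * N := (Nat.sub_le _ _).trans (Nat.le_mul_of_pos_left N hl)
    exact_mod_cast this
  have h := on_matrices (l := l) (N := N) G (c := ((N - c : ℕ) : ℝ)) (C := C * 3 ^ ((l - 1) * N + c)) hκ (fun ω T hT => ?_)
  · rw [e2, e1] at h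
    exact h
  · rw [e1, Real.rpow_natCast]
    refine (hS ω T hT).trans ?_
    have h3 : ((2 * T + 1 : ℕ) : ℝ) ≤ 3 * T := by
      have : 2 * T + 1 ≤ 3 * T := by omega
      exact_mod_cast this
    calc C * ((2 * T + 1 : ℕ) : ℝ) ^ ((l - 1) * N + c) ≤ C * (3 * T) ^ ((l - 1) * N + c) :=
          mul_le_mul_of_nonneg_left (pow_le_pow_left₀ (Nat.cast_nonneg _) h3 _) hC
      _ = _ := by rw [mul_pow]; ring

open Classical in
/-- from sets of entries to the matrices with entries in `[-T, T]` -/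
theorem ncard_of_sets {l N C r : ℕ} {G : (Fin l → Fin N → ℤ) → Prop}
    (h : ∀ T : Finset ℤ, T.Nonempty →
      ((Fintype.piFinset fun _ : Fin l => Fintype.piFinset fun _ : Fin N => T).filter fun m => ¬ G m).card ≤ C * T.card ^ r) (T : ℕ) :
    ({m : Fin l → Fin N → ℤ | (∀ i j, |m i j| ≤ (T : ℤ)) ∧ ¬ G m}.ncard : ℝ) ≤ (C : ℝ) * ((2 * T + 1 : ℕ) : ℝ) ^ r := by
  have h1 := h (Finset.Icc (-(T : ℤ)) T) ⟨0, by simp⟩
  have h2 : (Finset.Icc (-(T : ℤ)) T).card = 2 * T + 1 := by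
    rw [Int.card_Icc]
    omega
  rw [h2] at h1
  have h3 : {m : Fin l → Fin N → ℤ | (∀ i j, |m i j| ≤ (T : ℤ)) ∧ ¬ G m}.ncard ≤ C * (2 * T + 1) ^ r := by
    refine le_trans ?_ h1
    rw [← Set.ncard_coe_finset]
    refine Set.ncard_le_ncard ?_ (Finset.finite_toSet _)
    rintro m ⟨hm, hG⟩
    rw [Finset.mem_coe, Finset.mem_filter, Fintype.mem_piFinset]
    refine ⟨fun i => ?_, hG⟩
    rw [Fintype.mem_piFinset]
    exact fun j => Finset.mem_Icc.2 (abs_le.1 (hm i j))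
  exact_mod_cast h3

end Pool.Agent.U449.BV
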